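import Mathlib

/-!
Lower bound for the number of 321-avoiding permutations whose cycles have length at most 3:
partial permutations built one element at a time (a two-queue automaton).
-/

namespace Pool.Agent.X36.Fa04

/-- Invariants of a partial permutation `f` of `1..t` with partial inverse `g` (`0` = undefined). -/
structure Inv (t : ℕ) (f g : ℕ → ℕ) : Prop where
  fg : ∀ x, f x ≠ 0 → 1 ≤ x ∧ x ≤ t ∧ f x ≤ t ∧ g (f x) = x
  gf : ∀ x, g x ≠ 0 → 1 ≤ x ∧ x ≤ t ∧ g x ≤ t ∧ f (g x) = x
  mf : ∀ x y, x ≤ f x → y ≤ f y → x < y → f x < f y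
  mg : ∀ x y, x ≤ g x → y ≤ g y → x < y → g x < g y
  pf : ∀ x y, x ≤ f x → 1 ≤ y → y ≤ t → f y = 0 → x < y
  pg : ∀ x y, x ≤ g x → 1 ≤ y → y ≤ t → g y = 0 → x < y
  cyc : ∀ x, f x ≠ 0 → f (f x) ≠ 0 → f (f x) = x ∨ f (f (f x)) = x

structure PhA (t : ℕ) (f g : ℕ → ℕ) : Prop where
  pa : ∀ x, 1 ≤ x → x ≤ t → f x = 0 → g x ≠ 0 → g x < x ∧ g (g x) = 0
  pb : ∀ v, 1 ≤ v → v ≤ t → g v = 0 → f v ≠ 0 → v < f v ∧ f (f v) = 0

theorem Inv.f0 {t f g} (h : Inv t f g) : f 0 = 0 := by
  by_contra h0; have := (h.fg 0 h0).1; omega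

theorem Inv.g0 {t f g} (h : Inv t f g) : g 0 = 0 := by
  by_contra h0; have := (h.gf 0 h0).1; omega

theorem Inv.ftop {t f g} (h : Inv t f g) {x} (hx : t < x) : f x = 0 := by
  by_contra h0; have := (h.fg x h0).2.1; omega

theorem Inv.gtop {t f g} (h : Inv t f g) {x} (hx : t < x) : g x = 0 := by
  by_contra h0; have := (h.gf x h0).2.1; omega

theorem Inv.swap {t f g} (h : Inv t f g) : Inv t g f where
  fg := h.gf
  gf := h.fg
  mf := h.mg
  mg := h.mf
  pf := h.pg
  pg := h.pf
  cyc := by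
    intro x h1 h2
    have a := h.gf x h1
    have b := h.gf (g x) h2
    -- z = g (g x), f z = g x, f (g x) = x
    have h3 : f (g (g x)) ≠ 0 := by rw [b.2.2.2]; exact h1
    have h4 : f (f (g (g x))) ≠ 0 := by rw [b.2.2.2, a.2.2.2]; omega
    rcases h.cyc _ h3 h4 with h5 | h5
    · left; rw [b.2.2.2, a.2.2.2] at h5; exact h5.symm
    · right
      rw [b.2.2.2, a.2.2.2] at h5
      -- f x = g (g x)
      have h6 : f x ≠ 0 := by rw [h5]; exact h2
      have := (h.fg x h6).2.2.2
      rw [h5] at this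
      exact this

/-- the `U` step. -/
theorem stepU {t f g} (h : Inv t f g) (p : PhA t f g) : Inv (t + 1) f g ∧ PhA (t + 1) f g := by
  have ft := h.ftop (Nat.lt_succ_self t)
  have gt := h.gtop (Nat.lt_succ_self t)
  refine ⟨⟨?_, ?_, h.mf, h.mg, ?_, ?_, h.cyc⟩, ⟨?_, ?_⟩⟩
  · intro x hx; have := h.fg x hx; omega
  · intro x hx; have := h.gf x hx; omega
  · intro x y hx hy1 hy2 hy
    rcases Nat.lt_or_ge y (t + 1) with hh | hh
    · exact h.pf x y hx hy1 (by omega) hy
    · by_cases h0 : f x = 0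
      · omega
      · have := h.fg x h0; omega
  · intro x y hx hy1 hy2 hy
    rcases Nat.lt_or_ge y (t + 1) with hh | hh
    · exact h.pg x y hx hy1 (by omega) hy
    · by_cases h0 : g x = 0
      · omega
      · have := h.gf x h0; omega
  · intro x h1 h2 h3 h4
    have : x ≤ t := by
      by_contra hc
      exact h4 (h.gtop (by omega))
    exact p.pa x h1 this h3 h4
  · intro x h1 h2 h3 h4
    have : x ≤ t := by
      by_contra hc
      exact h4 (h.ftop (by omega))
    exact p.pb x h1 this h3 h4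

def fL (t x : ℕ) (f : ℕ → ℕ) : ℕ → ℕ := fun z => if z = x then t + 1 else f z
def gL (t x : ℕ) (g : ℕ → ℕ) : ℕ → ℕ := fun z => if z = t + 1 then x else g z

/-- the `L` step. -/
theorem stepL {t f g} (h : Inv t f g) (p : PhA t f g) {x : ℕ} (hx1 : 1 ≤ x) (hxt : x ≤ t)
    (hf : f x = 0) (hg : g x = 0) (hmin : ∀ z, 1 ≤ z → z ≤ t → f z = 0 → x ≤ z) :
    Inv (t + 1) (fL t x f) (gL t x g) ∧ PhA (t + 1) (fL t x f) (gL t x g) := by
  have ft := h.ftop (Nat.lt_succ_self t)
  have gt := h.gtop (Nat.lt_succ_self t)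
  have f0 := h.f0
  have g0 := h.g0
  have fx : fL t x f x = t + 1 := by simp [fL]
  have fz : ∀ z, z ≠ x → fL t x f z = f z := by intro z hz; simp [fL, hz]
  have gtt : gL t x g (t + 1) = x := by simp [gL]
  have gz : ∀ z, z ≠ t + 1 → gL t x g z = g z := by intro z hz; simp [gL, hz]
  have fle : ∀ z, f z ≤ t := by
    intro z; by_cases h0 : f z = 0
    · omega
    · exact (h.fg z h0).2.2.1
  have gle : ∀ z, g z ≤ t := by
    intro z; by_cases h0 : g z = 0
    · omega
    · exact (h.gf z h0).2.2.1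
  refine ⟨⟨?_, ?_, ?_, ?_, ?_, ?_, ?_⟩, ⟨?_, ?_⟩⟩
  · intro z hz
    by_cases hzx : z = x
    · subst hzx; rw [fx, gtt]; omega
    · rw [fz z hzx] at hz ⊢
      have := h.fg z hz
      rw [gz _ (by omega)]
      omega
  · intro z hz
    by_cases hzx : z = t + 1
    · subst hzx; rw [gtt, fx]; omega
    · rw [gz z hzx] at hz ⊢
      have := h.gf z hz
      have hne : g z ≠ x := by intro hh; rw [hh, hf] at this; omega
      rw [fz _ hne]
      omega
  · intro a b ha hb hab
    by_cases hax : a = x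
    · subst hax
      have hba : b ≠ a := by omega
      rw [fz b hba] at hb
      have := h.pf b a hb hx1 hxt hf
      omega
    · rw [fz a hax] at ha ⊢
      by_cases hbx : b = x
      · subst hbx; rw [fx]; have := fle a; omega
      · rw [fz b hbx] at hb ⊢; exact h.mf a b ha hb hab
  · intro a b ha hb hab
    have ha' : a ≠ t + 1 := by intro hh; subst hh; rw [gtt] at ha; omega
    have hb' : b ≠ t + 1 := by intro hh; subst hh; rw [gtt] at hb; omega
    rw [gz a ha'] at ha ⊢
    rw [gz b hb'] at hb ⊢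
    exact h.mg a b ha hb hab
  · intro a b ha hb1 hb2 hb
    have hbx : b ≠ x := by intro hh; subst hh; rw [fx] at hb; omega
    rw [fz b hbx] at hb
    by_cases hax : a = x
    · subst hax
      by_cases hbt : b = t + 1
      · omega
      · have := hmin b hb1 (by omega) hb; omega
    · rw [fz a hax] at ha
      by_cases hbt : b = t + 1
      · have := fle a; omega
      · exact h.pf a b ha hb1 (by omega) hb
  · intro a b ha hb1 hb2 hb
    have ha' : a ≠ t + 1 := by intro hh; subst hh; rw [gtt] at ha; omega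
    have hb' : b ≠ t + 1 := by intro hh; subst hh; rw [gtt] at hb; omega
    rw [gz a ha'] at ha
    rw [gz b hb'] at hb
    exact h.pg a b ha hb1 (by omega) hb
  · intro z h1 h2
    by_cases hzx : z = x
    · subst hzx
      rw [fx, fz (t + 1) (by omega), ft] at h2
      exact absurd rfl h2
    · rw [fz z hzx] at h1 h2 ⊢
      have hz := h.fg z h1
      have hne : f z ≠ x := by intro hh; rw [hh, hg] at hz; omega
      rw [fz _ hne] at h2 ⊢
      rcases h.cyc z h1 h2 with h3 | h3
      · left; exact h3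
      · right
        have hne2 : f (f z) ≠ x := by intro hh; rw [hh, hf] at h3; omega
        rw [fz _ hne2]; exact h3
  · intro z h1 h2 h3 h4
    by_cases hzt : z = t + 1
    · subst hzt; rw [gtt, gz x (by omega)]; exact ⟨by omega, hg⟩
    · have hzx : z ≠ x := by intro hh; subst hh; rw [fx] at h3; omega
      rw [gz z hzt] at h4 ⊢
      rw [fz z hzx] at h3
      have := p.pa z h1 (by omega) h3 h4
      have hl := gle z
      rw [gz _ (by omega)]
      exact this
  · intro z h1 h2 h3 h4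
    have hzt : z ≠ t + 1 := by intro hh; subst hh; rw [gtt] at h3; omega
    rw [gz z hzt] at h3
    by_cases hzx : z = x
    · subst hzx; rw [fx, fz (t + 1) (by omega)]; exact ⟨by omega, ft⟩
    · rw [fz z hzx] at h4 ⊢
      have := p.pb z h1 (by omega) h3 h4
      have hz := h.fg z h4
      have hne : f z ≠ x := by intro hh; rw [hh, hg] at hz; omega
      rw [fz _ hne]; exact this

def fD (t x y : ℕ) (f : ℕ → ℕ) : ℕ → ℕ :=
  fun z => if z = t + 1 then y else if z = x then t + 1 else f z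

/-- the closing step, invariants part. -/
theorem stepD {t f g} (h : Inv t f g) {x y : ℕ} (hx1 : 1 ≤ x) (hxt : x ≤ t)
    (hy1 : 1 ≤ y) (hyt : y ≤ t) (hf : f x = 0) (hg : g y = 0)
    (hminx : ∀ z, 1 ≤ z → z ≤ t → f z = 0 → x ≤ z)
    (hminy : ∀ z, 1 ≤ z → z ≤ t → g z = 0 → y ≤ z)
    (hc : x = y ∨ f y = x) :
    Inv (t + 1) (fD t x y f) (fD t y x g) := by
  have ft := h.ftop (Nat.lt_succ_self t)
  have gt := h.gtop (Nat.lt_succ_self t)
  have f0 := h.f0
  have g0 := h.g0
  have fx : fD t x y f x = t + 1 := by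
    have : x ≠ t + 1 := by omega
    simp [fD, this]
  have ftt : fD t x y f (t + 1) = y := by simp [fD]
  have fz : ∀ z, z ≠ x → z ≠ t + 1 → fD t x y f z = f z := by
    intro z hz hz'; simp [fD, hz, hz']
  have gy : fD t y x g y = t + 1 := by
    have : y ≠ t + 1 := by omega
    simp [fD, this]
  have gtt : fD t y x g (t + 1) = x := by simp [fD]
  have gz : ∀ z, z ≠ y → z ≠ t + 1 → fD t y x g z = g z := by
    intro z hz hz'; simp [fD, hz, hz']
  have fle : ∀ z, f z ≤ t := by
    intro z; by_cases h0 : f z = 0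
    · omega
    · exact (h.fg z h0).2.2.1
  have gle : ∀ z, g z ≤ t := by
    intro z; by_cases h0 : g z = 0
    · omega
    · exact (h.gf z h0).2.2.1
  refine ⟨?_, ?_, ?_, ?_, ?_, ?_, ?_⟩
  · intro z hz
    by_cases hzt : z = t + 1
    · subst hzt; rw [ftt, gy]; omega
    by_cases hzx : z = x
    · subst hzx; rw [fx, gtt]; omega
    · rw [fz z hzx hzt] at hz ⊢
      have := h.fg z hz
      have hne : f z ≠ y := by intro hh; rw [hh, hg] at this; omega
      rw [gz _ hne (by omega)]
      omega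
  · intro z hz
    by_cases hzt : z = t + 1
    · subst hzt; rw [gtt, fx]; omega
    by_cases hzy : z = y
    · subst hzy; rw [gy, ftt]; omega
    · rw [gz z hzy hzt] at hz ⊢
      have := h.gf z hz
      have hne : g z ≠ x := by intro hh; rw [hh, hf] at this; omega
      rw [fz _ hne (by omega)]
      omega
  · intro a b ha hb hab
    have hat : a ≠ t + 1 := by intro hh; subst hh; rw [ftt] at ha; omega
    have hbt : b ≠ t + 1 := by intro hh; subst hh; rw [ftt] at hb; omega
    by_cases hax : a = x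
    · subst hax
      rw [fz b (by omega) hbt] at hb
      have := h.pf b a hb hx1 hxt hf
      omega
    · rw [fz a hax hat] at ha ⊢
      by_cases hbx : b = x
      · subst hbx; rw [fx]; have := fle a; omega
      · rw [fz b hbx hbt] at hb ⊢; exact h.mf a b ha hb hab
  · intro a b ha hb hab
    have hat : a ≠ t + 1 := by intro hh; subst hh; rw [gtt] at ha; omega
    have hbt : b ≠ t + 1 := by intro hh; subst hh; rw [gtt] at hb; omega
    by_cases hay : a = y
    · subst hay
      rw [gz b (by omega) hbt] at hb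
      have := h.pg b a hb hy1 hyt hg
      omega
    · rw [gz a hay hat] at ha ⊢
      by_cases hby : b = y
      · subst hby; rw [gy]; have := gle a; omega
      · rw [gz b hby hbt] at hb ⊢; exact h.mg a b ha hb hab
  · intro a b ha hb1 hb2 hb
    have hat : a ≠ t + 1 := by intro hh; subst hh; rw [ftt] at ha; omega
    have hbt : b ≠ t + 1 := by intro hh; subst hh; rw [ftt] at hb; omega
    have hbx : b ≠ x := by intro hh; subst hh; rw [fx] at hb; omega
    rw [fz b hbx hbt] at hb
    have hm := hminx b hb1 (by omega) hb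
    by_cases hax : a = x
    · omega
    · rw [fz a hax hat] at ha
      exact h.pf a b ha hb1 (by omega) hb
  · intro a b ha hb1 hb2 hb
    have hat : a ≠ t + 1 := by intro hh; subst hh; rw [gtt] at ha; omega
    have hbt : b ≠ t + 1 := by intro hh; subst hh; rw [gtt] at hb; omega
    have hby : b ≠ y := by intro hh; subst hh; rw [gy] at hb; omega
    rw [gz b hby hbt] at hb
    have hm := hminy b hb1 (by omega) hb
    by_cases hay : a = y
    · omega
    · rw [gz a hay hat] at ha
      exact h.pg a b ha hb1 (by omega) hb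
  · intro z h1 h2
    by_cases hzt : z = t + 1
    · subst hzt
      rw [ftt]
      rcases hc with hc | hc
      · left; subst hc; exact fx
      · right
        have hyx : y ≠ x := by intro hh; rw [hh, hf] at hc; omega
        rw [fz y hyx (by omega), hc, fx]
    by_cases hzx : z = x
    · subst hzx
      rw [fx, ftt]
      rcases hc with hc | hc
      · left; exact hc.symm
      · right
        have hyx : y ≠ z := by intro hh; rw [hh, hf] at hc; omega
        rw [fz y hyx (by omega), hc]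
    rw [fz z hzx hzt] at h1 h2 ⊢
    have hz := h.fg z h1
    by_cases hfz : f z = x
    · -- then z = y
      right
      rw [hfz, fx, ftt]
      rcases hc with hc | hc
      · rw [hfz, hc, hg] at hz; omega
      · have hy' := h.fg y (by omega)
        rw [hc] at hy'
        rw [hfz] at hz
        omega
    rw [fz _ hfz (by omega)] at h2 ⊢
    rcases h.cyc z h1 h2 with h3 | h3
    · left; exact h3
    · right
      have hne2 : f (f z) ≠ x := by intro hh; rw [hh, hf] at h3; omega
      have := fle (f z)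
      rw [fz _ hne2 (by omega)]; exact h3

/-- the pending list. -/
def Q (t : ℕ) (f : ℕ → ℕ) : List ℕ := (List.range' 1 t).filter (fun x => decide (f x = 0))

theorem mem_Q {t f z} : z ∈ Q t f ↔ 1 ≤ z ∧ z ≤ t ∧ f z = 0 := by
  unfold Q
  rw [List.mem_filter, List.mem_range'_1]
  simp only [decide_eq_true_eq]
  constructor
  · rintro ⟨⟨h1, h2⟩, h3⟩; exact ⟨h1, by omega, h3⟩
  · rintro ⟨h1, h2, h3⟩; exact ⟨⟨h1, by omega⟩, h3⟩

theorem Q_sorted (t f) : (Q t f).Pairwise (· < ·) := by
  unfold Q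
  exact List.Pairwise.filter _ List.pairwise_lt_range'

theorem Q_succ (t f) : Q (t + 1) f = Q t f ++ (if f (t + 1) = 0 then [t + 1] else []) := by
  unfold Q
  rw [List.range'_concat, List.filter_append]
  congr 1
  have : 1 + 1 * t = t + 1 := by ring
  rw [this]
  by_cases h : f (t + 1) = 0 <;> simp [h]

theorem Q_tail {t f f' x R} (h : Q t f = x :: R) (hx : f' x ≠ 0)
    (hz : ∀ z, z ≠ x → z ≤ t → f' z = f z) : Q t f' = R := by
  have h1 : Q t f' = (Q t f).filter (fun z => decide (z ≠ x)) := by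
    unfold Q
    rw [List.filter_filter]
    apply List.filter_congr
    intro z hzm
    rw [List.mem_range'_1] at hzm
    by_cases hzx : z = x
    · subst hzx; simp [hx]
    · simp [hz z hzx (by omega), hzx]
  rw [h1, h]
  have hs := Q_sorted t f
  rw [h, List.pairwise_cons] at hs
  rw [List.filter_cons]
  simp only [ne_eq, not_true_eq_false, decide_false, Bool.false_eq_true, if_false]
  rw [List.filter_eq_self]
  intro z hzR
  have := hs.1 z hzR
  simp; omega

def wd (t : ℕ) (f g : ℕ → ℕ) : List Bool := (Q t f).map (fun x => decide (g x ≠ 0))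

def XA (t : ℕ) (w : List Bool) : Set ((ℕ → ℕ) × (ℕ → ℕ)) :=
  {p | Inv t p.1 p.2 ∧ PhA t p.1 p.2 ∧ wd t p.1 p.2 = w}

/-- word cons data -/
theorem wd_cons {t f g b w} (h : wd t f g = b :: w) :
    ∃ x R, Q t f = x :: R ∧ decide (g x ≠ 0) = b ∧ R.map (fun x => decide (g x ≠ 0)) = w := by
  unfold wd at h
  rw [List.map_eq_cons_iff] at h
  obtain ⟨x, R, h1, h2, h3⟩ := h
  exact ⟨x, R, h1, h2, h3⟩

theorem head_props {t f x R} (h : Q t f = x :: R) :
    1 ≤ x ∧ x ≤ t ∧ f x = 0 ∧ ∀ z, 1 ≤ z → z ≤ t → f z = 0 → x ≤ z := by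
  have hx : x ∈ Q t f := by rw [h]; simp
  rw [mem_Q] at hx
  refine ⟨hx.1, hx.2.1, hx.2.2, ?_⟩
  intro z h1 h2 h3
  have hz : z ∈ Q t f := mem_Q.2 ⟨h1, h2, h3⟩
  have hs := Q_sorted t f
  rw [h] at hz hs
  rw [List.pairwise_cons] at hs
  rcases List.mem_cons.1 hz with hz | hz
  · omega
  · exact (hs.1 z hz).le

def hd (t : ℕ) (f : ℕ → ℕ) : ℕ := (Q t f).headD 0

def phiL (t : ℕ) (p : (ℕ → ℕ) × (ℕ → ℕ)) : (ℕ → ℕ) × (ℕ → ℕ) :=
  (fL t (hd t p.1) p.1, gL t (hd t p.1) p.2)

def yy (t : ℕ) (p : (ℕ → ℕ) × (ℕ → ℕ)) : ℕ :=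
  if p.2 (hd t p.1) = 0 then hd t p.1 else p.2 (hd t p.1)

def phiD (t : ℕ) (p : (ℕ → ℕ) × (ℕ → ℕ)) : (ℕ → ℕ) × (ℕ → ℕ) :=
  (fD t (hd t p.1) (yy t p) p.1, fD t (yy t p) (hd t p.1) p.2)

def phiF (t : ℕ) (p : (ℕ → ℕ) × (ℕ → ℕ)) : (ℕ → ℕ) × (ℕ → ℕ) :=
  (gL t (t + 1) p.1, gL t (t + 1) p.2)

theorem U_mem {t w p} (h : p ∈ XA t w) :
    p ∈ XA (t + 1) (w ++ [false]) ∧ p.1 (t + 1) = 0 ∧ p.2 (t + 1) = 0 := by
  obtain ⟨h1, h2, h3⟩ := h
  have a := stepU h1 h2
  have ft := h1.ftop (Nat.lt_succ_self t)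
  have gt := h1.gtop (Nat.lt_succ_self t)
  refine ⟨⟨a.1, a.2, ?_⟩, ft, gt⟩
  unfold wd at h3 ⊢
  rw [Q_succ, if_pos ft, List.map_append, h3]
  simp [gt]

theorem L_mem {t w p} (h : p ∈ XA t (false :: w)) :
    phiL t p ∈ XA (t + 1) (w ++ [true]) ∧ (phiL t p).1 (t + 1) = 0 ∧ (phiL t p).2 (t + 1) ≠ 0 := by
  obtain ⟨h1, h2, h3⟩ := h
  obtain ⟨x, R, hQ, hb, hR⟩ := wd_cons h3
  have hx := head_props hQ
  have hd' : hd t p.1 = x := by simp [hd, hQ]
  have hgx : p.2 x = 0 := by simpa using hb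
  have a := stepL h1 h2 hx.1 hx.2.1 hx.2.2.1 hgx hx.2.2.2
  have ft := h1.ftop (Nat.lt_succ_self t)
  have gt := h1.gtop (Nat.lt_succ_self t)
  have e1 : (phiL t p).1 = fL t x p.1 := by simp [phiL, hd']
  have e2 : (phiL t p).2 = gL t x p.2 := by simp [phiL, hd']
  have k1 : fL t x p.1 (t + 1) = 0 := by
    have : t + 1 ≠ x := by omega
    simp [fL, this, ft]
  have k2 : gL t x p.2 (t + 1) = x := by simp [gL]
  refine ⟨⟨?_, ?_, ?_⟩, ?_, ?_⟩
  · rw [e1, e2]; exact a.1
  · rw [e1, e2]; exact a.2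
  · rw [e1, e2]
    unfold wd
    rw [Q_succ, if_pos k1]
    have hq : Q t (fL t x p.1) = R := by
      apply Q_tail hQ
      · simp [fL]
      · intro z hz _; simp [fL, hz]
    rw [hq, List.map_append]
    congr 1
    · rw [← hR]
      apply List.map_congr_left
      intro z hz
      have hzQ : z ∈ Q t p.1 := by rw [hQ]; simp [hz]
      rw [mem_Q] at hzQ
      have : z ≠ t + 1 := by omega
      simp [gL, this]
    · have : x ≠ 0 := by omega
      simp [k2, this]
  · rw [e1]; exact k1
  · rw [e2, k2]; omega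

theorem L_inj (t w) : Set.InjOn (phiL t) (XA t (false :: w)) := by
  intro p hp q hq hpq
  obtain ⟨h1, h2, h3⟩ := hp
  obtain ⟨x, R, hQ, hb, hR⟩ := wd_cons h3
  obtain ⟨h1', h2', h3'⟩ := hq
  obtain ⟨x', R', hQ', hb', hR'⟩ := wd_cons h3'
  have hx := head_props hQ
  have hx' := head_props hQ'
  have hd1 : hd t p.1 = x := by simp [hd, hQ]
  have hd2 : hd t q.1 = x' := by simp [hd, hQ']
  have e1 : fL t x p.1 = fL t x' q.1 := by
    have := congrArg Prod.fst hpq; simpa [phiL, hd1, hd2] using this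
  have e2 : gL t x p.2 = gL t x' q.2 := by
    have := congrArg Prod.snd hpq; simpa [phiL, hd1, hd2] using this
  have exx : x = x' := by
    have := congrFun e2 (t + 1); simpa [gL] using this
  subst exx
  apply Prod.ext
  · funext z
    by_cases hz : z = x
    · subst hz; rw [hx.2.2.1, hx'.2.2.1]
    · have := congrFun e1 z; simpa [fL, hz] using this
  · funext z
    by_cases hz : z = t + 1
    · subst hz; rw [h1.gtop (Nat.lt_succ_self t), h1'.gtop (Nat.lt_succ_self t)]
    · have := congrFun e2 z; simpa [gL, hz] using this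

/-- data of a closing step on a used front. -/
theorem DA_data {t w p} (h : p ∈ XA t (true :: w)) :
    ∃ x y R, Q t p.1 = x :: R ∧ R.map (fun x => decide (p.2 x ≠ 0)) = w ∧ hd t p.1 = x ∧
      yy t p = y ∧ p.2 x = y ∧ 1 ≤ y ∧ y < x ∧ x ≤ t ∧ p.1 x = 0 ∧ p.2 y = 0 ∧ p.1 y = x ∧
      (∀ z, 1 ≤ z → z ≤ t → p.1 z = 0 → x ≤ z) ∧ (∀ z, 1 ≤ z → z ≤ t → p.2 z = 0 → y ≤ z) := by
  obtain ⟨h1, h2, h3⟩ := h
  obtain ⟨x, R, hQ, hb, hR⟩ := wd_cons h3
  have hx := head_props hQ
  have hd' : hd t p.1 = x := by simp [hd, hQ]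
  have hgx : p.2 x ≠ 0 := by simpa using hb
  have hg := h1.gf x hgx
  have ha := h2.pa x hx.1 hx.2.1 hx.2.2.1 hgx
  refine ⟨x, p.2 x, R, hQ, hR, hd', ?_, rfl, by omega, ha.1, hx.2.1, hx.2.2.1, ha.2, hg.2.2.2,
    hx.2.2.2, ?_⟩
  · simp [yy, hd', hgx]
  · intro z hz1 hzt hz
    have hyy : p.2 x ≤ p.1 (p.2 x) := by rw [hg.2.2.2]; exact ha.1.le
    by_cases hfz : p.1 z = 0
    · exact (h1.pf (p.2 x) z hyy hz1 hzt hfz).le
    · have hb := h2.pb z hz1 hzt hz hfz
      have hfz' := h1.fg z hfz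
      by_contra hcon
      have hlt : z < p.2 x := by omega
      have := h1.mf z (p.2 x) hb.1.le hyy hlt
      rw [hg.2.2.2] at this
      have h5 := hx.2.2.2 (p.1 z) (by omega) hfz'.2.2.1 hb.2
      omega

theorem DA_mem {t w p} (h : p ∈ XA t (true :: w)) :
    phiD t p ∈ XA (t + 1) w ∧ 0 < (phiD t p).1 (t + 1) ∧
      (phiD t p).1 (t + 1) < (phiD t p).2 (t + 1) := by
  obtain ⟨x, y, R, hQ, hR, hd', hyy, hgx, hy1, hyx, hxt, hfx, hgy, hfy, hminx, hminy⟩ := DA_data h
  obtain ⟨h1, h2, h3⟩ := h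
  have a := stepD h1 (by omega) hxt hy1 (by omega) hfx hgy hminx hminy (Or.inr hfy)
  have e1 : (phiD t p).1 = fD t x y p.1 := by simp [phiD, hd', hyy]
  have e2 : (phiD t p).2 = fD t y x p.2 := by simp [phiD, hd', hyy]
  have k1 : fD t x y p.1 (t + 1) = y := by simp [fD]
  have k2 : fD t y x p.2 (t + 1) = x := by simp [fD]
  have fz : ∀ z, z ≠ x → z ≠ t + 1 → fD t x y p.1 z = p.1 z := by
    intro z hz hz'; simp [fD, hz, hz']
  have gz : ∀ z, z ≠ y → z ≠ t + 1 → fD t y x p.2 z = p.2 z := by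
    intro z hz hz'; simp [fD, hz, hz']
  have fx : fD t x y p.1 x = t + 1 := by
    have : x ≠ t + 1 := by omega
    simp [fD, this]
  have gy : fD t y x p.2 y = t + 1 := by
    have : y ≠ t + 1 := by omega
    simp [fD, this]
  refine ⟨⟨?_, ⟨?_, ?_⟩, ?_⟩, ?_, ?_⟩
  · rw [e1, e2]; exact a
  · rw [e1, e2]
    intro z hz1 hzt hfz hgz
    have z1 : z ≠ t + 1 := by intro hh; rw [hh, k1] at hfz; omega
    have z2 : z ≠ x := by intro hh; rw [hh, fx] at hfz; omega
    rw [fz z z2 z1] at hfz
    have z3 : z ≠ y := by intro hh; rw [hh, hfy] at hfz; omega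
    rw [gz z z3 z1] at hgz ⊢
    have b := h2.pa z hz1 (by omega) hfz hgz
    have c := h1.gf z hgz
    have d : p.2 z ≠ y := by intro hh; rw [hh, hfy] at c; omega
    rw [gz _ d (by omega)]
    exact b
  · rw [e1, e2]
    intro z hz1 hzt hgz hfz
    have z1 : z ≠ t + 1 := by intro hh; rw [hh, k2] at hgz; omega
    have z2 : z ≠ y := by intro hh; rw [hh, gy] at hgz; omega
    rw [gz z z2 z1] at hgz
    have z3 : z ≠ x := by intro hh; rw [hh, hgx] at hgz; omega
    rw [fz z z3 z1] at hfz ⊢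
    have b := h2.pb z hz1 (by omega) hgz hfz
    have c := h1.fg z hfz
    have d : p.1 z ≠ x := by intro hh; rw [hh, hgx] at c; omega
    rw [fz _ d (by omega)]
    exact b
  · rw [e1, e2]
    unfold wd
    rw [Q_succ, if_neg (by rw [k1]; omega), List.append_nil]
    have hq : Q t (fD t x y p.1) = R := by
      apply Q_tail hQ
      · rw [fx]; omega
      · intro z hz hzt; exact fz z hz (by omega)
    rw [hq, ← hR]
    apply List.map_congr_left
    intro z hz
    have hzQ : z ∈ Q t p.1 := by rw [hQ]; simp [hz]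
    rw [mem_Q] at hzQ
    have z3 : z ≠ y := by intro hh; rw [hh, hfy] at hzQ; omega
    rw [gz z z3 (by omega)]
  · rw [e1, k1]; omega
  · rw [e1, e2, k1, k2]; exact hyx

theorem DA_inj (t w) : Set.InjOn (phiD t) (XA t (true :: w)) := by
  intro p hp q hq hpq
  obtain ⟨x, y, R, hQ, hR, hd', hyy, hgx, hy1, hyx, hxt, hfx, hgy, hfy, -, -⟩ := DA_data hp
  obtain ⟨x', y', R', hQ', hR', hd'', hyy', hgx', hy1', hyx', hxt', hfx', hgy', hfy', -, -⟩ :=
    DA_data hq
  have i1 := hp.1
  have i2 := hq.1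
  have e1 : fD t x y p.1 = fD t x' y' q.1 := by
    have := congrArg Prod.fst hpq; simpa [phiD, hd', hd'', hyy, hyy'] using this
  have e2 : fD t y x p.2 = fD t y' x' q.2 := by
    have := congrArg Prod.snd hpq; simpa [phiD, hd', hd'', hyy, hyy'] using this
  have exx : x = x' := by
    have := congrFun e2 (t + 1); simpa [fD] using this
  have eyy : y = y' := by
    have := congrFun e1 (t + 1); simpa [fD] using this
  subst exx
  subst eyy
  apply Prod.ext
  · funext z
    by_cases hz' : z = t + 1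
    · subst hz'; rw [i1.ftop (Nat.lt_succ_self t), i2.ftop (Nat.lt_succ_self t)]
    by_cases hz : z = x
    · subst hz; rw [hfx, hfx']
    · have := congrFun e1 z; simpa [fD, hz, hz'] using this
  · funext z
    by_cases hz' : z = t + 1
    · subst hz'; rw [i1.gtop (Nat.lt_succ_self t), i2.gtop (Nat.lt_succ_self t)]
    by_cases hz : z = y
    · subst hz; rw [hgy, hgy']
    · have := congrFun e2 z; simpa [fD, hz, hz'] using this

/-- all pending elements are fresh when the word has no `true`. -/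
theorem fresh {t w p} (h : p ∈ XA t w) (hw : ∀ b ∈ w, b = false) :
    (∀ z, 1 ≤ z → z ≤ t → p.1 z = 0 → p.2 z = 0) ∧
    (∀ z, 1 ≤ z → z ≤ t → p.2 z = 0 → p.1 z = 0) := by
  obtain ⟨h1, h2, h3⟩ := h
  have key : ∀ z, 1 ≤ z → z ≤ t → p.1 z = 0 → p.2 z = 0 := by
    intro z hz1 hzt hz
    have hm : decide (p.2 z ≠ 0) ∈ w := by
      rw [← h3]; unfold wd
      exact List.mem_map.2 ⟨z, mem_Q.2 ⟨hz1, hzt, hz⟩, rfl⟩
    have := hw _ hm
    simpa using this
  refine ⟨key, ?_⟩
  intro z hz1 hzt hz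
  by_contra hf
  have b := h2.pb z hz1 hzt hz hf
  have c := h1.fg z hf
  have := key (p.1 z) (by omega) c.2.2.1 b.2
  omega

theorem swap_mem {t w p} (h : p ∈ XA t w) (hw : ∀ b ∈ w, b = false) : p.swap ∈ XA t w := by
  have hf := fresh h hw
  obtain ⟨h1, h2, h3⟩ := h
  refine ⟨h1.swap, ⟨?_, ?_⟩, ?_⟩
  · intro z hz1 hzt hz hz'
    exact absurd (hf.2 z hz1 hzt hz) hz'
  · intro z hz1 hzt hz hz'
    exact absurd (hf.1 z hz1 hzt hz) hz'
  · rw [← h3]
    unfold wd
    have hq : Q t p.2 = Q t p.1 := by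
      unfold Q
      apply List.filter_congr
      intro z hz
      rw [List.mem_range'_1] at hz
      have := hf.1 z hz.1 (by omega)
      have := hf.2 z hz.1 (by omega)
      have hiff : p.2 z = 0 ↔ p.1 z = 0 := ⟨by assumption, by assumption⟩
      simp [hiff]
    show List.map (fun x => decide (p.1 x ≠ 0)) (Q t p.2) = _
    rw [hq]
    apply List.map_congr_left
    intro z hz
    rw [mem_Q] at hz
    rw [hz.2.2, hf.1 z hz.1 hz.2.1 hz.2.2]

theorem DF_data {t w p} (h : p ∈ XA t (false :: w)) :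
    ∃ x R, Q t p.1 = x :: R ∧ R.map (fun x => decide (p.2 x ≠ 0)) = w ∧ hd t p.1 = x ∧
      yy t p = x ∧ 1 ≤ x ∧ x ≤ t ∧ p.1 x = 0 ∧ p.2 x = 0 ∧
      (∀ z, 1 ≤ z → z ≤ t → p.1 z = 0 → x ≤ z) := by
  obtain ⟨h1, h2, h3⟩ := h
  obtain ⟨x, R, hQ, hb, hR⟩ := wd_cons h3
  have hx := head_props hQ
  have hd' : hd t p.1 = x := by simp [hd, hQ]
  have hgx : p.2 x = 0 := by simpa using hb
  exact ⟨x, R, hQ, hR, hd', by simp [yy, hd', hgx], hx.1, hx.2.1, hx.2.2.1, hgx, hx.2.2.2⟩

theorem DF_mem {t w p} (h : p ∈ XA t (false :: w)) (hw : ∀ b ∈ w, b = false) :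
    phiD t p ∈ XA (t + 1) w ∧ 0 < (phiD t p).1 (t + 1) ∧
      (phiD t p).1 (t + 1) = (phiD t p).2 (t + 1) ∧ (phiD t p).1 (t + 1) < t + 1 := by
  obtain ⟨x, R, hQ, hR, hd', hyy, hx1, hxt, hfx, hgx, hminx⟩ := DF_data h
  have hw' : ∀ b ∈ false :: w, b = false := by
    intro b hb; rcases List.mem_cons.1 hb with hb | hb
    · exact hb
    · exact hw b hb
  have hfr := fresh h hw'
  obtain ⟨h1, h2, h3⟩ := h
  have hminy : ∀ z, 1 ≤ z → z ≤ t → p.2 z = 0 → x ≤ z := by
    intro z hz1 hzt hz
    exact hminx z hz1 hzt (hfr.2 z hz1 hzt hz)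
  have a := stepD h1 hx1 hxt hx1 hxt hfx hgx hminx hminy (Or.inl rfl)
  have e1 : (phiD t p).1 = fD t x x p.1 := by simp [phiD, hd', hyy]
  have e2 : (phiD t p).2 = fD t x x p.2 := by simp [phiD, hd', hyy]
  have k1 : fD t x x p.1 (t + 1) = x := by simp [fD]
  have k2 : fD t x x p.2 (t + 1) = x := by simp [fD]
  have fz : ∀ z, z ≠ x → z ≠ t + 1 → fD t x x p.1 z = p.1 z := by
    intro z hz hz'; simp [fD, hz, hz']
  have gz : ∀ z, z ≠ x → z ≠ t + 1 → fD t x x p.2 z = p.2 z := by
    intro z hz hz'; simp [fD, hz, hz']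
  have fx : fD t x x p.1 x = t + 1 := by
    have : x ≠ t + 1 := by omega
    simp [fD, this]
  have gx : fD t x x p.2 x = t + 1 := by
    have : x ≠ t + 1 := by omega
    simp [fD, this]
  refine ⟨⟨?_, ⟨?_, ?_⟩, ?_⟩, ?_, ?_, ?_⟩
  · rw [e1, e2]; exact a
  · rw [e1, e2]
    intro z hz1 hzt hfz hgz
    have z1 : z ≠ t + 1 := by intro hh; rw [hh, k1] at hfz; omega
    have z2 : z ≠ x := by intro hh; rw [hh, fx] at hfz; omega
    rw [fz z z2 z1] at hfz
    rw [gz z z2 z1] at hgz
    exact absurd (hfr.1 z hz1 (by omega) hfz) hgz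
  · rw [e1, e2]
    intro z hz1 hzt hgz hfz
    have z1 : z ≠ t + 1 := by intro hh; rw [hh, k2] at hgz; omega
    have z2 : z ≠ x := by intro hh; rw [hh, gx] at hgz; omega
    rw [gz z z2 z1] at hgz
    rw [fz z z2 z1] at hfz
    exact absurd (hfr.2 z hz1 (by omega) hgz) hfz
  · rw [e1, e2]
    unfold wd
    rw [Q_succ, if_neg (by rw [k1]; omega), List.append_nil]
    have hq : Q t (fD t x x p.1) = R := by
      apply Q_tail hQ
      · rw [fx]; omega
      · intro z hz hzt; exact fz z hz (by omega)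
    rw [hq, ← hR]
    apply List.map_congr_left
    intro z hz
    have hs := Q_sorted t p.1
    rw [hQ, List.pairwise_cons] at hs
    have h5 := hs.1 z hz
    have hzQ : z ∈ Q t p.1 := by rw [hQ]; simp [hz]
    rw [mem_Q] at hzQ
    rw [gz z (by omega) (by omega)]
  · rw [e1, k1]; omega
  · rw [e1, e2, k1, k2]
  · rw [e1, k1]; omega

theorem DF_inj (t w) : Set.InjOn (phiD t) (XA t (false :: w)) := by
  intro p hp q hq hpq
  obtain ⟨x, R, hQ, hR, hd', hyy, hx1, hxt, hfx, hgx, -⟩ := DF_data hp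
  obtain ⟨x', R', hQ', hR', hd'', hyy', hx1', hxt', hfx', hgx', -⟩ := DF_data hq
  have i1 := hp.1
  have i2 := hq.1
  have e1 : fD t x x p.1 = fD t x' x' q.1 := by
    have := congrArg Prod.fst hpq; simpa [phiD, hd', hd'', hyy, hyy'] using this
  have e2 : fD t x x p.2 = fD t x' x' q.2 := by
    have := congrArg Prod.snd hpq; simpa [phiD, hd', hd'', hyy, hyy'] using this
  have exx : x = x' := by
    have := congrFun e2 (t + 1); simpa [fD] using this
  subst exx
  apply Prod.ext
  · funext z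
    by_cases hz' : z = t + 1
    · subst hz'; rw [i1.ftop (Nat.lt_succ_self t), i2.ftop (Nat.lt_succ_self t)]
    by_cases hz : z = x
    · subst hz; rw [hfx, hfx']
    · have := congrFun e1 z; simpa [fD, hz, hz'] using this
  · funext z
    by_cases hz' : z = t + 1
    · subst hz'; rw [i1.gtop (Nat.lt_succ_self t), i2.gtop (Nat.lt_succ_self t)]
    by_cases hz : z = x
    · subst hz; rw [hgx, hgx']
    · have := congrFun e2 z; simpa [fD, hz, hz'] using this

theorem F_mem {t p} (h : p ∈ XA t []) :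
    phiF t p ∈ XA (t + 1) [] ∧ (phiF t p).1 (t + 1) = t + 1 ∧ (phiF t p).2 (t + 1) = t + 1 := by
  have hfr := fresh h (by simp)
  obtain ⟨h1, h2, h3⟩ := h
  have hQ : Q t p.1 = [] := by
    unfold wd at h3
    exact List.map_eq_nil_iff.1 h3
  have hnf : ∀ z, 1 ≤ z → z ≤ t → p.1 z ≠ 0 := by
    intro z hz1 hzt hz
    have : z ∈ Q t p.1 := mem_Q.2 ⟨hz1, hzt, hz⟩
    rw [hQ] at this; simp at this
  have hng : ∀ z, 1 ≤ z → z ≤ t → p.2 z ≠ 0 := by
    intro z hz1 hzt hz
    exact hnf z hz1 hzt (hfr.2 z hz1 hzt hz)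
  have ft := h1.ftop (Nat.lt_succ_self t)
  have gt := h1.gtop (Nat.lt_succ_self t)
  have fle : ∀ z, p.1 z ≤ t := by
    intro z; by_cases h0 : p.1 z = 0
    · omega
    · exact (h1.fg z h0).2.2.1
  have gle : ∀ z, p.2 z ≤ t := by
    intro z; by_cases h0 : p.2 z = 0
    · omega
    · exact (h1.gf z h0).2.2.1
  have e1 : (phiF t p).1 = gL t (t + 1) p.1 := rfl
  have e2 : (phiF t p).2 = gL t (t + 1) p.2 := rfl
  have k1 : gL t (t + 1) p.1 (t + 1) = t + 1 := by simp [gL]
  have k2 : gL t (t + 1) p.2 (t + 1) = t + 1 := by simp [gL]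
  have fz : ∀ z, z ≠ t + 1 → gL t (t + 1) p.1 z = p.1 z := by intro z hz; simp [gL, hz]
  have gz : ∀ z, z ≠ t + 1 → gL t (t + 1) p.2 z = p.2 z := by intro z hz; simp [gL, hz]
  refine ⟨⟨⟨?_, ?_, ?_, ?_, ?_, ?_, ?_⟩, ⟨?_, ?_⟩, ?_⟩, ?_, ?_⟩
  · rw [e1, e2]; intro z hz
    by_cases hzt : z = t + 1
    · subst hzt; rw [k1, k2]; omega
    · rw [fz z hzt] at hz ⊢
      have := h1.fg z hz
      rw [gz _ (by omega)]; omega
  · rw [e1, e2]; intro z hz
    by_cases hzt : z = t + 1
    · subst hzt; rw [k2, k1]; omega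
    · rw [gz z hzt] at hz ⊢
      have := h1.gf z hz
      rw [fz _ (by omega)]; omega
  · rw [e1]; intro a b ha hb hab
    by_cases hat : a = t + 1
    · subst hat
      rw [fz b (by omega)] at hb
      have := fle b; omega
    · rw [fz a hat] at ha ⊢
      by_cases hbt : b = t + 1
      · subst hbt; rw [k1]; have := fle a; omega
      · rw [fz b hbt] at hb ⊢; exact h1.mf a b ha hb hab
  · rw [e2]; intro a b ha hb hab
    by_cases hat : a = t + 1
    · subst hat
      rw [gz b (by omega)] at hb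
      have := gle b; omega
    · rw [gz a hat] at ha ⊢
      by_cases hbt : b = t + 1
      · subst hbt; rw [k2]; have := gle a; omega
      · rw [gz b hbt] at hb ⊢; exact h1.mg a b ha hb hab
  · rw [e1]; intro a b ha hb1 hb2 hb
    by_cases hbt : b = t + 1
    · rw [hbt, k1] at hb; omega
    · rw [fz b hbt] at hb; exact absurd hb (hnf b hb1 (by omega))
  · rw [e2]; intro a b ha hb1 hb2 hb
    by_cases hbt : b = t + 1
    · rw [hbt, k2] at hb; omega
    · rw [gz b hbt] at hb; exact absurd hb (hng b hb1 (by omega))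
  · rw [e1]; intro z hz1 hz2
    by_cases hzt : z = t + 1
    · subst hzt; left; rw [k1, k1]
    · rw [fz z hzt] at hz1 hz2 ⊢
      have l1 := fle z
      rw [fz _ (by omega)] at hz2 ⊢
      have l2 := fle (p.1 z)
      rw [fz _ (by omega)]
      exact h1.cyc z hz1 hz2
  · rw [e1, e2]; intro z hz1 hzt hz hz'
    by_cases hbt : z = t + 1
    · rw [hbt, k1] at hz; omega
    · rw [fz z hbt] at hz; exact absurd hz (hnf z hz1 (by omega))
  · rw [e1, e2]; intro z hz1 hzt hz hz'
    by_cases hbt : z = t + 1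
    · rw [hbt, k2] at hz; omega
    · rw [gz z hbt] at hz; exact absurd hz (hng z hz1 (by omega))
  · rw [e1, e2]; unfold wd
    rw [Q_succ, if_neg (by rw [k1]; omega), List.append_nil]
    have : Q t (gL t (t + 1) p.1) = [] := by
      rw [List.eq_nil_iff_forall_not_mem]
      intro z hz
      rw [mem_Q] at hz
      rw [fz z (by omega)] at hz
      exact hnf z hz.1 hz.2.1 hz.2.2
    rw [this]; rfl
  · rw [e1]; exact k1
  · rw [e2]; exact k2

theorem F_inj (t) : Set.InjOn (phiF t) (XA t []) := by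
  intro p hp q hq hpq
  have i1 := hp.1
  have i2 := hq.1
  have e1 : gL t (t + 1) p.1 = gL t (t + 1) q.1 := congrArg Prod.fst hpq
  have e2 : gL t (t + 1) p.2 = gL t (t + 1) q.2 := congrArg Prod.snd hpq
  apply Prod.ext
  · funext z
    by_cases hz' : z = t + 1
    · subst hz'; rw [i1.ftop (Nat.lt_succ_self t), i2.ftop (Nat.lt_succ_self t)]
    · have := congrFun e1 z; simpa [gL, hz'] using this
  · funext z
    by_cases hz' : z = t + 1
    · subst hz'; rw [i1.gtop (Nat.lt_succ_self t), i2.gtop (Nat.lt_succ_self t)]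
    · have := congrFun e2 z; simpa [gL, hz'] using this

/-! ### Counting -/

theorem XA_zero : (fun _ => 0, fun _ => 0) ∈ XA 0 [] := by
  refine ⟨⟨?_, ?_, ?_, ?_, ?_, ?_, ?_⟩, ⟨?_, ?_⟩, ?_⟩
  · intro x hx; exact absurd rfl hx
  · intro x hx; exact absurd rfl hx
  · intro x y hx hy hxy
    have : y ≤ 0 := hy
    omega
  · intro x y hx hy hxy
    have : y ≤ 0 := hy
    omega
  · intro x y _ h1 h2; omega
  · intro x y _ h1 h2; omega
  · intro x hx; exact absurd rfl hx
  · intro x h1 h2; omega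
  · intro x h1 h2; omega
  · rfl

/-- table lookup -/
def look : List (List Bool × ℕ) → List Bool → ℕ
  | [], _ => 0
  | (v, c) :: r, w => if v = w then c else look r w

theorem look_map (ws : List (List Bool)) (G : List Bool → ℕ) (w : List Bool) :
    look (ws.map (fun w => (w, G w))) w ≤ G w := by
  induction ws with
  | nil => simp [look]
  | cons a l ih =>
    simp only [List.map_cons, look]
    split_ifs with h
    · rw [h]
    · exact ih

/-- part of the recursion coming from the last letter of the word -/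
def lastPart (tab : List (List Bool × ℕ)) (w : List Bool) : ℕ :=
  match w.reverse with
  | [] => 0
  | false :: r => look tab r.reverse
  | true :: r => look tab (false :: r.reverse)

def Fst (tab : List (List Bool × ℕ)) (w : List Bool) : ℕ :=
  lastPart tab w + look tab (true :: w) +
    (if w.all (fun b => !b) then look tab (true :: w) + look tab (false :: w) +
      (if w = [] then look tab [] else 0) else 0)

theorem encard_six {α : Type*} (S : Set α) (u v : α → ℕ) (T : ℕ) (c1 c2 c3 c4 c5 c6 : ℕ)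
    (h1 : (c1 : ℕ∞) ≤ {p ∈ S | u p = 0 ∧ v p = 0}.encard)
    (h2 : (c2 : ℕ∞) ≤ {p ∈ S | u p = 0 ∧ v p ≠ 0}.encard)
    (h3 : (c3 : ℕ∞) ≤ {p ∈ S | 0 < u p ∧ u p < v p}.encard)
    (h4 : (c4 : ℕ∞) ≤ {p ∈ S | 0 < v p ∧ v p < u p}.encard)
    (h5 : (c5 : ℕ∞) ≤ {p ∈ S | 0 < u p ∧ u p = v p ∧ u p < T}.encard)
    (h6 : (c6 : ℕ∞) ≤ {p ∈ S | 0 < u p ∧ u p = v p ∧ ¬ u p < T}.encard) :
    ((c1 + c2 + c3 + c4 + c5 + c6 : ℕ) : ℕ∞) ≤ S.encard := by
  push_cast
  calc (c1 : ℕ∞) + c2 + c3 + c4 + c5 + c6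
      ≤ {p ∈ S | u p = 0 ∧ v p = 0}.encard + {p ∈ S | u p = 0 ∧ v p ≠ 0}.encard
        + {p ∈ S | 0 < u p ∧ u p < v p}.encard + {p ∈ S | 0 < v p ∧ v p < u p}.encard
        + {p ∈ S | 0 < u p ∧ u p = v p ∧ u p < T}.encard
        + {p ∈ S | 0 < u p ∧ u p = v p ∧ ¬ u p < T}.encard := by gcongr
    _ = ({p ∈ S | u p = 0 ∧ v p = 0} ∪ {p ∈ S | u p = 0 ∧ v p ≠ 0}
        ∪ {p ∈ S | 0 < u p ∧ u p < v p} ∪ {p ∈ S | 0 < v p ∧ v p < u p}
        ∪ {p ∈ S | 0 < u p ∧ u p = v p ∧ u p < T}
        ∪ {p ∈ S | 0 < u p ∧ u p = v p ∧ ¬ u p < T}).encard := by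
          rw [Set.encard_union_eq, Set.encard_union_eq, Set.encard_union_eq, Set.encard_union_eq,
            Set.encard_union_eq]
          all_goals
            rw [Set.disjoint_left]
            intro p hp hp'
            simp only [Set.mem_union, Set.mem_ofPred_eq] at hp hp'
            omega
    _ ≤ S.encard := by
          apply Set.encard_le_encard
          intro p hp
          simp only [Set.mem_union, Set.mem_ofPred_eq] at hp
          rcases hp with ((((hp | hp) | hp) | hp) | hp) | hp <;> exact hp.1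

theorem step_bound (tab : List (List Bool × ℕ)) (t : ℕ)
    (ih : ∀ w, ((look tab w : ℕ) : ℕ∞) ≤ (XA t w).encard) (w : List Bool) :
    ((Fst tab w : ℕ) : ℕ∞) ≤ (XA (t + 1) w).encard := by
  have inj : ∀ (w' : List Bool) (φ : (ℕ → ℕ) × (ℕ → ℕ) → (ℕ → ℕ) × (ℕ → ℕ))
      (s : Set ((ℕ → ℕ) × (ℕ → ℕ))), (∀ p ∈ XA t w', φ p ∈ s) → Set.InjOn φ (XA t w') →
      ((look tab w' : ℕ) : ℕ∞) ≤ s.encard := by
    intro w' φ s hm hi
    exact (ih w').trans (Set.encard_le_encard_of_injOn hm hi)
  -- the six parts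
  have h3 : ((look tab (true :: w) : ℕ) : ℕ∞) ≤
      {p ∈ XA (t + 1) w | 0 < p.1 (t + 1) ∧ p.1 (t + 1) < p.2 (t + 1)}.encard :=
    inj (true :: w) (phiD t) _ (fun p hp => DA_mem hp) (DA_inj t w)
  obtain ⟨c1, c2, hc12, h1, h2⟩ : ∃ c1 c2 : ℕ, lastPart tab w = c1 + c2 ∧
      ((c1 : ℕ∞) ≤ {p ∈ XA (t + 1) w | p.1 (t + 1) = 0 ∧ p.2 (t + 1) = 0}.encard) ∧
      ((c2 : ℕ∞) ≤ {p ∈ XA (t + 1) w | p.1 (t + 1) = 0 ∧ p.2 (t + 1) ≠ 0}.encard) := by
    rcases hr : w.reverse with _ | ⟨b, r⟩
    · exact ⟨0, 0, by simp [lastPart, hr], by simp, by simp⟩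
    · have hw : w = r.reverse ++ [b] := by
        rw [← List.reverse_reverse w, hr]; simp
      cases b with
      | false =>
        refine ⟨look tab r.reverse, 0, by simp [lastPart, hr], ?_, by simp⟩
        rw [hw]
        exact inj r.reverse id _ (fun p hp => U_mem hp) Function.injective_id.injOn
      | true =>
        refine ⟨0, look tab (false :: r.reverse), by simp [lastPart, hr], by simp, ?_⟩
        rw [hw]
        exact inj (false :: r.reverse) (phiL t) _ (fun p hp => L_mem hp) (L_inj t _)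
  by_cases hall : w.all (fun b => !b) = true
  · have hw : ∀ b ∈ w, b = false := by
      intro b hb
      have := List.all_eq_true.1 hall b hb
      simpa using this
    have h4 : ((look tab (true :: w) : ℕ) : ℕ∞) ≤
        {p ∈ XA (t + 1) w | 0 < p.2 (t + 1) ∧ p.2 (t + 1) < p.1 (t + 1)}.encard := by
      refine inj (true :: w) (fun p => (phiD t p).swap) _ (fun p hp => ?_) ?_
      · have := DA_mem hp
        exact ⟨swap_mem this.1 hw, this.2.1, this.2.2⟩
      · intro p hp q hq hpq
        exact DA_inj t w hp hq (Prod.swap_injective hpq)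
    have h5 : ((look tab (false :: w) : ℕ) : ℕ∞) ≤
        {p ∈ XA (t + 1) w | 0 < p.1 (t + 1) ∧ p.1 (t + 1) = p.2 (t + 1) ∧
          p.1 (t + 1) < t + 1}.encard := by
      refine inj (false :: w) (phiD t) _ (fun p hp => ?_) (DF_inj t w)
      exact DF_mem hp hw
    obtain ⟨c6, hc6, h6⟩ : ∃ c6 : ℕ, c6 = (if w = [] then look tab [] else 0) ∧
        ((c6 : ℕ∞) ≤ {p ∈ XA (t + 1) w | 0 < p.1 (t + 1) ∧ p.1 (t + 1) = p.2 (t + 1) ∧
          ¬ p.1 (t + 1) < t + 1}.encard) := by
      by_cases hwn : w = []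
      · refine ⟨look tab [], by simp [hwn], ?_⟩
        subst hwn
        refine inj [] (phiF t) _ (fun p hp => ?_) (F_inj t)
        have := F_mem hp
        refine ⟨this.1, ?_, ?_, ?_⟩ <;> simp only [this.2.1, this.2.2] <;> omega
      · exact ⟨0, by simp [hwn], by simp⟩
    have := encard_six (XA (t + 1) w) (fun p => p.1 (t + 1)) (fun p => p.2 (t + 1)) (t + 1)
      c1 c2 _ _ _ c6 h1 h2 h3 h4 h5 h6
    refine le_trans ?_ this
    unfold Fst
    rw [if_pos hall, hc12, ← hc6]
    norm_cast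
    omega
  · have h4 : ((0 : ℕ) : ℕ∞) ≤
        {p ∈ XA (t + 1) w | 0 < p.2 (t + 1) ∧ p.2 (t + 1) < p.1 (t + 1)}.encard := by simp
    have h5 : ((0 : ℕ) : ℕ∞) ≤
        {p ∈ XA (t + 1) w | 0 < p.1 (t + 1) ∧ p.1 (t + 1) = p.2 (t + 1) ∧
          p.1 (t + 1) < t + 1}.encard := by simp
    have h6 : ((0 : ℕ) : ℕ∞) ≤
        {p ∈ XA (t + 1) w | 0 < p.1 (t + 1) ∧ p.1 (t + 1) = p.2 (t + 1) ∧
          ¬ p.1 (t + 1) < t + 1}.encard := by simp
    have := encard_six (XA (t + 1) w) (fun p => p.1 (t + 1)) (fun p => p.2 (t + 1)) (t + 1)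
      c1 c2 _ _ _ _ h1 h2 h3 h4 h5 h6
    refine le_trans ?_ this
    unfold Fst
    rw [if_neg hall, hc12]

/-- all words of length at most 4 -/
def ws4 : List (List Bool) :=
  [[], [false], [true], [false, false], [true, false], [false, true], [true, true], [false, false, false], [true, false, false], [false, true, false], [true, true, false], [false, false, true], [true, false, true], [false, true, true], [true, true, true], [false, false, false, false], [true, false, false, false], [false, true, false, false], [true, true, false, false], [false, false, true, false], [true, false, true, false], [false, true, true, false], [true, true, true, false], [false, false, false, true], [true, false, false, true], [false, true, false, true], [true, true, false, true], [false, false, true, true], [true, false, true, true], [false, true, true, true], [true, true, true, true]]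

def tb (L : List ℕ) : List (List Bool × ℕ) := ws4.zip L

theorem map_pair (ws : List (List Bool)) (G : List Bool → ℕ) :
    ws.map (fun w => (w, G w)) = ws.zip (ws.map G) := by
  induction ws with
  | nil => rfl
  | cons a l ih => simp only [List.map_cons, List.zip_cons_cons, ih]

theorem chain {L L' : List ℕ} {t : ℕ}
    (h : ∀ w, ((look (tb L) w : ℕ) : ℕ∞) ≤ (XA t w).encard)
    (he : ws4.map (Fst (tb L)) = L') :
    ∀ w, ((look (tb L') w : ℕ) : ℕ∞) ≤ (XA (t + 1) w).encard := by
  intro w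
  have h1 := look_map ws4 (Fst (tb L)) w
  have h2 := step_bound (tb L) t h w
  have h3 : tb L' = ws4.map (fun w => (w, Fst (tb L) w)) := by
    rw [map_pair, he]; rfl
  rw [h3]
  exact le_trans (by exact_mod_cast h1) h2

theorem base : ∀ w, ((look (tb [1]) w : ℕ) : ℕ∞) ≤ (XA 0 w).encard := by
  intro w
  by_cases hw : ([] : List Bool) = w
  · subst hw
    have : look (tb [1]) [] = 1 := by decide
    rw [this]
    have h : (XA 0 []).Nonempty := ⟨_, XA_zero⟩
    simpa using Set.one_le_encard_iff_nonempty.2 h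
  · have : look (tb [1]) w = 0 := by
      simp [tb, ws4, look, hw]
    rw [this]; simp

def L1 : List ℕ := [1, 1, 0, 0, 0, 0, 0, 0, 0, 0, 0, 0, 0, 0, 0, 0, 0, 0, 0, 0, 0, 0, 0, 0, 0, 0, 0, 0, 0, 0, 0]
def L2 : List ℕ := [2, 1, 1, 1, 0, 0, 0, 0, 0, 0, 0, 0, 0, 0, 0, 0, 0, 0, 0, 0, 0, 0, 0, 0, 0, 0, 0, 0, 0, 0, 0]
def L3 : List ℕ := [5, 3, 1, 1, 1, 1, 0, 1, 0, 0, 0, 0, 0, 0, 0, 0, 0, 0, 0, 0, 0, 0, 0, 0, 0, 0, 0, 0, 0, 0, 0]
def L4 : List ℕ := [10, 8, 3, 4, 1, 1, 1, 1, 1, 1, 0, 1, 0, 0, 0, 1, 0, 0, 0, 0, 0, 0, 0, 0, 0, 0, 0, 0, 0, 0, 0]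
def L5 : List ℕ := [24, 16, 9, 11, 3, 4, 1, 5, 1, 1, 1, 1, 1, 1, 0, 1, 1, 1, 0, 1, 0, 0, 0, 1, 0, 0, 0, 0, 0, 0, 0]
def L6 : List ℕ := [58, 41, 17, 23, 10, 12, 4, 14, 3, 4, 1, 5, 1, 1, 1, 5, 1, 1, 1, 1, 1, 1, 0, 1, 1, 1, 0, 1, 0, 0, 0]
def L7 : List ℕ := [133, 101, 45, 61, 18, 24, 13, 30, 11, 13, 4, 15, 4, 5, 1, 14, 3, 4, 1, 5, 1, 1, 1, 5, 1, 1, 1, 1, 1, 1, 0]
def L8 : List ℕ := [324, 230, 114, 153, 49, 65, 25, 81, 19, 25, 14, 31, 14, 16, 5, 30, 11, 13, 4, 15, 4, 5, 1, 14, 4, 5, 1, 5, 1, 1, 1]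
def L9 : List ℕ := [782, 575, 255, 349, 128, 167, 70, 205, 53, 69, 26, 85, 26, 32, 17, 81, 19, 25, 14, 31, 14, 16, 5, 30, 13, 15, 5, 14, 5, 5, 1]
def L10 : List ℕ := [1867, 1387, 645, 886, 281, 375, 184, 468, 142, 181, 75, 218, 74, 90, 33, 205, 53, 69, 26, 85, 26, 32, 17, 81, 25, 31, 16, 30, 15, 14, 5]
def L11 : List ℕ := [4544, 3315, 1571, 2139, 720, 960, 408, 1197, 307, 401, 201, 493, 197, 233, 95, 468, 142, 181, 75, 218, 74, 90, 33, 205, 69, 85, 32, 81, 31, 30, 14]
def L12 : List ℕ := [11001, 8123, 3723, 5126, 1772, 2336, 1055, 2891, 795, 1034, 441, 1266, 433, 524, 247, 1197, 307, 401, 201, 493, 197, 233, 95, 468, 181, 218, 90, 205, 85, 81, 30]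
def L13 : List ℕ := [26570, 19671, 9178, 12604, 4164, 5559, 2583, 6937, 1973, 2533, 1150, 3072, 1124, 1351, 554, 2891, 795, 1034, 441, 1266, 433, 524, 247, 1197, 401, 493, 233, 468, 218, 205, 81]
def L14 : List ℕ := [64597, 47502, 22254, 30554, 10328, 13728, 6113, 17085, 4605, 5992, 2830, 7338, 2766, 3290, 1432, 6937, 1973, 2533, 1150, 3072, 1124, 1351, 554, 2891, 1034, 1266, 524, 1197, 493, 468, 205]
def L15 : List ℕ := [156607, 115807, 53615, 73797, 25084, 33320, 15160, 41437, 11478, 14852, 6667, 18119, 6516, 7831, 3495, 17085, 4605, 5992, 2830, 7338, 2766, 3290, 1432, 6937, 2533, 3072, 1351, 2891, 1266, 1197, 468]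
def L16 : List ℕ := [379644, 280572, 130967, 180200, 60282, 80313, 36815, 100092, 27914, 36086, 16592, 43970, 16203, 19385, 8299, 41437, 11478, 14852, 6667, 18119, 6516, 7831, 3495, 17085, 5992, 7338, 3290, 6937, 3072, 2891, 1197]
def L17 : List ℕ := [922150, 680408, 317387, 436492, 147559, 196403, 88612, 244593, 66949, 86829, 40310, 106084, 39376, 47042, 20582, 100092, 27914, 36086, 16592, 43970, 16203, 19385, 8299, 41437, 14852, 18119, 7831, 17085, 7338, 6937, 2891]
def L18 : List ℕ := [2237332, 1653760, 769020, 1058899, 357697, 475868, 216985, 592412, 164151, 212606, 96911, 259445, 94660, 113422, 49933, 244593, 66949, 86829, 40310, 106084, 39376, 47042, 20582, 100092, 36086, 43970, 19385, 41437, 18119, 17085, 6937]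
def L19 : List ℕ := [5429132, 4011625, 1870745, 2574474, 865931, 1153559, 525801, 1437390, 398007, 515244, 237567, 628498, 231991, 277564, 120359, 592412, 164151, 212606, 96911, 259445, 94660, 113422, 49933, 244593, 86829, 106084, 47042, 100092, 43970, 41437, 17085]
def L20 : List ℕ := [13182247, 9735468, 4537426, 6245029, 2108312, 2806465, 1273918, 3495188, 962842, 1248219, 575734, 1524219, 562286, 672468, 294649, 1437390, 398007, 515244, 237567, 628498, 231991, 277564, 120359, 592412, 212606, 259445, 113422, 244593, 106084, 100092, 41437]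
def L21 : List ℕ := [31992567, 23643900, 11009386, 15156340, 5113160, 6807315, 3101114, 8478433, 2345879, 3038456, 1394277, 3707794, 1361641, 1630303, 713905, 3495188, 962842, 1248219, 575734, 1524219, 562286, 672468, 294649, 1437390, 515244, 628498, 277564, 592412, 259445, 244593, 100092]
def L22 : List ℕ := [77655239, 57375227, 26745014, 36814091, 12403663, 16517981, 7521220, 20577212, 5688894, 7369601, 3395763, 8993677, 3316020, 3967239, 1730395, 8478433, 2345879, 3038456, 1394277, 3707794, 1361641, 1630303, 713905, 3495188, 1248219, 1524219, 672468, 1437390, 628498, 592412, 244593]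
def L23 : List ℕ := [188520494, 139276656, 64896447, 89330227, 30140777, 40130111, 18248376, 49984282, 13797940, 17879622, 8235125, 21825431, 8042069, 9622175, 4211832, 20577212, 5688894, 7369601, 3395763, 8993677, 3316020, 3967239, 1730395, 8478433, 3038456, 3707794, 1630303, 3495188, 1524219, 1437390, 592412]
def L24 : List ℕ := [457590044, 338132275, 157525032, 216856818, 73131572, 97372296, 44341943, 121285227, 33536540, 43446131, 19978771, 53022738, 19509925, 23349650, 10214587, 49984282, 13797940, 17879622, 8235125, 21825431, 8042069, 9622175, 4211832, 20577212, 7369601, 8993677, 3967239, 8478433, 3707794, 3495188, 1437390]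
def L25 : List ℕ := [1110772383, 820710006, 382474218, 526490582, 177503803, 236366743, 107586883, 294436980, 81366697, 105414365, 48553775, 128654828, 47413370, 56730532, 24787040, 121285227, 33536540, 43446131, 19978771, 53022738, 19509925, 23349650, 10214587, 49984282, 17879622, 21825431, 9622175, 20577212, 8993677, 8478433, 3495188]
def L26 : List ℕ := [2696430825, 1992270571, 928296889, 1277880380, 431027993, 573903952, 261153783, 714848889, 197482574, 255876668, 117801470, 312316602, 115036540, 137648505, 60225720, 294436980, 81366697, 105414365, 48553775, 128654828, 47413370, 56730532, 24787040, 121285227, 43446131, 53022738, 23349650, 49984282, 21825431, 20577212, 8478433]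
def L27 : List ℕ := [6545295174, 4836367191, 2253424354, 3102084608, 1046098359, 1392916920, 634129672, 1735050754, 479581768, 621317322, 285940823, 758295020, 279226318, 334142033, 146126938, 714848889, 197482574, 255876668, 117801470, 312316602, 115036540, 137648505, 60225720, 294436980, 105414365, 128654828, 56730532, 121285227, 53022738, 49984282, 20577212]
def L28 : List ℕ := [15888511073, 11739576500, 5470496863, 7530581481, 2539365177, 3381310926, 1539043858, 4211898645, 1163899829, 1507953460, 694355392, 1840465119, 678047854, 811317758, 354719245, 1735050754, 479581768, 621317322, 285940823, 758295020, 279226318, 334142033, 146126938, 714848889, 255876668, 312316602, 137648505, 294436980, 128654828, 121285227, 49984282]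
def L29 : List ℕ := [38569081299, 28497822908, 13278620358, 18279274803, 6164852255, 8208629335, 3736030171, 10224795771, 2825306000, 3660537244, 1685170796, 4467775313, 1645601965, 1969119947, 861302040, 4211898645, 1163899829, 1507953460, 694355392, 1840465119, 678047854, 811317758, 354719245, 1735050754, 621317322, 758295020, 334142033, 714848889, 312316602, 294436980, 121285227]
def L30 : List ℕ := [93624144923, 69178060612, 32233853079, 44373230679, 14963791154, 19924876768, 9069931375, 24818973106, 6859207647, 8886677189, 4090749416, 10846113093, 3994679277, 4780091915, 2090405174, 10224795771, 2825306000, 3660537244, 1685170796, 4467775313, 1645601965, 1969119947, 861302040, 4211898645, 1507953460, 1840465119, 811317758, 1735050754, 758295020, 714848889, 294436980]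
def L31 : List ℕ := [227269911693, 167924957910, 78247991987, 107715449012, 36324602495, 48367909956, 22015281942, 60248638450, 16648961950, 21570478733, 9931233415, 26326926566, 9697994947, 11604408113, 5074528895, 24818973106, 6859207647, 8886677189, 4090749416, 10846113093, 3994679277, 4780091915, 2090405174, 10224795771, 3660537244, 4467775313, 1969119947, 4211898645, 1840465119, 1735050754, 714848889]
def L32 : List ℕ := [551690853577, 407634565695, 189940239852, 261471520260, 88179225402, 117413443959, 53442438851, 146252837412, 40415351911, 52362589233, 24105687116, 63909175694, 23539598680, 28167391685, 12319257002, 60248638450, 16648961950, 21570478733, 9931233415, 26326926566, 9697994947, 11604408113, 5074528895, 24818973106, 8886677189, 10846113093, 4780091915, 10224795771, 4467775313, 4211898645, 1735050754]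
def L33 : List ℕ := [1339205898976, 989520824641, 461077004546, 634718106929, 214045926968, 285011118940, 129732700961, 355018082610, 98110458817, 127111438906, 58516967746, 155139514601, 57142681148, 68376951007, 29902442439, 146252837412, 40415351911, 52362589233, 24105687116, 63909175694, 23539598680, 28167391685, 12319257002, 60248638450, 21570478733, 26326926566, 11604408113, 24818973106, 10846113093, 10224795771, 4211898645]
def L34 : List ℕ := [3250880732709, 2402015859841, 1119253525602, 1540759824885, 519593972292, 691860788077, 314913561379, 861801648163, 238151614084, 308550717620, 142051957963, 376588561343, 138715847019, 165985627694, 72588849652, 355018082610, 98110458817, 127111438906, 58516967746, 155139514601, 57142681148, 68376951007, 29902442439, 146252837412, 52362589233, 63909175694, 28167391685, 60248638450, 26326926566, 24818973106, 10224795771]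
def L35 : List ℕ := [7891403643754, 5830828502178, 2716929421220, 3740120736172, 1261305483565, 1679475671904, 764449637729, 2091998825129, 578110940038, 749003469225, 344816003818, 914164237396, 336718109305, 402915487909, 176210423465, 861801648163, 238151614084, 308550717620, 142051957963, 376588561343, 138715847019, 165985627694, 72588849652, 355018082610, 127111438906, 155139514601, 68376951007, 146252837412, 63909175694, 60248638450, 24818973106]
def L36 : List ℕ := [19156090988372, 14154135347056, 6595278139907, 9079049207383, 3061745425038, 4076838845477, 1855686095369, 5078225612503, 1403357441528, 1818191518923, 837038487381, 2219110264035, 817380420232, 978073413090, 427734461015, 2091998825129, 578110940038, 749003469225, 344816003818, 914164237396, 336718109305, 402915487909, 176210423465, 861801648163, 308550717620, 376588561343, 165985627694, 355018082610, 155139514601, 146252837412, 60248638450]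
def L37 : List ℕ := [46500782615242, 34358631045831, 16009821442425, 22039075842615, 7432316627288, 9896429627615, 4504573306492, 12327269912588, 3406561428856, 4413556954782, 2031896518834, 5386776330123, 1984177146617, 2374249778636, 1038322051540, 5078225612503, 1403357441528, 1818191518923, 837038487381, 2219110264035, 817380420232, 978073413090, 427734461015, 2091998825129, 749003469225, 914164237396, 402915487909, 861801648163, 376588561343, 355018082610, 146252837412]
def L38 : List ℕ := [112879056545923, 83404491712433, 38863204352323, 53499023816131, 18041717961259, 24023252989232, 10934751679155, 29924016338174, 8269355114669, 10713810047847, 4932307767507, 13076273381813, 4816472442691, 5763364891466, 2520502616048, 12327269912588, 3406561428856, 4413556954782, 2031896518834, 5386776330123, 1984177146617, 2374249778636, 1038322051540, 5078225612503, 1818191518923, 2219110264035, 978073413090, 2091998825129, 914164237396, 861801648163, 355018082610]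

theorem bd1 : ∀ w, ((look (tb L1) w : ℕ) : ℕ∞) ≤ (XA 1 w).encard :=
  chain base (by decide +kernel)
theorem bd2 : ∀ w, ((look (tb L2) w : ℕ) : ℕ∞) ≤ (XA 2 w).encard :=
  chain bd1 (by decide +kernel)
theorem bd3 : ∀ w, ((look (tb L3) w : ℕ) : ℕ∞) ≤ (XA 3 w).encard :=
  chain bd2 (by decide +kernel)
theorem bd4 : ∀ w, ((look (tb L4) w : ℕ) : ℕ∞) ≤ (XA 4 w).encard :=
  chain bd3 (by decide +kernel)
theorem bd5 : ∀ w, ((look (tb L5) w : ℕ) : ℕ∞) ≤ (XA 5 w).encard :=
  chain bd4 (by decide +kernel)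
theorem bd6 : ∀ w, ((look (tb L6) w : ℕ) : ℕ∞) ≤ (XA 6 w).encard :=
  chain bd5 (by decide +kernel)
theorem bd7 : ∀ w, ((look (tb L7) w : ℕ) : ℕ∞) ≤ (XA 7 w).encard :=
  chain bd6 (by decide +kernel)
theorem bd8 : ∀ w, ((look (tb L8) w : ℕ) : ℕ∞) ≤ (XA 8 w).encard :=
  chain bd7 (by decide +kernel)
theorem bd9 : ∀ w, ((look (tb L9) w : ℕ) : ℕ∞) ≤ (XA 9 w).encard :=
  chain bd8 (by decide +kernel)
theorem bd10 : ∀ w, ((look (tb L10) w : ℕ) : ℕ∞) ≤ (XA 10 w).encard :=
  chain bd9 (by decide +kernel)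
theorem bd11 : ∀ w, ((look (tb L11) w : ℕ) : ℕ∞) ≤ (XA 11 w).encard :=
  chain bd10 (by decide +kernel)
theorem bd12 : ∀ w, ((look (tb L12) w : ℕ) : ℕ∞) ≤ (XA 12 w).encard :=
  chain bd11 (by decide +kernel)
theorem bd13 : ∀ w, ((look (tb L13) w : ℕ) : ℕ∞) ≤ (XA 13 w).encard :=
  chain bd12 (by decide +kernel)
theorem bd14 : ∀ w, ((look (tb L14) w : ℕ) : ℕ∞) ≤ (XA 14 w).encard :=
  chain bd13 (by decide +kernel)
theorem bd15 : ∀ w, ((look (tb L15) w : ℕ) : ℕ∞) ≤ (XA 15 w).encard :=
  chain bd14 (by decide +kernel)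
theorem bd16 : ∀ w, ((look (tb L16) w : ℕ) : ℕ∞) ≤ (XA 16 w).encard :=
  chain bd15 (by decide +kernel)
theorem bd17 : ∀ w, ((look (tb L17) w : ℕ) : ℕ∞) ≤ (XA 17 w).encard :=
  chain bd16 (by decide +kernel)
theorem bd18 : ∀ w, ((look (tb L18) w : ℕ) : ℕ∞) ≤ (XA 18 w).encard :=
  chain bd17 (by decide +kernel)
theorem bd19 : ∀ w, ((look (tb L19) w : ℕ) : ℕ∞) ≤ (XA 19 w).encard :=
  chain bd18 (by decide +kernel)
theorem bd20 : ∀ w, ((look (tb L20) w : ℕ) : ℕ∞) ≤ (XA 20 w).encard :=
  chain bd19 (by decide +kernel)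
theorem bd21 : ∀ w, ((look (tb L21) w : ℕ) : ℕ∞) ≤ (XA 21 w).encard :=
  chain bd20 (by decide +kernel)
theorem bd22 : ∀ w, ((look (tb L22) w : ℕ) : ℕ∞) ≤ (XA 22 w).encard :=
  chain bd21 (by decide +kernel)
theorem bd23 : ∀ w, ((look (tb L23) w : ℕ) : ℕ∞) ≤ (XA 23 w).encard :=
  chain bd22 (by decide +kernel)
theorem bd24 : ∀ w, ((look (tb L24) w : ℕ) : ℕ∞) ≤ (XA 24 w).encard :=
  chain bd23 (by decide +kernel)
theorem bd25 : ∀ w, ((look (tb L25) w : ℕ) : ℕ∞) ≤ (XA 25 w).encard :=
  chain bd24 (by decide +kernel)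
theorem bd26 : ∀ w, ((look (tb L26) w : ℕ) : ℕ∞) ≤ (XA 26 w).encard :=
  chain bd25 (by decide +kernel)
theorem bd27 : ∀ w, ((look (tb L27) w : ℕ) : ℕ∞) ≤ (XA 27 w).encard :=
  chain bd26 (by decide +kernel)
theorem bd28 : ∀ w, ((look (tb L28) w : ℕ) : ℕ∞) ≤ (XA 28 w).encard :=
  chain bd27 (by decide +kernel)
theorem bd29 : ∀ w, ((look (tb L29) w : ℕ) : ℕ∞) ≤ (XA 29 w).encard :=
  chain bd28 (by decide +kernel)
theorem bd30 : ∀ w, ((look (tb L30) w : ℕ) : ℕ∞) ≤ (XA 30 w).encard :=
  chain bd29 (by decide +kernel)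
theorem bd31 : ∀ w, ((look (tb L31) w : ℕ) : ℕ∞) ≤ (XA 31 w).encard :=
  chain bd30 (by decide +kernel)
theorem bd32 : ∀ w, ((look (tb L32) w : ℕ) : ℕ∞) ≤ (XA 32 w).encard :=
  chain bd31 (by decide +kernel)
theorem bd33 : ∀ w, ((look (tb L33) w : ℕ) : ℕ∞) ≤ (XA 33 w).encard :=
  chain bd32 (by decide +kernel)
theorem bd34 : ∀ w, ((look (tb L34) w : ℕ) : ℕ∞) ≤ (XA 34 w).encard :=
  chain bd33 (by decide +kernel)
theorem bd35 : ∀ w, ((look (tb L35) w : ℕ) : ℕ∞) ≤ (XA 35 w).encard :=
  chain bd34 (by decide +kernel)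
theorem bd36 : ∀ w, ((look (tb L36) w : ℕ) : ℕ∞) ≤ (XA 36 w).encard :=
  chain bd35 (by decide +kernel)
theorem bd37 : ∀ w, ((look (tb L37) w : ℕ) : ℕ∞) ≤ (XA 37 w).encard :=
  chain bd36 (by decide +kernel)
theorem bd38 : ∀ w, ((look (tb L38) w : ℕ) : ℕ∞) ≤ (XA 38 w).encard :=
  chain bd37 (by decide +kernel)

theorem lower38 : ((112879056545923 : ℕ) : ℕ∞) ≤ (XA 38 []).encard := by
  have h := bd38 []
  have : look (tb L38) [] = 112879056545923 := by decide +kernel
  rwa [this] at h

end Pool.Agent.X36.Fa04
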