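import Mathlib

/-!
Upper bound for the number of 231-avoiding permutations whose cycles have length at most 3.
-/

namespace Pool.Agent.X36.Fa04

structure Val (D : Finset ℕ) (f : ℕ → ℕ) : Prop where
  out : ∀ x, x ∉ D → f x = 0
  maps : ∀ x ∈ D, f x ∈ D
  inj : ∀ x ∈ D, ∀ y ∈ D, f x = f y → x = y
  av : ∀ x ∈ D, ∀ y ∈ D, ∀ z ∈ D, x < y → y < z → ¬ (f z < f x ∧ f x < f y)
  cyc : ∀ x ∈ D, f (f x) = x ∨ f (f (f x)) = x

set_option linter.unusedVariables false

theorem surj_of {D : Finset ℕ} {f : ℕ → ℕ} (hm : ∀ x ∈ D, f x ∈ D)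
    (hi : ∀ x ∈ D, ∀ y ∈ D, f x = f y → x = y) : ∀ v ∈ D, ∃ x ∈ D, f x = v := by
  have hinj : Set.InjOn f (D : Set ℕ) := fun x hx y hy h => hi x hx y hy h
  have h1 : D.image f = D := by
    apply Finset.eq_of_subset_of_card_le
    · intro v hv; obtain ⟨x, hx, rfl⟩ := Finset.mem_image.1 hv; exact hm x hx
    · rw [Finset.card_image_of_injOn hinj]
  intro v hv
  rw [← h1] at hv
  exact Finset.mem_image.1 hv

theorem rank_eq {D : Finset ℕ} {f : ℕ → ℕ} (hm : ∀ x ∈ D, f x ∈ D)
    (hd : ∀ x ∈ D, ∀ y ∈ D, x < y → f y < f x) (x : ℕ) (hx : x ∈ D) :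
    (D.filter (· < f x)).card = (D.filter (x < ·)).card := by
  have hi : ∀ x ∈ D, ∀ y ∈ D, f x = f y → x = y := by
    intro a ha b hb hab
    rcases lt_trichotomy a b with h | h | h
    · have := hd a ha b hb h; omega
    · exact h
    · have := hd b hb a ha h; omega
  have hs := surj_of hm hi
  have h1 : D.filter (· < f x) = (D.filter (x < ·)).image f := by
    ext v
    simp only [Finset.mem_filter, Finset.mem_image]
    constructor
    · rintro ⟨hv, hlt⟩
      obtain ⟨y, hy, rfl⟩ := hs v hv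
      refine ⟨y, ⟨hy, ?_⟩, rfl⟩
      rcases lt_trichotomy x y with h | h | h
      · exact h
      · subst h; omega
      · have := hd y hy x hx h; omega
    · rintro ⟨y, ⟨hy, hxy⟩, rfl⟩
      exact ⟨hm y hy, hd x hx y hy hxy⟩
  rw [h1, Finset.card_image_of_injOn]
  intro a ha b hb hab
  simp only [Finset.coe_filter, Set.mem_ofPred_eq] at ha hb
  exact hi a ha.1 b hb.1 hab

theorem anti_unique {D : Finset ℕ} {f g : ℕ → ℕ} (hm : ∀ x ∈ D, f x ∈ D)
    (hd : ∀ x ∈ D, ∀ y ∈ D, x < y → f y < f x) (hm' : ∀ x ∈ D, g x ∈ D)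
    (hd' : ∀ x ∈ D, ∀ y ∈ D, x < y → g y < g x) : ∀ x ∈ D, f x = g x := by
  intro x hx
  have h1 := rank_eq hm hd x hx
  have h2 := rank_eq hm' hd' x hx
  by_contra hne
  rcases Nat.lt_or_gt_of_ne hne with h | h
  · have : (D.filter (· < f x)).card < (D.filter (· < g x)).card := by
      apply Finset.card_lt_card
      rw [Finset.ssubset_iff_of_subset]
      · exact ⟨f x, by simp [hm x hx, h], by simp⟩
      · intro v hv; simp only [Finset.mem_filter] at hv ⊢; exact ⟨hv.1, by omega⟩
    omega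
  · have : (D.filter (· < g x)).card < (D.filter (· < f x)).card := by
      apply Finset.card_lt_card
      rw [Finset.ssubset_iff_of_subset]
      · exact ⟨g x, by simp [hm' x hx, h], by simp⟩
      · intro v hv; simp only [Finset.mem_filter] at hv ⊢; exact ⟨hv.1, by omega⟩
    omega

/-- valid maps that are decreasing on `D`: at most one. -/
theorem dec_le_one (D : Finset ℕ) :
    {f : ℕ → ℕ | Val D f ∧ ∀ x ∈ D, ∀ y ∈ D, x < y → f y < f x}.encard ≤ 1 := by
  rw [Set.encard_le_one_iff]
  rintro f g ⟨hf, hfd⟩ ⟨hg, hgd⟩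
  funext x
  by_cases hx : x ∈ D
  · exact anti_unique hf.maps hfd hg.maps hgd x hx
  · rw [hf.out x hx, hg.out x hx]

def D2 (a b c d : ℕ) : Finset ℕ := Finset.Ico a b ∪ Finset.Ico c d

theorem mem_D2 {a b c d x : ℕ} : x ∈ D2 a b c d ↔ (a ≤ x ∧ x < b) ∨ (c ≤ x ∧ x < d) := by
  simp [D2]

def V (a b c d : ℕ) : Set (ℕ → ℕ) :=
  {f | Val (D2 a b c d) f ∧ (∀ x y, a ≤ x → x < y → y < b → f y < f x) ∧
    (∀ x ∈ D2 a b c d, ∀ y ∈ D2 a b c d, x < y → c ≤ f x → c ≤ f y → f y < f x)}

/-- put back a 3-cycle -/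
def rest (a p e : ℕ) (f : ℕ → ℕ) : ℕ → ℕ :=
  fun z => if z = a then p else if z = p then e else if z = e then a else f z

def rem (a p e : ℕ) (f : ℕ → ℕ) : ℕ → ℕ :=
  fun z => if z = a ∨ z = p ∨ z = e then 0 else f z

theorem rest_rem {a p e : ℕ} {f : ℕ → ℕ} (h1 : f a = p) (h2 : f p = e) (h3 : f e = a) :
    rest a p e (rem a p e f) = f := by
  funext z
  unfold rest rem
  by_cases ha : z = a
  · subst ha; simp [h1]
  by_cases hp : z = p
  · subst hp; simp [ha, h2]
  by_cases he : z = e
  · subst he; simp [ha, hp, h3]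
  · simp [ha, hp, he]

theorem Val.rem {D D' : Finset ℕ} {f : ℕ → ℕ} (h : Val D f) {a p e : ℕ} (ha : a ∈ D)
    (hp : p ∈ D) (he : e ∈ D) (h1 : f a = p) (h2 : f p = e) (h3 : f e = a)
    (hD : ∀ z, z ∈ D' ↔ z ∈ D ∧ z ≠ a ∧ z ≠ p ∧ z ≠ e) : Val D' (rem a p e f) := by
  have hz : ∀ z ∈ D', Fa04.rem a p e f z = f z := by
    intro z hz
    rw [hD] at hz
    unfold Fa04.rem
    rw [if_neg]
    tauto
  have hm : ∀ z ∈ D', f z ∈ D' := by
    intro z hz
    rw [hD] at hz ⊢
    refine ⟨h.maps z hz.1, ?_, ?_, ?_⟩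
    · intro hh; exact hz.2.2.2 (h.inj z hz.1 e he (by rw [hh, h3]))
    · intro hh; exact hz.2.1 (h.inj z hz.1 a ha (by rw [hh, h1]))
    · intro hh; exact hz.2.2.1 (h.inj z hz.1 p hp (by rw [hh, h2]))
  have hs : ∀ z ∈ D', z ∈ D := fun z hz => ((hD z).1 hz).1
  refine ⟨?_, ?_, ?_, ?_, ?_⟩
  · intro z hz
    unfold Fa04.rem
    by_cases hc : z = a ∨ z = p ∨ z = e
    · rw [if_pos hc]
    · rw [if_neg hc]
      apply h.out
      intro hzD
      apply hz
      rw [hD]
      tauto
  · intro z hzD; rw [hz z hzD]; exact hm z hzD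
  · intro x hx y hy hxy
    rw [hz x hx, hz y hy] at hxy
    exact h.inj x (hs x hx) y (hs y hy) hxy
  · intro x hx y hy z hz' hxy hyz
    rw [hz x hx, hz y hy, hz z hz']
    exact h.av x (hs x hx) y (hs y hy) z (hs z hz') hxy hyz
  · intro x hx
    rw [hz x hx, hz (f x) (hm x hx), hz (f (f x)) (hm _ (hm x hx))]
    exact h.cyc x (hs x hx)

/-- if the minimum of `D` has its preimage at the maximum of `D`, everything is decreasing. -/
theorem dec_of_last {D : Finset ℕ} {f : ℕ → ℕ} (h : Val D f) {a m : ℕ} (ha : a ∈ D) (hm : m ∈ D)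
    (hmin : ∀ x ∈ D, a ≤ x) (hmax : ∀ x ∈ D, x ≤ m) (hfm : f m = a) :
    ∀ x ∈ D, ∀ y ∈ D, x < y → f y < f x := by
  intro x hx y hy hxy
  have hxm : x ≠ m := by
    intro hh; have := hmax y hy; omega
  have hax : a < f x := by
    have h1 := hmin _ (h.maps x hx)
    rcases Nat.lt_or_ge a (f x) with h2 | h2
    · exact h2
    · exact absurd (h.inj x hx m hm (by rw [hfm]; omega)) hxm
  by_cases hym : y = m
  · rw [hym, hfm]; exact hax
  · have hlt : y < m := by have := hmax y hy; omega
    have := h.av x hx y hy m hm hxy hlt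
    rw [hfm] at this
    have hne : f x ≠ f y := by
      intro hh; have := h.inj x hx y hy hh; omega
    by_contra hcon
    exact this ⟨hax, by omega⟩

theorem V_cover {a b c d : ℕ} (hab : a < b) (hbc : b ≤ c) (hcd : c < d) :
    V a b c d ⊆ {f | f ∈ V a b c d ∧ ∀ x, a ≤ x → x < b → f x < b} ∪
      {f : ℕ → ℕ | Val (D2 a b c d) f ∧
        ∀ x ∈ D2 a b c d, ∀ y ∈ D2 a b c d, x < y → f y < f x} ∪
      {f | a + 1 < b ∧ f ∈ rest a (d - 1) (b - 1) '' V (a + 1) (b - 1) c (d - 1)} ∪
      {f | c + 1 < d ∧ f ∈ rest a (d - 1) c '' V (a + 1) b (c + 1) (d - 1)} := by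
  intro f hf
  obtain ⟨hv, hdec, hdecv⟩ := hf
  by_cases hA : ∀ x, a ≤ x → x < b → f x < b
  · left; left; left; exact ⟨⟨hv, hdec, hdecv⟩, hA⟩
  push Not at hA
  obtain ⟨x0, hx0a, hx0b, hx0⟩ := hA
  have haD : a ∈ D2 a b c d := mem_D2.2 (Or.inl ⟨le_refl a, hab⟩)
  have hdD : d - 1 ∈ D2 a b c d := mem_D2.2 (Or.inr ⟨by omega, by omega⟩)
  have hcD : c ∈ D2 a b c d := mem_D2.2 (Or.inr ⟨le_refl c, hcd⟩)
  have hx0D : x0 ∈ D2 a b c d := mem_D2.2 (Or.inl ⟨hx0a, hx0b⟩)
  have hs := surj_of hv.maps hv.inj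
  have hfx0 : c ≤ f x0 := by
    have := mem_D2.1 (hv.maps x0 hx0D); omega
  have hfa : c ≤ f a := by
    rcases Nat.eq_or_lt_of_le hx0a with h | h
    · rw [h]; exact hfx0
    · have := hdec a x0 (le_refl a) h hx0b; omega
  have hpa : f a = d - 1 := by
    obtain ⟨z, hz, hfz⟩ := hs (d - 1) hdD
    by_cases hza : z = a
    · rw [← hza]; exact hfz
    · have h1 := mem_D2.1 hz
      have h2 := hdecv a haD z hz (by omega) hfa (by omega)
      have h3 := mem_D2.1 (hv.maps a haD)
      omega
  have hmin : ∀ x ∈ D2 a b c d, a ≤ x := by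
    intro x hx; have := mem_D2.1 hx; omega
  have hmax : ∀ x ∈ D2 a b c d, x ≤ d - 1 := by
    intro x hx; have := mem_D2.1 hx; omega
  have hc := hv.cyc a haD
  rw [hpa] at hc
  by_cases he : f (d - 1) = a
  · left; left; right
    exact ⟨hv, dec_of_last hv haD hdD hmin hmax he⟩
  have hfe : f (f (d - 1)) = a := by
    rcases hc with hc | hc
    · exact absurd hc he
    · exact hc
  have heD : f (d - 1) ∈ D2 a b c d := hv.maps _ hdD
  have hed : f (d - 1) ≠ d - 1 := by
    intro hh
    have := hv.inj a haD (d - 1) hdD (by rw [hpa, hh])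
    omega
  have heM := mem_D2.1 heD
  by_cases heb : f (d - 1) < b
  · -- e = b - 1
    have h1 : f (d - 1) = b - 1 := by
      by_contra hne
      have hbD : b - 1 ∈ D2 a b c d := mem_D2.2 (Or.inl ⟨by omega, by omega⟩)
      have h2 := hdec (f (d - 1)) (b - 1) (by omega) (by omega) (by omega)
      have h3 := hmin _ (hv.maps _ hbD)
      omega
    left; right
    refine ⟨by omega, rem a (d - 1) (b - 1) f, ⟨?_, ?_, ?_⟩, ?_⟩
    · apply hv.rem haD hdD (by rw [← h1]; exact heD) hpa h1 (by rw [← h1]; exact hfe)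
      intro z
      rw [mem_D2, mem_D2]
      omega
    · intro x y hx hxy hy
      unfold rem
      rw [if_neg (by omega), if_neg (by omega)]
      exact hdec x y (by omega) hxy (by omega)
    · intro x hx y hy hxy
      rw [mem_D2] at hx hy
      unfold rem
      rw [if_neg (by omega), if_neg (by omega)]
      intro h4 h5
      exact hdecv x (mem_D2.2 (by omega)) y (mem_D2.2 (by omega)) hxy h4 h5
    · exact rest_rem hpa h1 (by rw [← h1]; exact hfe)
  · -- e = c
    have h1 : f (d - 1) = c := by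
      by_contra hne
      obtain ⟨z, hz, hfz⟩ := hs c hcD
      have hz1 : z ≠ d - 1 := by intro hh; rw [hh] at hfz; exact hne hfz
      have hz2 := hmax z hz
      have := hdecv z hz (d - 1) hdD (by omega) (by omega) (by omega)
      omega
    right
    refine ⟨by omega, rem a (d - 1) c f, ⟨?_, ?_, ?_⟩, ?_⟩
    · apply hv.rem haD hdD hcD hpa h1 (by rw [← h1]; exact hfe)
      intro z
      rw [mem_D2, mem_D2]
      omega
    · intro x y hx hxy hy
      unfold rem
      rw [if_neg (by omega), if_neg (by omega)]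
      exact hdec x y (by omega) hxy (by omega)
    · intro x hx y hy hxy
      rw [mem_D2] at hx hy
      unfold rem
      rw [if_neg (by omega), if_neg (by omega)]
      intro h4 h5
      exact hdecv x (mem_D2.2 (by omega)) y (mem_D2.2 (by omega)) hxy (by omega) (by omega)
    · exact rest_rem hpa h1 (by rw [← h1]; exact hfe)

theorem V_first_le_one {a b c d : ℕ} (hbc : b ≤ c) :
    {f | f ∈ V a b c d ∧ ∀ x, a ≤ x → x < b → f x < b}.encard ≤ 1 := by
  rw [Set.encard_le_one_iff]
  rintro f g ⟨⟨hf, hfd, hfv⟩, hfb⟩ ⟨⟨hg, hgd, hgv⟩, hgb⟩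
  have key : ∀ f : ℕ → ℕ, Val (D2 a b c d) f →
      (∀ x y, a ≤ x → x < y → y < b → f y < f x) →
      (∀ x ∈ D2 a b c d, ∀ y ∈ D2 a b c d, x < y → c ≤ f x → c ≤ f y → f y < f x) →
      (∀ x, a ≤ x → x < b → f x < b) →
      ((∀ x ∈ Finset.Ico a b, f x ∈ Finset.Ico a b) ∧
       (∀ x ∈ Finset.Ico a b, ∀ y ∈ Finset.Ico a b, x < y → f y < f x) ∧
       (∀ x ∈ Finset.Ico c d, f x ∈ Finset.Ico c d) ∧
       (∀ x ∈ Finset.Ico c d, ∀ y ∈ Finset.Ico c d, x < y → f y < f x)) := by
    intro f hf hfd hfv hfb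
    have m1 : ∀ x ∈ Finset.Ico a b, f x ∈ Finset.Ico a b := by
      intro x hx
      rw [Finset.mem_Ico] at hx ⊢
      have h1 := mem_D2.1 (hf.maps x (mem_D2.2 (Or.inl hx)))
      have h2 := hfb x hx.1 hx.2
      by_cases h3 : a ≤ f x
      · exact ⟨h3, h2⟩
      · omega
    have m2 : ∀ x ∈ Finset.Ico c d, f x ∈ Finset.Ico c d := by
      intro x hx
      rw [Finset.mem_Ico] at hx ⊢
      have hxD := mem_D2.2 (Or.inr hx : (a ≤ x ∧ x < b) ∨ (c ≤ x ∧ x < d))
      have h1 := mem_D2.1 (hf.maps x hxD)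
      rcases h1 with h1 | h1
      · exfalso
        obtain ⟨y, hy, hfy⟩ := surj_of m1 (by
          intro u hu v hv huv
          rw [Finset.mem_Ico] at hu hv
          exact hf.inj u (mem_D2.2 (Or.inl hu)) v (mem_D2.2 (Or.inl hv)) huv) (f x)
            (Finset.mem_Ico.2 h1)
        rw [Finset.mem_Ico] at hy
        have := hf.inj y (mem_D2.2 (Or.inl hy)) x hxD hfy
        omega
      · exact h1
    refine ⟨m1, ?_, m2, ?_⟩
    · intro x hx y hy hxy
      rw [Finset.mem_Ico] at hx hy
      exact hfd x y hx.1 hxy hy.2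
    · intro x hx y hy hxy
      have hx' := Finset.mem_Ico.1 (m2 x hx)
      have hy' := Finset.mem_Ico.1 (m2 y hy)
      rw [Finset.mem_Ico] at hx hy
      exact hfv x (mem_D2.2 (Or.inr hx)) y (mem_D2.2 (Or.inr hy)) hxy hx'.1 hy'.1
  obtain ⟨f1, f2, f3, f4⟩ := key f hf hfd hfv hfb
  obtain ⟨g1, g2, g3, g4⟩ := key g hg hgd hgv hgb
  funext x
  by_cases h1 : x ∈ Finset.Ico a b
  · exact anti_unique f1 f2 g1 g2 x h1
  by_cases h2 : x ∈ Finset.Ico c d
  · exact anti_unique f3 f4 g3 g4 x h2
  · have : x ∉ D2 a b c d := by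
      rw [mem_D2]
      rw [Finset.mem_Ico] at h1 h2
      omega
    rw [hf.out x this, hg.out x this]

def g1 (F : ℕ → ℕ) : ℕ → ℕ
  | 0 => 0
  | s + 1 => F s

/-- the counting function, with fuel -/
def gg : ℕ → ℕ → ℕ → ℕ
  | _, 0, _ => 1
  | _, _ + 1, 0 => 1
  | 0, _ + 1, _ + 1 => 0
  | n + 1, s + 1, u + 1 =>
    2 + g1 (fun s' => gg n s' u) s + g1 (fun u' => gg n s u') u

theorem V_bound : ∀ (n s u a b c d : ℕ), b = a + s → d = c + u → b ≤ c → s < n + 1 → 
    (V a b c d).encard ≤ (gg n s u : ℕ) := by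
  intro n
  induction n with
  | zero =>
    intro s u a b c d hb hd hbc hsn
    have hs : s = 0 := by omega
    subst hs
    have : gg 0 0 u = 1 := by simp [gg]
    rw [this]
    refine le_trans (Set.encard_le_encard ?_) (dec_le_one (D2 a b c d))
    rintro f ⟨hv, hd1, hd2⟩
    refine ⟨hv, ?_⟩
    intro x hx y hy hxy
    have hx' := mem_D2.1 (hv.maps x hx)
    have hy' := mem_D2.1 (hv.maps y hy)
    exact hd2 x hx y hy hxy (by omega) (by omega)
  | succ n ih =>
    intro s u a b c d hb hd hbc hsn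
    rcases s with _ | s
    · have : gg (n + 1) 0 u = 1 := by simp [gg]
      rw [this]
      refine le_trans (Set.encard_le_encard ?_) (dec_le_one (D2 a b c d))
      rintro f ⟨hv, hd1, hd2⟩
      refine ⟨hv, ?_⟩
      intro x hx y hy hxy
      have hx' := mem_D2.1 (hv.maps x hx)
      have hy' := mem_D2.1 (hv.maps y hy)
      exact hd2 x hx y hy hxy (by omega) (by omega)
    rcases u with _ | u
    · have : gg (n + 1) (s + 1) 0 = 1 := by simp [gg]
      rw [this]
      refine le_trans (Set.encard_le_encard ?_) (dec_le_one (D2 a b c d))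
      rintro f ⟨hv, hd1, hd2⟩
      refine ⟨hv, ?_⟩
      intro x hx y hy hxy
      rw [mem_D2] at hx hy
      exact hd1 x y (by omega) hxy (by omega)
    have hcov := V_cover (a := a) (b := b) (c := c) (d := d) (by omega) hbc (by omega)
    have e1 := V_first_le_one (a := a) (b := b) (c := c) (d := d) hbc
    have e2 := dec_le_one (D2 a b c d)
    have e3 : {f | a + 1 < b ∧ f ∈ rest a (d - 1) (b - 1) '' V (a + 1) (b - 1) c (d - 1)}.encard ≤
        ((g1 (fun s' => gg n s' u) s : ℕ) : ℕ∞) := by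
      rcases s with _ | s
      · have : {f | a + 1 < b ∧ f ∈ rest a (d - 1) (b - 1) '' V (a + 1) (b - 1) c (d - 1)} = ∅ := by
          rw [Set.eq_empty_iff_forall_notMem]
          rintro f ⟨h, -⟩; omega
        rw [this]; simp
      · refine le_trans (Set.encard_le_encard (t := rest a (d - 1) (b - 1) ''
          V (a + 1) (b - 1) c (d - 1)) (fun f hf => hf.2)) ?_
        refine le_trans (Set.encard_image_le _ _) ?_
        exact ih s u (a + 1) (b - 1) c (d - 1) (by omega) (by omega) (by omega) (by omega)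
    have e4 : {f | c + 1 < d ∧ f ∈ rest a (d - 1) c '' V (a + 1) b (c + 1) (d - 1)}.encard ≤
        ((g1 (fun u' => gg n s u') u : ℕ) : ℕ∞) := by
      rcases u with _ | u
      · have : {f | c + 1 < d ∧ f ∈ rest a (d - 1) c '' V (a + 1) b (c + 1) (d - 1)} = ∅ := by
          rw [Set.eq_empty_iff_forall_notMem]
          rintro f ⟨h, -⟩; omega
        rw [this]; simp
      · refine le_trans (Set.encard_le_encard (t := rest a (d - 1) c ''
          V (a + 1) b (c + 1) (d - 1)) (fun f hf => hf.2)) ?_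
        refine le_trans (Set.encard_image_le _ _) ?_
        exact ih s u (a + 1) b (c + 1) (d - 1) (by omega) (by omega) (by omega) (by omega)
    have hgg : ((gg (n + 1) (s + 1) (u + 1) : ℕ) : ℕ∞) =
        1 + 1 + ((g1 (fun s' => gg n s' u) s : ℕ) : ℕ∞) +
          ((g1 (fun u' => gg n s u') u : ℕ) : ℕ∞) := by
      rw [gg]; push_cast; ring
    rw [hgg]
    refine le_trans (Set.encard_le_encard hcov) ?_
    refine le_trans (Set.encard_union_le _ _) ?_
    refine add_le_add ?_ e4
    refine le_trans (Set.encard_union_le _ _) ?_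
    refine add_le_add ?_ e3
    refine le_trans (Set.encard_union_le _ _) ?_
    exact add_le_add e1 e2

theorem cover_le {α : Type*} (n : ℕ) : ∀ (S : Set α) (s : ℕ → Set α)
    (_ : ∀ x ∈ S, ∃ i < n, x ∈ s i), S.encard ≤ ∑ i ∈ Finset.range n, (s i).encard := by
  induction n with
  | zero =>
    intro S s h
    have : S = ∅ := by
      rw [Set.eq_empty_iff_forall_notMem]
      intro x hx; obtain ⟨i, hi, -⟩ := h x hx; omega
    rw [this]; simp
  | succ n ih =>
    intro S s h
    rw [Finset.sum_range_succ]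
    have h1 : S ⊆ {x | x ∈ S ∧ ∃ i < n, x ∈ s i} ∪ s n := by
      intro x hx
      obtain ⟨i, hi, hxi⟩ := h x hx
      by_cases hin : i = n
      · right; rw [← hin]; exact hxi
      · left; exact ⟨hx, i, by omega, hxi⟩
    refine le_trans (Set.encard_le_encard h1) ?_
    refine le_trans (Set.encard_union_le _ _) ?_
    exact add_le_add (ih _ s (fun x hx => hx.2)) (le_refl _)

def W (k n : ℕ) : Set (ℕ → ℕ) := {f | Val (Finset.Ico k n) f ∧ f k = n - 1}

/-- bound for the number of last blocks of length `m` -/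
def ww (m : ℕ) : ℕ := 1 + ((List.range (m - 2)).map (fun i => gg 40 i (m - 3 - i))).sum

theorem sum_lr (m : ℕ) (F : ℕ → ℕ) :
    ((List.range m).map F).sum = ∑ i ∈ Finset.range m, F i := by
  induction m with
  | zero => simp
  | succ m ih => rw [List.range_succ, List.map_append, List.sum_append, Finset.sum_range_succ, ih]; simp

theorem W_bound (k n : ℕ) (hkn : k < n) (hn : n ≤ 40) :
    (W k n).encard ≤ (ww (n - k) : ℕ) := by
  have hcov : W k n ⊆ {f : ℕ → ℕ | Val (Finset.Ico k n) f ∧
      ∀ x ∈ Finset.Ico k n, ∀ y ∈ Finset.Ico k n, x < y → f y < f x} ∪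
      {f | ∃ i < n - k - 2, f ∈ rest k (n - 1) (k + 1 + i) ''
        V (k + 1) (k + 1 + i) (k + 1 + i + 1) (n - 1)} := by
    rintro f ⟨hv, hfk⟩
    have hkD : k ∈ Finset.Ico k n := Finset.mem_Ico.2 ⟨le_refl k, hkn⟩
    have hnD : n - 1 ∈ Finset.Ico k n := Finset.mem_Ico.2 ⟨by omega, by omega⟩
    have hmin : ∀ x ∈ Finset.Ico k n, k ≤ x := fun x hx => (Finset.mem_Ico.1 hx).1
    have hmax : ∀ x ∈ Finset.Ico k n, x ≤ n - 1 := fun x hx => by
      have := (Finset.mem_Ico.1 hx).2; omega
    by_cases he : f (n - 1) = k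
    · left; exact ⟨hv, dec_of_last hv hkD hnD hmin hmax he⟩
    right
    have hc := hv.cyc k hkD
    rw [hfk] at hc
    have hfe : f (f (n - 1)) = k := by
      rcases hc with hc | hc
      · exact absurd hc he
      · exact hc
    have heD := hv.maps _ hnD
    have heM := Finset.mem_Ico.1 heD
    have hed : f (n - 1) ≠ n - 1 := by
      intro hh
      have := hv.inj k hkD (n - 1) hnD (by rw [hfk, hh])
      rw [← this] at hh
      rw [← this] at he
      exact he hh
    have he2 : f (n - 1) = k + 1 + (f (n - 1) - (k + 1)) := by omega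
    refine ⟨f (n - 1) - (k + 1), by omega, ?_⟩
    rw [← he2]
    refine ⟨rem k (n - 1) (f (n - 1)) f, ⟨?_, ?_, ?_⟩, rest_rem hfk rfl hfe⟩
    · apply hv.rem hkD hnD heD hfk rfl hfe
      intro z
      rw [mem_D2, Finset.mem_Ico]
      omega
    · intro x y hx hxy hy
      unfold rem
      rw [if_neg (by omega), if_neg (by omega)]
      have hxD : x ∈ Finset.Ico k n := Finset.mem_Ico.2 ⟨by omega, by omega⟩
      have hyD : y ∈ Finset.Ico k n := Finset.mem_Ico.2 ⟨by omega, by omega⟩
      have h1 := hv.av x hxD y hyD _ heD hxy hy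
      rw [hfe] at h1
      have h2 := hmin _ (hv.maps x hxD)
      have h3 : f x ≠ k := by
        intro hh
        have := hv.inj x hxD _ heD (by rw [hh, hfe]); omega
      have h4 : f x ≠ f y := by
        intro hh
        have := hv.inj x hxD y hyD hh; omega
      by_contra hcon
      exact h1 ⟨by omega, by omega⟩
    · intro x hx y hy hxy
      rw [mem_D2] at hx hy
      unfold rem
      rw [if_neg (by omega), if_neg (by omega)]
      intro h5 h6
      have hxD : x ∈ Finset.Ico k n := Finset.mem_Ico.2 ⟨by omega, by omega⟩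
      have hyD : y ∈ Finset.Ico k n := Finset.mem_Ico.2 ⟨by omega, by omega⟩
      have h1 := hv.av x hxD y hyD _ hnD hxy (by omega)
      have h4 : f x ≠ f y := by
        intro hh
        have := hv.inj x hxD y hyD hh; omega
      by_contra hcon
      exact h1 ⟨by omega, by omega⟩
  refine le_trans (Set.encard_le_encard hcov) ?_
  refine le_trans (Set.encard_union_le _ _) ?_
  have h2 := cover_le (n - k - 2) {f | ∃ i < n - k - 2, f ∈ rest k (n - 1) (k + 1 + i) ''
        V (k + 1) (k + 1 + i) (k + 1 + i + 1) (n - 1)}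
    (fun i => rest k (n - 1) (k + 1 + i) '' V (k + 1) (k + 1 + i) (k + 1 + i + 1) (n - 1))
    (fun x hx => hx)
  have h3 : (∑ i ∈ Finset.range (n - k - 2), (rest k (n - 1) (k + 1 + i) ''
      V (k + 1) (k + 1 + i) (k + 1 + i + 1) (n - 1)).encard) ≤
      ∑ i ∈ Finset.range (n - k - 2), ((gg 40 i (n - k - 3 - i) : ℕ) : ℕ∞) := by
    apply Finset.sum_le_sum
    intro i hi
    rw [Finset.mem_range] at hi
    refine le_trans (Set.encard_image_le _ _) ?_
    exact V_bound 40 i (n - k - 3 - i) _ _ _ _ rfl (by omega) (by omega) (by omega)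
  have h4 : ((ww (n - k) : ℕ) : ℕ∞) =
      1 + ∑ i ∈ Finset.range (n - k - 2), ((gg 40 i (n - k - 3 - i) : ℕ) : ℕ∞) := by
    unfold ww
    rw [sum_lr]
    push_cast
    rfl
  rw [h4]
  exact add_le_add (dec_le_one _) (le_trans h2 h3)

def lo (k : ℕ) (f : ℕ → ℕ) : ℕ → ℕ := fun z => if z < k then f z else 0
def hi (k : ℕ) (f : ℕ → ℕ) : ℕ → ℕ := fun z => if z < k then 0 else f z

def X (n : ℕ) : Set (ℕ → ℕ) := {f | Val (Finset.Ico 0 n) f}

def merge (k : ℕ) (q : (ℕ → ℕ) × (ℕ → ℕ)) : ℕ → ℕ := fun z => if z < k then q.1 z else q.2 z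

theorem X_step (n : ℕ) (hn : 1 ≤ n) (hn40 : n ≤ 40) (B : ℕ → ℕ)
    (hB : ∀ k < n, (X k).encard ≤ (B k : ℕ)) :
    (X n).encard ≤ ((∑ k ∈ Finset.range n, B k * ww (n - k) : ℕ) : ℕ∞) := by
  have hcov : ∀ f ∈ X n, ∃ k < n, f ∈ merge k '' (X k ×ˢ W k n) := by
    intro f hv
    have hv' : Val (Finset.Ico 0 n) f := hv
    obtain ⟨k, hkD, hfk⟩ := surj_of hv'.maps hv'.inj (n - 1) (Finset.mem_Ico.2 ⟨by omega, by omega⟩)
    have hkn : k < n := (Finset.mem_Ico.1 hkD).2
    have mem : ∀ x, x < n → x ∈ Finset.Ico 0 n := fun x hx => Finset.mem_Ico.2 ⟨by omega, hx⟩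
    have lt : ∀ x, x < n → f x < n := fun x hx => (Finset.mem_Ico.1 (hv'.maps x (mem x hx))).2
    have hlow : ∀ x, x < k → f x < k := by
      intro x hx
      by_contra hcon
      have hmaps : ∀ y ∈ Finset.Ico k n, f y ∈ Finset.Ico (k + 1) n := by
        intro y hy
        rw [Finset.mem_Ico] at hy ⊢
        have h1 := lt y hy.2
        have h2 : f x ≠ f y := by
          intro hh; have := hv'.inj x (mem x (by omega)) y (mem y hy.2) hh; omega
        have h3 := lt x (by omega)
        by_cases hyk : y = k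
        · subst hyk; omega
        · have h4 := hv'.av x (mem x (by omega)) k hkD y (mem y hy.2) hx (by omega)
          rw [hfk] at h4
          have h5 : f x ≠ f k := by
            intro hh; have := hv'.inj x (mem x (by omega)) k hkD hh; omega
          rw [hfk] at h5
          have : ¬ f y < f x := fun hh => h4 ⟨hh, by omega⟩
          omega
      have hinj : Set.InjOn f (Finset.Ico k n : Set ℕ) := by
        intro y hy z hz hyz
        rw [Finset.mem_coe, Finset.mem_Ico] at hy hz
        exact hv'.inj y (mem y hy.2) z (mem z hz.2) hyz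
      have := Finset.card_le_card_of_injOn f hmaps hinj
      rw [Nat.card_Ico, Nat.card_Ico] at this
      omega
    have hhigh : ∀ x, k ≤ x → x < n → k ≤ f x := by
      intro x hx hxn
      by_contra hcon
      have hm1 : ∀ y ∈ Finset.range k, f y ∈ Finset.range k := by
        intro y hy; rw [Finset.mem_range] at hy ⊢; exact hlow y hy
      obtain ⟨y, hy, hfy⟩ := surj_of hm1 (by
        intro u hu v hv2 huv
        rw [Finset.mem_range] at hu hv2
        exact hv'.inj u (mem u (by omega)) v (mem v (by omega)) huv) (f x)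
          (Finset.mem_range.2 (by omega))
      rw [Finset.mem_range] at hy
      have := hv'.inj y (mem y (by omega)) x (mem x hxn) hfy
      omega
    refine ⟨k, hkn, (lo k f, hi k f), ⟨?_, ?_, ?_⟩, ?_⟩
    · -- lower part
      show Val (Finset.Ico 0 k) (lo k f)
      have hz : ∀ z, z < k → lo k f z = f z := by
        intro z hz; simp [lo, hz]
      refine ⟨?_, ?_, ?_, ?_, ?_⟩
      · intro x hx; rw [Finset.mem_Ico] at hx
        have : ¬ x < k := by omega
        simp [lo, this]
      · intro x hx; rw [Finset.mem_Ico] at hx; rw [hz x hx.2]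
        exact Finset.mem_Ico.2 ⟨by omega, hlow x hx.2⟩
      · intro x hx y hy; rw [Finset.mem_Ico] at hx hy; rw [hz x hx.2, hz y hy.2]
        exact hv'.inj x (mem x (by omega)) y (mem y (by omega))
      · intro x hx y hy z hz'; rw [Finset.mem_Ico] at hx hy hz'
        rw [hz x hx.2, hz y hy.2, hz z hz'.2]
        exact hv'.av x (mem x (by omega)) y (mem y (by omega)) z (mem z (by omega))
      · intro x hx; rw [Finset.mem_Ico] at hx
        rw [hz x hx.2, hz _ (hlow x hx.2), hz _ (hlow _ (hlow x hx.2))]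
        exact hv'.cyc x (mem x (by omega))
    · show Val (Finset.Ico k n) (hi k f)
      have hz : ∀ z, k ≤ z → hi k f z = f z := by
        intro z hz
        have : ¬ z < k := by omega
        simp [hi, this]
      refine ⟨?_, ?_, ?_, ?_, ?_⟩
      · intro x hx; rw [Finset.mem_Ico] at hx
        by_cases hxk : x < k
        · simp [hi, hxk]
        · rw [hz x (by omega)]
          apply hv'.out; rw [Finset.mem_Ico]; omega
      · intro x hx; rw [Finset.mem_Ico] at hx; rw [hz x hx.1]
        exact Finset.mem_Ico.2 ⟨hhigh x hx.1 hx.2, lt x hx.2⟩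
      · intro x hx y hy; rw [Finset.mem_Ico] at hx hy; rw [hz x hx.1, hz y hy.1]
        exact hv'.inj x (mem x (by omega)) y (mem y (by omega))
      · intro x hx y hy z hz'; rw [Finset.mem_Ico] at hx hy hz'
        rw [hz x hx.1, hz y hy.1, hz z hz'.1]
        exact hv'.av x (mem x (by omega)) y (mem y (by omega)) z (mem z (by omega))
      · intro x hx; rw [Finset.mem_Ico] at hx
        have a1 := hhigh x hx.1 hx.2
        have a2 := lt x hx.2
        have a3 := hhigh _ a1 a2
        rw [hz x hx.1, hz _ a1, hz _ a3]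
        exact hv'.cyc x (mem x (by omega))
    · show hi k f k = n - 1
      simp [hi, hfk]
    · funext z
      unfold merge
      by_cases hz : z < k <;> simp [lo, hi, hz]
  have h1 := cover_le n (X n) (fun k => merge k '' (X k ×ˢ W k n)) hcov
  refine le_trans h1 ?_
  push_cast
  apply Finset.sum_le_sum
  intro k hk
  rw [Finset.mem_range] at hk
  refine le_trans (Set.encard_image_le _ _) ?_
  rw [Set.encard_prod]
  exact mul_le_mul' (hB k hk) (W_bound k n hk hn40)

def La : List ℕ := [1, 1, 2, 5, 12, 29, 71, 171, 411, 990, 2380, 5722, 13765, 33106, 79624, 191523, 460659, 1107992, 2665013, 6410014, 15417653, 37083313, 89194557, 214534985, 516009932, 1241131884, 2985229966, 7180218801, 17270207456, 41539133020, 99911920175, 240312953877, 578012269610, 1390262900761, 3343927168744, 8042974391153, 19345348689979, 46530362737347, 111917065496883]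

def Lw : List ℕ := [0, 1, 1, 2, 3, 5, 9, 13, 19, 29, 39, 53, 75, 97, 127, 173, 219, 281, 375, 469, 595, 785, 975, 1229, 1611, 1993, 2503, 3269, 4035, 5057, 6591, 8125, 10171, 13241, 16311, 20405, 26547, 32689, 40879]

theorem Lw_ok : ∀ m ∈ List.range 39, m = 0 ∨ ww m = Lw.getD m 0 := by decide +kernel

theorem La_ok : ∀ n ∈ List.range 39, n = 0 ∨
    ((List.range n).map (fun k => La.getD k 0 * Lw.getD (n - k) 0)).sum = La.getD n 0 := by
  decide +kernel

theorem X_bound : ∀ n ≤ 38, (X n).encard ≤ ((La.getD n 0 : ℕ) : ℕ∞) := by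
  intro n
  induction n using Nat.strong_induction_on with
  | _ n ih =>
    intro hn
    rcases Nat.eq_zero_or_pos n with h0 | h0
    · subst h0
      have : La.getD 0 0 = 1 := by decide
      rw [this]
      refine le_trans (Set.encard_le_encard ?_) (dec_le_one (Finset.Ico 0 0))
      intro f hf
      refine ⟨hf, ?_⟩
      intro x hx; simp at hx
    · have h1 := X_step n h0 (by omega) (fun k => La.getD k 0) (fun k hk => ih k hk (by omega))
      refine le_trans h1 ?_
      have h2 := (La_ok n (List.mem_range.2 (by omega))).resolve_left (by omega)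
      rw [← h2, sum_lr]
      apply le_of_eq
      congr 1
      apply Finset.sum_congr rfl
      intro k hk
      rw [Finset.mem_range] at hk
      have h3 := (Lw_ok (n - k) (List.mem_range.2 (by omega))).resolve_left (by omega)
      rw [h3]

theorem upper38 : (X 38).encard ≤ ((111917065496883 : ℕ) : ℕ∞) := by
  have h := X_bound 38 (le_refl _)
  have : La.getD 38 0 = 111917065496883 := by decide
  rwa [this] at h

end Pool.Agent.X36.Fa04
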