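import Pool.Agent.X36.AptDef

/-!
# Infinitely many primitive sets of primes

Let `P` be a finite set of primes and `q` their product. The pairs `(X, Y)` modulo `q`, nonzero
modulo every `p ∈ P`, are the oriented edges of a finite trivalent graph (a quotient of the tree of
the superbases of `ℤ²`); a walk without backtracking in this graph is a branch of an additive
prime tree as long as all its edges are good, that is, `X` and `Y` are both divisible by some
element of `P`. Goodness does not depend on the orientation of the edge. If all good walks are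
finite, then every good edge is the first edge of the longest good walk starting in one of its end
points, so there are at most as many good edges as vertices (`count`). But if the product of the
numbers `1 + 1/p` is larger than `6`, there are more good edges than vertices.
-/

set_option autoImplicit false
set_option linter.unusedSectionVars false

open Finset

namespace Pool.Agent.X36.Apt

section Abstract

variable {I : Type} [Fintype I] [DecidableEq I] {F : I → Type} [∀ i, Field (F i)]
  [∀ i, Fintype (F i)] [∀ i, DecidableEq (F i)]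

/-- states -/
abbrev St (F : I → Type) := (i : I) → F i × F i

def R (s : St F) : St F := fun i => ((s i).1 + (s i).2, (s i).2)
def L (s : St F) : St F := fun i => ((s i).1, (s i).1 + (s i).2)
def T (s : St F) : St F := fun i => ((s i).2, -(s i).1)
def ng (s : St F) : St F := fun i => (-(s i).1, -(s i).2)
/-- rotation about the tail -/
def ρ (s : St F) : St F := fun i => ((s i).2 - (s i).1, -(s i).1)

def Good (s : St F) : Prop :=
  (∀ i, ¬ ((s i).1 = 0 ∧ (s i).2 = 0)) ∧ (∃ i, (s i).1 = 0) ∧ (∃ i, (s i).2 = 0)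

instance : DecidablePred (Good (F := F)) := fun s => by unfold Good; infer_instance

lemma R_T (s : St F) : R (T s) = ρ s := by
  funext i; apply Prod.ext <;> simp only [R, T, ρ] <;> ring
lemma L_T_ρ (s : St F) : L (T (ρ s)) = ng s := by
  funext i; apply Prod.ext <;> simp only [L, T, ρ, ng] <;> ring
lemma T_T (s : St F) : T (T s) = ng s := by
  funext i; simp only [T, ng]
lemma R_ng (s : St F) : R (ng s) = ng (R s) := by
  funext i; simp only [R, ng, Prod.mk.injEq, and_true]; ring
lemma L_ng (s : St F) : L (ng s) = ng (L s) := by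
  funext i; simp only [L, ng, Prod.mk.injEq, true_and]; ring
lemma ng_ng (s : St F) : ng (ng s) = s := by
  funext i; simp only [ng, neg_neg]
lemma ρ3 (s : St F) : ρ (ρ (ρ s)) = s := by
  funext i
  simp only [ρ]
  apply Prod.ext <;> simp only <;> ring

lemma ρ_inj : Function.Injective (ρ (F := F)) := by
  intro a b h
  rw [← ρ3 a, ← ρ3 b, h]

lemma T_inj : Function.Injective (T (F := F)) := by
  intro a b h
  have h2 : ng (T (T a)) = ng (T (T b)) := by rw [h]
  rwa [T_T, T_T, ng_ng, ng_ng] at h2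

lemma good_T (s : St F) : Good (T s) ↔ Good s := by
  unfold Good T
  simp only [neg_eq_zero]
  constructor
  · rintro ⟨h1, h2, h3⟩
    exact ⟨fun i hi => h1 i ⟨hi.2, hi.1⟩, h3, h2⟩
  · rintro ⟨h1, h2, h3⟩
    exact ⟨fun i hi => h1 i ⟨hi.2, hi.1⟩, h3, h2⟩

lemma good_ng (s : St F) : Good (ng s) ↔ Good s := by
  rw [← T_T, good_T, good_T]

variable (F) in
/-- states with a good path of length `n` -/
def W : ℕ → Finset (St F)
  | 0 => univ.filter Good
  | n + 1 => (univ.filter Good).filter (fun s => R s ∈ W n ∨ L s ∈ W n)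

lemma mem_W_zero (s : St F) : s ∈ W F 0 ↔ Good s := by
  simp [W]

lemma mem_W_succ (n : ℕ) (s : St F) : s ∈ W F (n + 1) ↔ Good s ∧ (R s ∈ W F n ∨ L s ∈ W F n) := by
  simp only [W, mem_filter, mem_univ, true_and]

lemma W_succ_subset (n : ℕ) : W F (n + 1) ⊆ W F n := by
  induction n with
  | zero =>
    intro s hs
    rw [mem_W_succ] at hs
    exact (mem_W_zero s).2 hs.1
  | succ n ih =>
    intro s hs
    rw [mem_W_succ] at hs ⊢
    exact ⟨hs.1, hs.2.imp (fun h => ih h) (fun h => ih h)⟩

lemma W_anti {m n : ℕ} (h : m ≤ n) : W F n ⊆ W F m := by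
  induction n, h using Nat.le_induction with
  | base => exact subset_rfl
  | succ n _ ih => exact (W_succ_subset n).trans ih

lemma ng_mem_W (n : ℕ) : ∀ s : St F, ng s ∈ W F n ↔ s ∈ W F n := by
  induction n with
  | zero => intro s; rw [mem_W_zero, mem_W_zero, good_ng]
  | succ n ih =>
    intro s
    rw [mem_W_succ, mem_W_succ, good_ng, R_ng, L_ng, ih, ih]

/-- all nonzero states -/
def V (F : I → Type) [∀ i, Field (F i)] [∀ i, Fintype (F i)] [∀ i, DecidableEq (F i)] :
    Finset (St F) := univ.filter (fun s => ∀ i, ¬ ((s i).1 = 0 ∧ (s i).2 = 0))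

lemma ρ_mem_V {s : St F} (h : s ∈ V F) : ρ s ∈ V F := by
  unfold V at *
  rw [mem_filter] at *
  refine ⟨mem_univ _, fun i hi => h.2 i ?_⟩
  simp only [ρ, neg_eq_zero] at hi
  refine ⟨hi.2, ?_⟩
  have := hi.1
  rwa [hi.2, sub_zero] at this

/-- If every good path is finite, then at most two thirds of the nonzero states are good. -/
theorem count (h : ∀ s : St F, ∃ n, s ∉ W F n) :
    3 * (univ.filter (Good (F := F))).card ≤ 2 * (V F).card := by
  classical
  set τ : St F → ℕ := fun s => Nat.find (h s) with hτ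
  have hmem : ∀ (s : St F) (n : ℕ), s ∈ W F n ↔ n < τ s := by
    intro s n
    constructor
    · intro hs
      by_contra hlt
      exact Nat.find_spec (h s) (W_anti (not_lt.1 hlt) hs)
    · intro hn
      by_contra hs
      exact Nat.find_min (h s) hn hs
  have hstep : ∀ s s' : St F, Good s → Good s' → (R s = s' ∨ L s = s') → τ s' < τ s := by
    intro s s' hs hs' hss
    have h0 : 0 < τ s' := (hmem s' 0).1 ((mem_W_zero s').2 hs')
    have h1 : s' ∈ W F (τ s' - 1) := (hmem s' _).2 (by omega)
    have h2 : s ∈ W F (τ s' - 1 + 1) := by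
      rw [mem_W_succ]
      refine ⟨hs, ?_⟩
      rcases hss with e | e
      · left; rw [e]; exact h1
      · right; rw [e]; exact h1
    have h3 := (hmem s _).1 h2
    omega
  have hng : ∀ s : St F, τ (ng s) = τ s := by
    intro s
    apply le_antisymm
    · by_contra hlt
      have h1 := (hmem (ng s) (τ s)).2 (not_le.1 hlt)
      rw [ng_mem_W] at h1
      exact lt_irrefl _ ((hmem s _).1 h1)
    · by_contra hlt
      have h1 := (hmem s (τ (ng s))).2 (not_le.1 hlt)
      rw [← ng_mem_W] at h1
      exact lt_irrefl _ ((hmem (ng s) _).1 h1)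
  set G := univ.filter (Good (F := F)) with hG
  set U := G.filter (fun s => ¬ τ s < τ (T s)) with hU
  set D := G.filter (fun s => τ s < τ (T s)) with hD
  have hcard : G.card = D.card + U.card := (Finset.card_filter_add_card_filter_not _).symm
  have hDU : D.card ≤ U.card := by
    apply Finset.card_le_card_of_injOn T
    · intro s hs
      rw [Finset.mem_coe] at hs
      rw [hD, mem_filter, hG, mem_filter] at hs
      rw [Finset.mem_coe, hU, mem_filter, hG, mem_filter]
      refine ⟨⟨mem_univ _, (good_T s).2 hs.1.2⟩, ?_⟩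
      rw [T_T, hng]
      exact not_lt.2 hs.2.le
    · exact T_inj.injOn
  have hUρ : ∀ s ∈ U, ρ s ∉ U := by
    intro s hs hs'
    rw [hU, mem_filter, hG, mem_filter] at hs hs'
    obtain ⟨⟨-, g1⟩, u1⟩ := hs
    obtain ⟨⟨-, g2⟩, u2⟩ := hs'
    have h1 : τ (ρ s) < τ (T s) := hstep (T s) (ρ s) ((good_T s).2 g1) g2 (Or.inl (R_T s))
    have h2 : τ (ng s) < τ (T (ρ s)) :=
      hstep (T (ρ s)) (ng s) ((good_T _).2 g2) ((good_ng s).2 g1) (Or.inr (L_T_ρ s))
    rw [hng] at h2
    omega
  have hUV : U ⊆ V F := by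
    intro s hs
    rw [hU, mem_filter, hG, mem_filter] at hs
    unfold V
    rw [mem_filter]
    exact ⟨mem_univ _, hs.1.2.1⟩
  have h3U : 3 * U.card ≤ (V F).card := by
    have e1 : (U.image ρ).card = U.card := Finset.card_image_of_injective _ ρ_inj
    have e2 : ((U.image ρ).image ρ).card = U.card := by
      rw [Finset.card_image_of_injective _ ρ_inj, e1]
    have d1 : Disjoint U (U.image ρ) := by
      rw [Finset.disjoint_left]
      intro s hs hs'
      obtain ⟨t, ht, rfl⟩ := Finset.mem_image.1 hs'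
      exact hUρ t ht hs
    have d2 : Disjoint U ((U.image ρ).image ρ) := by
      rw [Finset.disjoint_left]
      intro s hs hs'
      obtain ⟨t', ht', rfl⟩ := Finset.mem_image.1 hs'
      obtain ⟨t, ht, rfl⟩ := Finset.mem_image.1 ht'
      apply hUρ _ hs
      rw [ρ3]
      exact ht
    have d3 : Disjoint (U.image ρ) ((U.image ρ).image ρ) := by
      rw [Finset.disjoint_left]
      intro s hs hs'
      obtain ⟨a, ha, rfl⟩ := Finset.mem_image.1 hs
      obtain ⟨t', ht', h1⟩ := Finset.mem_image.1 hs'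
      obtain ⟨t, ht, rfl⟩ := Finset.mem_image.1 ht'
      have h2 : ρ t = a := ρ_inj h1
      exact hUρ t ht (h2 ▸ ha)
    have hsub : U ∪ (U.image ρ) ∪ ((U.image ρ).image ρ) ⊆ V F := by
      intro s hs
      rw [mem_union, mem_union] at hs
      rcases hs with (hs | hs) | hs
      · exact hUV hs
      · obtain ⟨t, ht, rfl⟩ := Finset.mem_image.1 hs
        exact ρ_mem_V (hUV ht)
      · obtain ⟨t', ht', rfl⟩ := Finset.mem_image.1 hs
        obtain ⟨t, ht, rfl⟩ := Finset.mem_image.1 ht'
        exact ρ_mem_V (ρ_mem_V (hUV ht))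
    have := Finset.card_le_card hsub
    rw [Finset.card_union_of_disjoint (Finset.disjoint_union_left.2 ⟨d2, d3⟩),
      Finset.card_union_of_disjoint d1, e1, e2] at this
    omega
  omega

theorem card_V : (V F).card = ∏ i, (Fintype.card (F i) ^ 2 - 1) := by
  have : V F = Fintype.piFinset (fun i => univ.filter (fun v : F i × F i => ¬ (v.1 = 0 ∧ v.2 = 0))) := by
    ext s
    simp [V, Fintype.mem_piFinset]
  rw [this, Fintype.card_piFinset]
  refine Finset.prod_congr rfl fun i _ => ?_
  have h1 : univ.filter (fun v : F i × F i => ¬ (v.1 = 0 ∧ v.2 = 0)) = univ.erase 0 := by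
    ext v
    simp [Prod.ext_iff]
  rw [h1, Finset.card_erase_of_mem (mem_univ _), Finset.card_univ, Fintype.card_prod, sq]

theorem card_B1 : (univ.filter (fun s : St F => ∀ i, (s i).1 ≠ 0)).card =
    ∏ i, ((Fintype.card (F i) - 1) * Fintype.card (F i)) := by
  have : univ.filter (fun s : St F => ∀ i, (s i).1 ≠ 0) =
      Fintype.piFinset (fun i => (univ.erase (0 : F i)) ×ˢ (univ : Finset (F i))) := by
    ext s
    simp [Fintype.mem_piFinset]
  rw [this, Fintype.card_piFinset]
  refine Finset.prod_congr rfl fun i _ => ?_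
  rw [Finset.card_product, Finset.card_erase_of_mem (mem_univ _), Finset.card_univ]

theorem card_B2 : (univ.filter (fun s : St F => ∀ i, (s i).2 ≠ 0)).card =
    ∏ i, ((Fintype.card (F i) - 1) * Fintype.card (F i)) := by
  have : univ.filter (fun s : St F => ∀ i, (s i).2 ≠ 0) =
      Fintype.piFinset (fun i => (univ : Finset (F i)) ×ˢ (univ.erase (0 : F i))) := by
    ext s
    simp [Fintype.mem_piFinset]
  rw [this, Fintype.card_piFinset]
  refine Finset.prod_congr rfl fun i _ => ?_
  rw [Finset.card_product, Finset.card_erase_of_mem (mem_univ _), Finset.card_univ, mul_comm]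

/-- There is a state from which arbitrarily long good paths start. -/
theorem exists_inf (h : 6 * ∏ i, ((Fintype.card (F i) - 1) * Fintype.card (F i)) <
    ∏ i, (Fintype.card (F i) ^ 2 - 1)) : ∃ s : St F, ∀ n, s ∈ W F n := by
  by_contra hne
  push Not at hne
  have h1 := count hne
  have h2 : V F ⊆ (univ.filter (Good (F := F))) ∪
      ((univ.filter (fun s : St F => ∀ i, (s i).1 ≠ 0)) ∪
        (univ.filter (fun s : St F => ∀ i, (s i).2 ≠ 0))) := by
    intro s hs
    unfold V at hs
    rw [mem_filter] at hs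
    simp only [mem_union, mem_filter, mem_univ, true_and]
    by_cases ha : ∀ i, (s i).1 ≠ 0
    · exact Or.inr (Or.inl ha)
    by_cases hb : ∀ i, (s i).2 ≠ 0
    · exact Or.inr (Or.inr hb)
    push Not at ha hb
    exact Or.inl ⟨hs.2, ha, hb⟩
  have h3 := (Finset.card_le_card h2).trans (Finset.card_union_le _ _)
  have h4 := Finset.card_union_le (univ.filter (fun s : St F => ∀ i, (s i).1 ≠ 0))
    (univ.filter (fun s : St F => ∀ i, (s i).2 ≠ 0))
  rw [card_B1, card_B2] at h4
  rw [card_V] at h1 h3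
  omega

/-- the set of these states is closed under one of the two moves -/
theorem inf_step {s : St F} (h : ∀ n, s ∈ W F n) :
    (∀ n, R s ∈ W F n) ∨ (∀ n, L s ∈ W F n) := by
  by_contra hne
  push Not at hne
  obtain ⟨⟨a, ha⟩, ⟨b, hb⟩⟩ := hne
  have h1 := h (max a b + 1)
  rw [mem_W_succ] at h1
  rcases h1.2 with h2 | h2
  · exact ha (W_anti (le_max_left a b) h2)
  · exact hb (W_anti (le_max_right a b) h2)

end Abstract

/-! ### Lifting to natural numbers -/

section Lift

variable (P : Finset ℕ)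

abbrev FP (P : Finset ℕ) : {p // p ∈ P} → Type := fun p => ZMod p.1

/-- the state of a pair of natural numbers -/
def st (X Y : ℕ) : St (FP P) := fun p => ((X : ZMod p.1), (Y : ZMod p.1))

theorem infiniteType (hP : ∀ p ∈ P, p.Prime)
    (h : 6 * ∏ p ∈ P, ((p - 1) * p) < ∏ p ∈ P, (p ^ 2 - 1)) : ¬ FiniteType P := by
  classical
  have inst1 : ∀ p : {p // p ∈ P}, Fact (Nat.Prime p.1) := fun p => ⟨hP p.1 p.2⟩
  have h1 : 6 * ∏ i : {p // p ∈ P}, ((Fintype.card (FP P i) - 1) * Fintype.card (FP P i)) <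
      ∏ i : {p // p ∈ P}, (Fintype.card (FP P i) ^ 2 - 1) := by
    simp only [FP, ZMod.card]
    rw [Finset.prod_coe_sort P (fun p => (p - 1) * p), Finset.prod_coe_sort P (fun p => p ^ 2 - 1)]
    exact h
  obtain ⟨s, hs⟩ := exists_inf (F := FP P) h1
  -- lift to natural numbers
  have hlift : ∀ a : (p : {p // p ∈ P}) → ZMod p.1, ∃ x : ℕ, 0 < x ∧ ∀ p, (x : ZMod p.1) = a p := by
    intro a
    let a' : {p // p ∈ P} → ℕ := fun p => (a p).val
    obtain ⟨k, hk⟩ := Nat.chineseRemainderOfFinset a' (fun p => p.1) Finset.univ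
      (fun p _ => (hP p.1 p.2).ne_zero) (by
        intro p _ q _ hpq
        exact (Nat.coprime_primes (hP p.1 p.2) (hP q.1 q.2)).2 (fun e => hpq (Subtype.ext e)))
    refine ⟨k + ∏ p ∈ P, p, ?_, ?_⟩
    · have : 0 < ∏ p ∈ P, p := Finset.prod_pos (fun p hp => (hP p hp).pos)
      omega
    · intro p
      have e1 : ((∏ p ∈ P, p : ℕ) : ZMod p.1) = 0 :=
        (ZMod.natCast_eq_zero_iff _ _).2 (Finset.dvd_prod_of_mem _ p.2)
      have e2 : (k : ZMod p.1) = (a' p : ZMod p.1) :=
        (ZMod.natCast_eq_natCast_iff _ _ _).2 (hk p (Finset.mem_univ _))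
      rw [Nat.cast_add, e1, add_zero, e2]
      exact ZMod.natCast_zmod_val (a p)
  obtain ⟨x, hx, hx'⟩ := hlift (fun p => (s p).1)
  obtain ⟨y, hy, hy'⟩ := hlift (fun p => (s p).2)
  have hst : st P x y = s := by
    funext p
    exact Prod.ext (hx' p) (hy' p)
  have key : ∀ n : ℕ, ∃ X Y : ℕ, Tree P x y X Y ∧ 0 < X ∧ 0 < Y ∧ n ≤ X + Y ∧
      ∀ k, st P X Y ∈ W (FP P) k := by
    intro n
    induction n with
    | zero => exact ⟨x, y, Tree.root, hx, hy, Nat.zero_le _, by rw [hst]; exact hs⟩
    | succ n ih =>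
      obtain ⟨X, Y, h2, hX, hY, hn, hW⟩ := ih
      have hg := (mem_W_zero _).1 (hW 0)
      have c1 : Nat.gcd (Nat.gcd X Y) (∏ p ∈ P, p) = 1 := by
        apply Nat.Coprime.prod_right
        intro p hp
        have hpp := hP p hp
        refine ((Nat.Prime.coprime_iff_not_dvd hpp).2 fun hd => ?_).symm
        apply hg.1 ⟨p, hp⟩
        exact ⟨(ZMod.natCast_eq_zero_iff _ _).2 (hd.trans (Nat.gcd_dvd_left X Y)),
          (ZMod.natCast_eq_zero_iff _ _).2 (hd.trans (Nat.gcd_dvd_right X Y))⟩
      have c2 : ∃ p ∈ P, p ∣ X := by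
        obtain ⟨p, hp⟩ := hg.2.1
        exact ⟨p.1, p.2, (ZMod.natCast_eq_zero_iff _ _).1 hp⟩
      have c3 : ∃ p ∈ P, p ∣ Y := by
        obtain ⟨p, hp⟩ := hg.2.2
        exact ⟨p.1, p.2, (ZMod.natCast_eq_zero_iff _ _).1 hp⟩
      rcases inf_step hW with h3 | h3
      · refine ⟨X + Y, Y, Tree.left h2 c1 c2 c3, by omega, hY, by omega, ?_⟩
        have e : st P (X + Y) Y = R (st P X Y) := by
          funext p
          simp only [st, R, Nat.cast_add]
        rw [e]
        exact h3
      · refine ⟨X, X + Y, Tree.right h2 c1 c2 c3, hX, by omega, by omega, ?_⟩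
        have e : st P X (X + Y) = L (st P X Y) := by
          funext p
          simp only [st, L, Nat.cast_add]
        rw [e]
        exact h3
  intro hfin
  have hf := (hfin x y hx hy).image (fun z : ℕ × ℕ => z.1 + z.2)
  obtain ⟨B, hB⟩ := hf.bddAbove
  obtain ⟨X, Y, h2, -, -, hn, -⟩ := key (B + 1)
  have := hB (Set.mem_image_of_mem (fun z : ℕ × ℕ => z.1 + z.2) (show (X, Y) ∈
    {z : ℕ × ℕ | Tree P x y z.1 z.2} from h2))
  simp only at this
  omega

end Lift

theorem one_add_sum_le (P : Finset ℕ) (a : ℕ → ℝ) (ha : ∀ n, 0 ≤ a n) :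
    1 + ∑ p ∈ P, a p ≤ ∏ p ∈ P, (1 + a p) := by
  classical
  induction P using Finset.induction_on with
  | empty => simp
  | insert p P hp ih =>
    rw [Finset.sum_insert hp, Finset.prod_insert hp]
    have h1 : 0 ≤ ∑ p ∈ P, a p := Finset.sum_nonneg (fun p _ => ha p)
    nlinarith [ha p, mul_nonneg (ha p) h1]

/-- There are finite sets of arbitrarily large primes of infinite type. -/
theorem exists_large (N : ℕ) : ∃ P : Finset ℕ, (∀ p ∈ P, p.Prime ∧ N < p) ∧ ¬ FiniteType P := by
  classical
  -- partial sums of reciprocals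
  have hdiv : ¬ Summable (Set.indicator {p : ℕ | p.Prime ∧ N < p} (fun n : ℕ => (1 : ℝ) / n)) := by
    intro hsum
    apply not_summable_one_div_on_primes
    have h2 : Summable (Set.indicator {p : ℕ | p.Prime ∧ p ≤ N} (fun n : ℕ => (1 : ℝ) / n)) := by
      apply summable_of_hasFiniteSupport
      apply Set.Finite.subset (Set.finite_Iic N)
      intro n hn
      rw [Function.mem_support] at hn
      have := Set.mem_of_indicator_ne_zero hn
      exact this.2
    have h3 := hsum.add h2
    refine h3.congr fun n => ?_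
    simp only [Set.indicator_apply, Set.mem_ofPred_eq]
    by_cases hp : n.Prime
    · by_cases hN : N < n
      · have : ¬ n ≤ N := by omega
        simp [hp, hN, this]
      · have : n ≤ N := by omega
        simp [hp, hN, this]
    · simp [hp]
  have hlarge : ∃ P : Finset ℕ, (∀ p ∈ P, p.Prime ∧ N < p) ∧ (5 : ℝ) < ∑ p ∈ P, (1 : ℝ) / p := by
    by_contra hne
    push Not at hne
    apply hdiv
    refine summable_of_sum_le (c := 5) (fun n => ?_) (fun u => ?_)
    · exact Set.indicator_nonneg (fun n _ => by positivity) n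
    · have h4 := hne (u.filter (fun p => p.Prime ∧ N < p)) (fun p hp => (mem_filter.1 hp).2)
      rw [Finset.sum_filter] at h4
      refine le_trans (le_of_eq ?_) h4
      refine Finset.sum_congr rfl fun n _ => ?_
      simp only [Set.indicator_apply, Set.mem_ofPred_eq]
  obtain ⟨P, hP, hsum⟩ := hlarge
  refine ⟨P, hP, infiniteType P (fun p hp => (hP p hp).1) ?_⟩
  -- `∏ (1 + 1/p) ≥ 1 + ∑ 1/p > 6`
  have h5 : (1 : ℝ) + ∑ p ∈ P, (1 : ℝ) / p ≤ ∏ p ∈ P, (1 + (1 : ℝ) / p) :=
    one_add_sum_le P (fun p => (1 : ℝ) / p) (fun p => by positivity)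
  have h6 : (6 : ℝ) < ∏ p ∈ P, (1 + (1 : ℝ) / p) := by linarith
  have hpos : (0 : ℝ) < ∏ p ∈ P, (((p : ℝ) - 1) * p) := by
    apply Finset.prod_pos
    intro p hp
    have : (1 : ℝ) < p := by exact_mod_cast (hP p hp).1.one_lt
    exact mul_pos (by linarith) (by linarith)
  have h7 : (6 : ℝ) * ∏ p ∈ P, (((p : ℝ) - 1) * p) < ∏ p ∈ P, ((p : ℝ) ^ 2 - 1) := by
    calc (6 : ℝ) * ∏ p ∈ P, (((p : ℝ) - 1) * p)
        < (∏ p ∈ P, (1 + (1 : ℝ) / p)) * ∏ p ∈ P, (((p : ℝ) - 1) * p) :=
          mul_lt_mul_of_pos_right h6 hpos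
      _ = ∏ p ∈ P, ((p : ℝ) ^ 2 - 1) := by
          rw [← Finset.prod_mul_distrib]
          refine Finset.prod_congr rfl fun p hp => ?_
          have : (p : ℝ) ≠ 0 := by exact_mod_cast (hP p hp).1.ne_zero
          field_simp
          ring
  have h8 : ((6 * ∏ p ∈ P, ((p - 1) * p) : ℕ) : ℝ) = (6 : ℝ) * ∏ p ∈ P, (((p : ℝ) - 1) * p) := by
    push_cast
    congr 1
    refine Finset.prod_congr rfl fun p hp => ?_
    rw [Nat.cast_sub (hP p hp).1.one_lt.le]
    simp
  have h9 : ((∏ p ∈ P, (p ^ 2 - 1) : ℕ) : ℝ) = ∏ p ∈ P, ((p : ℝ) ^ 2 - 1) := by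
    push_cast
    refine Finset.prod_congr rfl fun p hp => ?_
    rw [Nat.cast_sub (Nat.one_le_pow _ _ (hP p hp).1.pos)]
    simp
  rw [← h8, ← h9] at h7
  exact_mod_cast h7

theorem finiteType_empty : FiniteType ∅ := by
  intro x y _ _
  apply Set.Finite.subset (Set.finite_singleton (x, y))
  rintro ⟨a, b⟩ h
  simp only [Set.mem_ofPred_eq] at h
  cases h with
  | root => rfl
  | right h _ hX _ => obtain ⟨p, hp, -⟩ := hX; simp at hp
  | left h _ hX _ => obtain ⟨p, hp, -⟩ := hX; simp at hp

/-- Every infinite type set contains a minimal one. -/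
theorem exists_minimal (P : Finset ℕ) (h : ¬ FiniteType P) :
    ∃ Q ⊆ P, ¬ FiniteType Q ∧ ∀ Q' ⊂ Q, FiniteType Q' := by
  induction P using Finset.strongInduction with
  | H P ih =>
    by_cases hm : ∀ Q' ⊂ P, FiniteType Q'
    · exact ⟨P, subset_rfl, h, hm⟩
    · push Not at hm
      obtain ⟨Q', hQ', hinf⟩ := hm
      obtain ⟨Q, hQ, h1, h2⟩ := ih Q' hQ' hinf
      exact ⟨Q, hQ.trans hQ'.subset, h1, h2⟩

/-- There are infinitely many primitive sets. -/
theorem infinite_primitive :
    {P : Finset ℕ | Primitive P}.Infinite := by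
  intro hfin
  have h1 : (⋃ P ∈ {P : Finset ℕ | Primitive P}, (P : Set ℕ)).Finite := hfin.biUnion (fun P _ => P.finite_toSet)
  obtain ⟨N, hN⟩ := h1.bddAbove
  obtain ⟨P, hP, hinf⟩ := exists_large N
  obtain ⟨Q, hQP, hQ1, hQ2⟩ := exists_minimal P hinf
  have hQne : Q.Nonempty := by
    rw [Finset.nonempty_iff_ne_empty]
    rintro rfl
    exact hQ1 finiteType_empty
  obtain ⟨p, hp⟩ := hQne
  have h2 : p ≤ N := hN (Set.mem_biUnion (show Q ∈ {P : Finset ℕ | Primitive P} from
      ⟨fun p hp => (hP p (hQP hp)).1, hQ1, hQ2⟩) hp)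
  have h3 := (hP p (hQP hp)).2
  omega

end Pool.Agent.X36.Apt
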