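import Mathlib

/-!
# Additive prime trees: definitions
-/

set_option autoImplicit false

namespace Pool.Agent.X36.Apt

/-- `Tree P x y X Y` says that `(X, Y)` belongs to the additive prime tree `APT_P(x, y)`: the
smallest set of pairs that contains `(x, y)` and contains with `(X, Y)` also `(X, X + Y)` and
`(X + Y, Y)` whenever `gcd (X, Y, N(P)) = 1` and `X` and `Y` are both divisible by some element
of `P`; here `N(P)` is the product of the elements of `P`. -/
inductive Tree (P : Finset ℕ) (x y : ℕ) : ℕ → ℕ → Prop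
  | root : Tree P x y x y
  | right {X Y : ℕ} (h : Tree P x y X Y) (hg : Nat.gcd (Nat.gcd X Y) (∏ p ∈ P, p) = 1)
      (hX : ∃ p ∈ P, p ∣ X) (hY : ∃ p ∈ P, p ∣ Y) : Tree P x y X (X + Y)
  | left {X Y : ℕ} (h : Tree P x y X Y) (hg : Nat.gcd (Nat.gcd X Y) (∏ p ∈ P, p) = 1)
      (hX : ∃ p ∈ P, p ∣ X) (hY : ∃ p ∈ P, p ∣ Y) : Tree P x y (X + Y) Y

/-- `P` is of finite type: `APT_P(x, y)` is finite for all positive integers `x`, `y`. -/
def FiniteType (P : Finset ℕ) : Prop :=
  ∀ x y : ℕ, 0 < x → 0 < y → {z : ℕ × ℕ | Tree P x y z.1 z.2}.Finite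

/-- `P` is a primitive set of primes: its elements are primes, it is not of finite type, and all its
proper subsets are of finite type. -/
def Primitive (P : Finset ℕ) : Prop :=
  (∀ p ∈ P, p.Prime) ∧ ¬ FiniteType P ∧ ∀ Q ⊂ P, FiniteType Q

end Pool.Agent.X36.Apt
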