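import Mathlib

/-! Two trees of size 17: common non-trivial partitions, general lemmas and the exhaustive count. -/

set_option autoImplicit false
set_option linter.unusedVariables false

namespace Pool.Agent.X36.Cv17

/-- A semilabelled binary tree of size `n`: a finite tree all of whose vertices have degree `1` or
`3`, with an injective labelling `leaf` of its degree-one vertices by `Fin n` that hits all of
them. -/
structure SBTree (n : ℕ) where
  /-- the vertices -/
  V : Type
  finV : Finite V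
  /-- the tree -/
  G : SimpleGraph V
  isTree : G.IsTree
  deg : ∀ v, (G.neighborSet v).ncard = 1 ∨ (G.neighborSet v).ncard = 3
  /-- the labelled leaves -/
  leaf : Fin n → V
  leaf_inj : Function.Injective leaf
  leaf_iff : ∀ v, (G.neighborSet v).ncard = 1 ↔ ∃ i, leaf i = v

/-- `Conv T`: the set of partitions (as equivalence relations) of `Fin n` obtained by deleting a set
`S` of edges of `T` and putting two labels in one class when their leaves are still connected. -/
def Conv {n : ℕ} (T : SBTree n) : Set (Setoid (Fin n)) :=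
  {r | ∃ S : Set (Sym2 T.V), ∀ i j, r i j ↔ (T.G.deleteEdges S).Reachable (T.leaf i) (T.leaf j)}

/-- `r` has at least two classes of size at least `2`. -/
def Nontriv {n : ℕ} (r : Setoid (Fin n)) : Prop :=
  ∃ i i' j j' : Fin n, i ≠ i' ∧ r i i' ∧ j ≠ j' ∧ r j j' ∧ ¬ r i j

/-- `a T F k`: the number of non-trivial partitions with exactly `k` classes that belong to both
`T` and `F`. -/
noncomputable def a {n : ℕ} (T F : SBTree n) (k : ℕ) : ℕ :=
  {r : Setoid (Fin n) | r ∈ Conv T ∧ r ∈ Conv F ∧ Nat.card (Quotient r) = k ∧ Nontriv r}.ncard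

/-! ### Trees from parent maps -/

def gr (par : Fin 32 → Fin 32) : SimpleGraph (Fin 32) := SimpleGraph.fromRel (fun x y => par x = y)

theorem gr_adj {par : Fin 32 → Fin 32} {x y : Fin 32} :
    (gr par).Adj x y ↔ x ≠ y ∧ (par x = y ∨ par y = x) := SimpleGraph.fromRel_adj _ _ _

structure Ok (par : Fin 32 → Fin 32) (sg : Fin 32 → ℕ) : Prop where
  root : par 16 = 16
  bit : ∀ x, x ≠ 16 → sg x ^^^ sg (par x) = 2 ^ (x : ℕ)
  up : ∀ x, par^[16] x = 16
  deg : ∀ v : Fin 32, (Finset.univ.filter (fun y => v ≠ y ∧ (par v = y ∨ par y = v))).card =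
    if (v : ℕ) < 17 then 1 else 3

theorem cross {par : Fin 32 → Fin 32} {sg : Fin 32 → ℕ} (ok : Ok par sg)
    {H : SimpleGraph (Fin 32)} (hH : H ≤ gr par) (e : ℕ) {x y : Fin 32} (w : H.Walk x y)
    (hb : (sg x).testBit e ≠ (sg y).testBit e) :
    ∃ z : Fin 32, (z : ℕ) = e ∧ z ≠ 16 ∧ H.Reachable x z ∧ H.Adj z (par z) := by
  induction w with
  | nil => exact absurd rfl hb
  | @cons u v w hadj p ih =>
    by_cases hc : (sg u).testBit e = (sg v).testBit e
    · obtain ⟨z, h1, h2, h3, h4⟩ := ih (by rw [← hc]; exact hb)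
      exact ⟨z, h1, h2, hadj.reachable.trans h3, h4⟩
    · have hx : (sg u ^^^ sg v).testBit e = true := by
        rw [Nat.testBit_xor]
        cases h1 : (sg u).testBit e <;> cases h2 : (sg v).testBit e <;> simp_all
      have hG := gr_adj.1 (hH hadj)
      obtain ⟨hne, h1 | h1⟩ := hG
      · have hu : u ≠ 16 := by
          intro hu; rw [hu, ok.root] at h1; exact hne (by rw [hu, h1])
        have := ok.bit u hu
        rw [h1] at this
        rw [this, Nat.testBit_two_pow] at hx
        refine ⟨u, by simpa using hx, hu, SimpleGraph.Reachable.refl u, ?_⟩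
        rw [h1]; exact hadj
      · have hv : v ≠ 16 := by
          intro hv; rw [hv, ok.root] at h1; exact hne (by rw [hv, h1])
        have := ok.bit v hv
        rw [h1, Nat.xor_comm] at this
        rw [this, Nat.testBit_two_pow] at hx
        refine ⟨v, by simpa using hx, hv, hadj.reachable, ?_⟩
        rw [h1]; exact hadj.symm

theorem reach_up (par : Fin 32 → Fin 32) (x : Fin 32) (k : ℕ) :
    (gr par).Reachable x (par^[k] x) := by
  induction k with
  | zero => exact SimpleGraph.Reachable.refl x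
  | succ k ih =>
    rw [Function.iterate_succ_apply']
    refine ih.trans ?_
    by_cases h : par^[k] x = par (par^[k] x)
    · rw [← h]
    · exact SimpleGraph.Adj.reachable (gr_adj.2 ⟨h, Or.inl rfl⟩)

theorem gr_tree {par : Fin 32 → Fin 32} {sg : Fin 32 → ℕ} (ok : Ok par sg) :
    (gr par).IsTree := by
  have hr : ∀ x, (gr par).Reachable x 16 := by
    intro x
    have := reach_up par x 16
    rwa [ok.up x] at this
  have hcon : (gr par).Connected := by
    have : Nonempty (Fin 32) := ⟨16⟩
    exact SimpleGraph.Connected.mk (fun x y => (hr x).trans (hr y).symm)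
  have hac : (gr par).IsAcyclic := by
    rw [SimpleGraph.isAcyclic_iff_forall_isBridge]
    intro e
    induction e using Sym2.ind with
    | _ u v =>
      intro he
      rw [SimpleGraph.mem_edgeSet] at he
      rw [SimpleGraph.isBridge_iff]
      -- reduce to `v = par u`
      have key : ∀ u v : Fin 32, u ≠ v → par u = v →
          ¬ ((gr par).deleteEdges {s(u, v)}).Reachable u v := by
        rintro u v hne hp ⟨w⟩
        have hu : u ≠ 16 := by
          intro hu; rw [hu, ok.root] at hp; exact hne (by rw [hu, hp])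
        have hb := ok.bit u hu
        rw [hp] at hb
        have hbit : (sg u).testBit (u : ℕ) ≠ (sg v).testBit (u : ℕ) := by
          intro hh
          have h2 : (sg u ^^^ sg v).testBit (u : ℕ) = true := by
            rw [hb, Nat.testBit_two_pow]; simp
          rw [Nat.testBit_xor, hh] at h2
          simp at h2
        obtain ⟨z, hz, hz11, -, hadj⟩ := cross ok (SimpleGraph.deleteEdges_le _) (u : ℕ) w hbit
        have hzu : z = u := Fin.ext hz
        rw [hzu, hp, SimpleGraph.deleteEdges_adj] at hadj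
        exact hadj.2 rfl
      obtain ⟨hne, h1 | h1⟩ := gr_adj.1 he
      · exact key u v hne h1
      · intro hreach
        rw [Sym2.eq_swap] at hreach
        exact key v u (Ne.symm hne) h1 hreach.symm
  exact ⟨hcon, hac⟩

theorem deg_eq {par : Fin 32 → Fin 32} {sg : Fin 32 → ℕ} (ok : Ok par sg) (v : Fin 32) :
    ((gr par).neighborSet v).ncard = if (v : ℕ) < 17 then 1 else 3 := by
  have : (gr par).neighborSet v =
      ((Finset.univ.filter (fun y => v ≠ y ∧ (par v = y ∨ par y = v)) : Finset (Fin 32)) :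
        Set (Fin 32)) := by
    ext y
    rw [SimpleGraph.mem_neighborSet, gr_adj]
    simp
  rw [this, Set.ncard_coe_finset, ok.deg]

def lf (i : Fin 17) : Fin 32 := Fin.castLE (by norm_num) i

def mk {par : Fin 32 → Fin 32} {sg : Fin 32 → ℕ} (ok : Ok par sg) : SBTree 17 where
  V := Fin 32
  finV := inferInstance
  G := gr par
  isTree := gr_tree ok
  deg := by
    intro v
    rw [deg_eq ok v]
    split_ifs <;> simp
  leaf := lf
  leaf_inj := by
    intro i j h
    exact Fin.castLE_injective (by norm_num) h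
  leaf_iff := by
    intro v
    rw [deg_eq ok v]
    constructor
    · intro h
      have hv : (v : ℕ) < 17 := by
        by_contra hc
        rw [if_neg hc] at h
        omega
      exact ⟨⟨v, hv⟩, Fin.ext rfl⟩
    · rintro ⟨i, rfl⟩
      have : ((lf i : Fin 32) : ℕ) < 17 := i.isLt
      rw [if_pos this]

/-- classes of a partition of the tree do not cross the same edge. -/
theorem crit {par : Fin 32 → Fin 32} {sg : Fin 32 → ℕ} (ok : Ok par sg) {r : Setoid (Fin 17)}
    (hr : r ∈ Conv (mk ok)) {i i' j j' : Fin 17} {e : ℕ} (h1 : r i i') (h2 : r j j')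
    (hb1 : (sg (lf i) ^^^ sg (lf i')).testBit e = true)
    (hb2 : (sg (lf j) ^^^ sg (lf j')).testBit e = true) : r i j := by
  obtain ⟨S, hS⟩ := hr
  obtain ⟨w1⟩ := (hS i i').1 h1
  obtain ⟨w2⟩ := (hS j j').1 h2
  have d1 : (sg (lf i)).testBit e ≠ (sg (lf i')).testBit e := by
    intro hh; rw [Nat.testBit_xor, hh] at hb1; simp at hb1
  have d2 : (sg (lf j)).testBit e ≠ (sg (lf j')).testBit e := by
    intro hh; rw [Nat.testBit_xor, hh] at hb2; simp at hb2
  obtain ⟨z, hz, -, hr1, -⟩ := cross ok (SimpleGraph.deleteEdges_le S) e w1 d1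
  obtain ⟨z', hz', -, hr2, -⟩ := cross ok (SimpleGraph.deleteEdges_le S) e w2 d2
  have : z = z' := Fin.ext (by omega)
  subst this
  exact (hS i j).2 (hr1.trans hr2.symm)


/-- climb towards the root while not above `j` -/
def clm (par : Fin 32 → Fin 32) (sg : Fin 32 → ℕ) (j x : Fin 32) : Fin 32 :=
  if x = 16 ∨ (sg j).testBit x = true then x else par x

/-- further checks on a tree -/
structure Ok2 (par : Fin 32 → Fin 32) (sg : Fin 32 → ℕ) (ya yb : Fin 32 → Fin 32) : Prop where
  anc : ∀ x : Fin 32, x ≠ 16 → ∀ i : Fin 17, (sg (lf i)).testBit x = true →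
    par x = 16 ∨ (sg (lf i)).testBit (par x) = true
  self : ∀ i : Fin 17, lf i = 16 ∨ (sg (lf i)).testBit (lf i) = true
  meet : ∀ i j : Fin 17, (clm par sg (lf j))^[16] (lf i) = (clm par sg (lf i))^[16] (lf j)
  inner : ∀ x : Fin 32, 17 ≤ (x : ℕ) → ∀ u : Fin 17,
    ((sg (lf u)).testBit x = ((sg (lf u)).testBit (ya x) || (sg (lf u)).testBit (yb x))) ∧
    ((sg (lf u)).testBit (ya x) && (sg (lf u)).testBit (yb x)) = false
  inc : ∀ x : Fin 32, 17 ≤ (x : ℕ) → ∀ e : Fin 32, e ≠ 16 → par e = x → e = ya x ∨ e = yb x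
  out : ∀ u0 : Fin 17, ∀ e : Fin 32, e ≠ 16 → (e = lf u0 ∨ par e = lf u0) → ∀ u u' : Fin 17,
    (sg (lf u)).testBit e = true → (sg (lf u')).testBit e = false → u = u0 ∨ u' = u0

def Cr (sg : Fin 32 → ℕ) (r : Setoid (Fin 17)) (k : Fin 17) (e : Fin 32) : Prop :=
  ∃ k1 k2, r k k1 ∧ r k k2 ∧ (sg (lf k1)).testBit e = true ∧ (sg (lf k2)).testBit e = false

def Tch (par : Fin 32 → Fin 32) (sg : Fin 32 → ℕ) (r : Setoid (Fin 17)) (x : Fin 32) (k : Fin 17) :
    Prop :=
  lf k = x ∨ ∃ e : Fin 32, e ≠ 16 ∧ (e = x ∨ par e = x) ∧ Cr sg r k e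

def Crit (sg : Fin 32 → ℕ) (r : Setoid (Fin 17)) : Prop :=
  ∀ (i i' j j' : Fin 17) (e : ℕ), r i i' → r j j' →
    (sg (lf i) ^^^ sg (lf i')).testBit e = true → (sg (lf j) ^^^ sg (lf j')).testBit e = true → r i j

theorem xor_bit {a b e : ℕ} (h : a.testBit e ≠ b.testBit e) : (a ^^^ b).testBit e = true := by
  rw [Nat.testBit_xor]
  cases h1 : a.testBit e <;> cases h2 : b.testBit e <;> simp_all

def br (sg : Fin 32 → ℕ) (ya yb : Fin 32 → Fin 32) (x : Fin 32) (u : Fin 17) : Fin 3 :=
  if (sg (lf u)).testBit (ya x) = true then 0 else if (sg (lf u)).testBit (yb x) = true then 1 else 2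

def ed (ya yb : Fin 32 → Fin 32) (x : Fin 32) (c : Fin 3) : Fin 32 :=
  if c = 0 then ya x else if c = 1 then yb x else x

theorem br_bit {par : Fin 32 → Fin 32} {sg : Fin 32 → ℕ} {ya yb : Fin 32 → Fin 32}
    (ok2 : Ok2 par sg ya yb) {x : Fin 32} (hx : 17 ≤ (x : ℕ)) (c : Fin 3) {u v : Fin 17}
    (hu : br sg ya yb x u = c) (hv : br sg ya yb x v ≠ c) :
    (sg (lf u)).testBit (ed ya yb x c) ≠ (sg (lf v)).testBit (ed ya yb x c) := by
  have iu := ok2.inner x hx u
  have iv := ok2.inner x hx v
  subst hu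
  unfold br at hv ⊢
  cases h1 : (sg (lf u)).testBit (ya x) <;> cases h2 : (sg (lf u)).testBit (yb x) <;>
    cases h3 : (sg (lf v)).testBit (ya x) <;> cases h4 : (sg (lf v)).testBit (yb x) <;>
    simp_all [ed]

theorem br_diff {par : Fin 32 → Fin 32} {sg : Fin 32 → ℕ} {ya yb : Fin 32 → Fin 32}
    (ok2 : Ok2 par sg ya yb) {x : Fin 32} (hx : 17 ≤ (x : ℕ)) {e : Fin 32} (he : e ≠ 16)
    (hinc : e = x ∨ par e = x) {u v : Fin 17} (h1 : (sg (lf u)).testBit e = true)
    (h2 : (sg (lf v)).testBit e = false) : br sg ya yb x u ≠ br sg ya yb x v := by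
  have iu := ok2.inner x hx u
  have iv := ok2.inner x hx v
  have hcase : e = x ∨ e = ya x ∨ e = yb x := by
    rcases hinc with h | h
    · left; exact h
    · right; exact ok2.inc x hx e he h
  unfold br
  rcases hcase with rfl | rfl | rfl
  · cases h3 : (sg (lf u)).testBit (ya e) <;> cases h4 : (sg (lf u)).testBit (yb e) <;>
      cases h5 : (sg (lf v)).testBit (ya e) <;> cases h6 : (sg (lf v)).testBit (yb e) <;>
      simp_all
  · cases h4 : (sg (lf u)).testBit (yb x) <;> cases h6 : (sg (lf v)).testBit (yb x) <;>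
      simp_all
  · cases h3 : (sg (lf u)).testBit (ya x) <;> cases h5 : (sg (lf v)).testBit (ya x) <;>
      simp_all

theorem common3 : ∀ a b a' b' : Fin 3, a ≠ b → a' ≠ b' →
    ∃ c, (c = a ∨ c = b) ∧ (c = a' ∨ c = b') := by decide

theorem uniq {par : Fin 32 → Fin 32} {sg : Fin 32 → ℕ} {ya yb : Fin 32 → Fin 32}
    (ok2 : Ok2 par sg ya yb) {r : Setoid (Fin 17)} (hr : Crit sg r) {x : Fin 32} {k k' : Fin 17}
    (h : Tch par sg r x k) (h' : Tch par sg r x k') : r k k' := by
  by_cases hx : (x : ℕ) < 17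
  · -- a leaf
    have key : ∀ k, Tch par sg r x k → r k ⟨x, hx⟩ := by
      intro k hk
      rcases hk with hk | ⟨e, he, hinc, k1, k2, r1, r2, b1, b2⟩
      · have h5 : ((lf k : Fin 32) : ℕ) = (x : ℕ) := congrArg Fin.val hk
        have h6 : k = ⟨x, hx⟩ := Fin.ext h5
        rw [h6]
      · have hlf : lf ⟨x, hx⟩ = x := rfl
        rcases ok2.out ⟨x, hx⟩ e he (by rw [hlf]; exact hinc) k1 k2 b1 b2 with h1 | h1
        · rw [← h1]; exact r1
        · rw [← h1]; exact r2
    exact r.trans (key k h) (r.symm (key k' h'))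
  · have hx' : 17 ≤ (x : ℕ) := by omega
    have key : ∀ k, Tch par sg r x k → ∃ k1 k2, r k k1 ∧ r k k2 ∧
        br sg ya yb x k1 ≠ br sg ya yb x k2 := by
      intro k hk
      rcases hk with hk | ⟨e, he, hinc, k1, k2, r1, r2, b1, b2⟩
      · exfalso
        have : ((lf k : Fin 32) : ℕ) = x := congrArg Fin.val hk
        have h2 : ((lf k : Fin 32) : ℕ) < 17 := k.isLt
        omega
      · exact ⟨k1, k2, r1, r2, br_diff ok2 hx' he hinc b1 b2⟩
    obtain ⟨k1, k2, r1, r2, hne⟩ := key k h
    obtain ⟨k1', k2', r1', r2', hne'⟩ := key k' h'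
    obtain ⟨c, hc, hc'⟩ := common3 _ _ _ _ hne hne'
    have pick : ∀ (k k1 k2 : Fin 17), r k k1 → r k k2 → br sg ya yb x k1 ≠ br sg ya yb x k2 →
        (c = br sg ya yb x k1 ∨ c = br sg ya yb x k2) →
        ∃ u v, r k u ∧ r k v ∧ (sg (lf u) ^^^ sg (lf v)).testBit (ed ya yb x c) = true := by
      intro k k1 k2 r1 r2 hne hc
      rcases hc with hc | hc
      · exact ⟨k1, k2, r1, r2, xor_bit (br_bit ok2 hx' c hc.symm (by rw [hc]; exact hne.symm))⟩
      · exact ⟨k2, k1, r2, r1, xor_bit (br_bit ok2 hx' c hc.symm (by rw [hc]; exact hne))⟩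
    obtain ⟨u, v, ru, rv, hb⟩ := pick k k1 k2 r1 r2 hne hc
    obtain ⟨u', v', ru', rv', hb'⟩ := pick k' k1' k2' r1' r2' hne' hc'
    have := hr u v u' v' _ (r.trans (r.symm ru) rv) (r.trans (r.symm ru') rv') hb hb'
    exact r.trans ru (r.trans this (r.symm ru'))

theorem conv_of_crit {par : Fin 32 → Fin 32} {sg : Fin 32 → ℕ} {ya yb : Fin 32 → Fin 32}
    (ok : Ok par sg) (ok2 : Ok2 par sg ya yb) {r : Setoid (Fin 17)} (hr : Crit sg r) :
    r ∈ Conv (mk ok) := by
  -- the kept edges are the crossed ones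
  let S : Set (Sym2 (Fin 32)) := {z | ∀ e : Fin 32, e ≠ 16 → z = s(e, par e) → ¬ ∃ k, Cr sg r k e}
  refine ⟨S, ?_⟩
  intro i j
  show r i j ↔ ((gr par).deleteEdges S).Reachable (lf i) (lf j)
  constructor
  · intro hij
    -- climbing
    have climb : ∀ (i j : Fin 17), r i j → ∀ n : ℕ,
        ((gr par).deleteEdges S).Reachable (lf i) ((clm par sg (lf j))^[n] (lf i)) ∧
        ((clm par sg (lf j))^[n] (lf i) = 16 ∨
          (sg (lf i)).testBit ((clm par sg (lf j))^[n] (lf i)) = true) := by
      intro i j hij n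
      induction n with
      | zero => exact ⟨SimpleGraph.Reachable.refl _, ok2.self i⟩
      | succ n ih =>
        rw [Function.iterate_succ_apply']
        obtain ⟨ih1, ih2⟩ := ih
        generalize (clm par sg (lf j))^[n] (lf i) = x at ih1 ih2
        unfold clm
        by_cases hx : x = 16 ∨ (sg (lf j)).testBit x = true
        · rw [if_pos hx]; exact ⟨ih1, ih2⟩
        · rw [if_neg hx]
          push Not at hx
          obtain ⟨hx1, hx2⟩ := hx
          have hbi := ih2.resolve_left hx1
          have hbj : (sg (lf j)).testBit x = false := by simpa using hx2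
          refine ⟨?_, ok2.anc x hx1 i hbi⟩
          refine ih1.trans (SimpleGraph.Adj.reachable ?_)
          rw [SimpleGraph.deleteEdges_adj, gr_adj]
          refine ⟨⟨?_, Or.inl rfl⟩, ?_⟩
          · intro hh
            have := ok.bit x hx1
            rw [← hh, Nat.xor_self] at this
            exact absurd this.symm (by positivity)
          · intro hS
            exact hS x hx1 rfl ⟨i, i, j, r.refl i, hij, hbi, hbj⟩
    have c1 := (climb i j hij 16).1
    have c2 := (climb j i (r.symm hij) 16).1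
    rw [ok2.meet i j] at c1
    exact c1.trans c2.symm
  · rintro ⟨w⟩
    have key : ∀ x y : Fin 32, ((gr par).deleteEdges S).Walk x y → ∀ k, Tch par sg r x k →
        Tch par sg r y k := by
      intro x y w
      induction w with
      | nil => exact fun k hk => hk
      | @cons u v w hadj p ih =>
        intro k hk
        apply ih
        rw [SimpleGraph.deleteEdges_adj, gr_adj] at hadj
        obtain ⟨⟨hne, hpar⟩, hS⟩ := hadj
        -- the edge is crossed
        have hS' : ∃ e : Fin 32, e ≠ 16 ∧ s(u, v) = s(e, par e) ∧ ∃ k, Cr sg r k e := by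
          by_contra hcon
          apply hS
          intro e he hz hk'
          exact hcon ⟨e, he, hz, hk'⟩
        obtain ⟨e, he, hz, k', hk'⟩ := hS'
        have hu : e = u ∨ par e = u := by
          rw [Sym2.eq_iff] at hz
          rcases hz with ⟨h1, h2⟩ | ⟨h1, h2⟩
          · left; exact h1.symm
          · right; exact h1.symm
        have hv : e = v ∨ par e = v := by
          rw [Sym2.eq_iff] at hz
          rcases hz with ⟨h1, h2⟩ | ⟨h1, h2⟩
          · right; exact h2.symm
          · left; exact h2.symm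
        have tu : Tch par sg r u k' := Or.inr ⟨e, he, hu, hk'⟩
        have hkk := uniq ok2 hr hk tu
        obtain ⟨k1, k2, r1, r2, b1, b2⟩ := hk'
        exact Or.inr ⟨e, he, hv, k1, k2, r.trans hkk r1, r.trans hkk r2, b1, b2⟩
    have t1 := key _ _ w i (Or.inl rfl)
    exact uniq ok2 hr t1 (Or.inl rfl)


/-! ### The two trees -/

def pT : Fin 32 → Fin 32 := ![18, 20, 29, 31, 17, 25, 27, 28, 22, 24, 17, 18, 30, 23, 19, 21, 16, 26, 19, 20, 21, 22, 23, 24, 25, 26, 27, 28, 29, 30, 31, 16]
def sT : Fin 32 → ℕ := ![4294705153, 4293918722, 3758096388, 2147483656, 4227989520, 4261412896, 4160749632, 4026531968, 4290773248, 4278190592, 4227990528, 4294707200, 3221229568, 4286586880, 4294459392, 4292902912, 0, 4227989504, 4294705152, 4294443008, 4293918720, 4292870144, 4290772992, 4286578688, 4278190080, 4261412864, 4227858432, 4160749568, 4026531840, 3758096384, 3221225472, 2147483648]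
def pF : Fin 32 → Fin 32 := ![28, 26, 20, 27, 18, 22, 19, 21, 17, 17, 23, 28, 25, 21, 31, 24, 16, 18, 19, 20, 30, 22, 23, 24, 25, 26, 27, 29, 29, 30, 31, 16]
def sF : Fin 32 → ℕ := ![4026531841, 3959422978, 3222274052, 3892314120, 3223060496, 4022337568, 3222798400, 4024434816, 3223191808, 3223192064, 4018144256, 4026533888, 3992981504, 4024442880, 2147500032, 4009787392, 0, 3223191552, 3223060480, 3222798336, 3222274048, 4024434688, 4022337536, 4018143232, 4009754624, 3992977408, 3959422976, 3892314112, 4026531840, 3758096384, 3221225472, 2147483648]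
def aT : Fin 32 → Fin 32 := ![0, 0, 0, 0, 0, 0, 0, 0, 0, 0, 0, 0, 0, 0, 0, 0, 0, 4, 0, 14, 1, 15, 8, 13, 9, 5, 17, 6, 7, 2, 12, 3]
def bT : Fin 32 → Fin 32 := ![0, 0, 0, 0, 0, 0, 0, 0, 0, 0, 0, 0, 0, 0, 0, 0, 0, 10, 11, 18, 19, 20, 21, 22, 23, 24, 25, 26, 27, 28, 29, 30]
def aF : Fin 32 → Fin 32 := ![0, 0, 0, 0, 0, 0, 0, 0, 0, 0, 0, 0, 0, 0, 0, 0, 0, 8, 4, 6, 2, 7, 5, 10, 15, 12, 1, 3, 0, 27, 20, 14]
def bF : Fin 32 → Fin 32 := ![0, 0, 0, 0, 0, 0, 0, 0, 0, 0, 0, 0, 0, 0, 0, 0, 0, 9, 17, 18, 19, 13, 21, 22, 23, 24, 25, 26, 11, 28, 29, 30]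

theorem okT : Ok pT sT := ⟨by decide, by decide +kernel, by decide +kernel, by decide +kernel⟩
theorem okF : Ok pF sF := ⟨by decide, by decide +kernel, by decide +kernel, by decide +kernel⟩

theorem ok2T : Ok2 pT sT aT bT := ⟨by decide +kernel, by decide +kernel, by decide +kernel,
  by decide +kernel, by decide +kernel, by decide +kernel⟩
theorem ok2F : Ok2 pF sF aF bF := ⟨by decide +kernel, by decide +kernel, by decide +kernel,
  by decide +kernel, by decide +kernel, by decide +kernel⟩

/-- the first tree -/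
def T : SBTree 17 := mk okT

/-- the second tree -/
def F : SBTree 17 := mk okF

def lT : List ℕ := [4294705153, 4293918722, 3758096388, 2147483656, 4227989520, 4261412896, 4160749632, 4026531968, 4290773248, 4278190592, 4227990528, 4294707200, 3221229568, 4286586880, 4294459392, 4292902912, 0]
def lF : List ℕ := [4026531841, 3959422978, 3222274052, 3892314120, 3223060496, 4022337568, 3222798400, 4024434816, 3223191808, 3223192064, 4018144256, 4026533888, 3992981504, 4024442880, 2147500032, 4009787392, 0]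
def gT (x : ℕ) : ℕ := lT.getD x 0
def gF (x : ℕ) : ℕ := lF.getD x 0

theorem gT_eq : ∀ i : Fin 17, sT (lf i) = gT i := by decide +kernel
theorem gF_eq : ∀ i : Fin 17, sF (lf i) = gF i := by decide +kernel

/-! ### Representatives -/

noncomputable def rp (r : Setoid (Fin 17)) (i : Fin 17) : ℕ :=
  sInf {j : ℕ | ∃ hj : j < 17, r i ⟨j, hj⟩}

theorem rp_spec (r : Setoid (Fin 17)) (i : Fin 17) :
    ∃ hj : rp r i < 17, r i ⟨rp r i, hj⟩ := by
  have : rp r i ∈ {j : ℕ | ∃ hj : j < 17, r i ⟨j, hj⟩} := Nat.sInf_mem ⟨i, i.isLt, r.refl i⟩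
  exact this

theorem rp_le {r : Setoid (Fin 17)} {i j : Fin 17} (h : r i j) : rp r i ≤ j :=
  Nat.sInf_le ⟨j.isLt, h⟩

theorem rp_iff {r : Setoid (Fin 17)} {i j : Fin 17} : r i j ↔ rp r i = rp r j := by
  constructor
  · intro h
    unfold rp
    congr 1
    ext k
    constructor
    · rintro ⟨hk, h'⟩; exact ⟨hk, r.trans (r.symm h) h'⟩
    · rintro ⟨hk, h'⟩; exact ⟨hk, r.trans h h'⟩
  · intro h
    obtain ⟨h1, h2⟩ := rp_spec r i
    obtain ⟨h3, h4⟩ := rp_spec r j
    have : (⟨rp r i, h1⟩ : Fin 17) = ⟨rp r j, h3⟩ := Fin.ext h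
    rw [this] at h2
    exact r.trans h2 (r.symm h4)

noncomputable def rpn (r : Setoid (Fin 17)) (i : ℕ) : ℕ := if h : i < 17 then rp r ⟨i, h⟩ else 0

theorem rpn_lt {r : Setoid (Fin 17)} {i : ℕ} (h : i < 17) : rpn r i = rp r ⟨i, h⟩ := by
  simp [rpn, h]

theorem rpn_le {r : Setoid (Fin 17)} {i : ℕ} (h : i < 17) : rpn r i ≤ i := by
  rw [rpn_lt h]; exact rp_le (r.refl _)

theorem rpn_idem {r : Setoid (Fin 17)} {i : ℕ} (h : i < 17) : rpn r (rpn r i) = rpn r i := by
  obtain ⟨h1, h2⟩ := rp_spec r ⟨i, h⟩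
  rw [rpn_lt h, rpn_lt h1]
  exact (rp_iff.1 h2).symm

theorem setoid_ext' {r r' : Setoid (Fin 17)} (h : ∀ i < 17, rpn r i = rpn r' i) : r = r' := by
  ext i j
  show r i j ↔ r' i j
  rw [rp_iff, rp_iff]
  have h1 := h i i.isLt
  have h2 := h j j.isLt
  rw [rpn_lt i.isLt, rpn_lt i.isLt] at h1
  rw [rpn_lt j.isLt, rpn_lt j.isLt] at h2
  rw [show (⟨(i : ℕ), i.isLt⟩ : Fin 17) = i from rfl] at h1
  rw [show (⟨(j : ℕ), j.isLt⟩ : Fin 17) = j from rfl] at h2
  rw [h1, h2]

theorem card_quot (r : Setoid (Fin 17)) :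
    Nat.card (Quotient r) = ((List.range 17).filter (fun i => decide (rpn r i = i))).length := by
  have hk : r = Setoid.ker (rp r) := by
    ext i j
    show r i j ↔ _
    rw [rp_iff, Setoid.ker_def]
  have h1 : Nat.card (Quotient r) = Nat.card (Set.range (rp r)) := by
    conv_lhs => rw [hk]
    exact Nat.card_congr (Setoid.quotientKerEquivRange _)
  have h2 : Set.range (rp r) =
      (((Finset.range 17).filter (fun i => rpn r i = i) : Finset ℕ) : Set ℕ) := by
    ext v
    simp only [Set.mem_range, Finset.coe_filter, Finset.mem_range, Set.mem_ofPred_eq]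
    constructor
    · rintro ⟨i, rfl⟩
      obtain ⟨h1, h2⟩ := rp_spec r i
      refine ⟨h1, ?_⟩
      rw [rpn_lt h1]
      exact (rp_iff.1 h2).symm
    · rintro ⟨hv, hv'⟩
      exact ⟨⟨v, hv⟩, by rw [rpn_lt hv] at hv'; exact hv'⟩
  rw [h1, h2, Nat.card_coe_set_eq, Set.ncard_coe_finset]
  rfl

/-! ### The exhaustive count -/

def upd (st : List (ℕ × ℕ × ℕ)) (v x : ℕ) : List (ℕ × ℕ × ℕ) :=
  st.map (fun q => if q.1 = v then
    (q.1, q.2.1 ||| (gT v ^^^ gT x), q.2.2 ||| (gF v ^^^ gF x)) else q)

def chk (st : List (ℕ × ℕ × ℕ)) (v s t : ℕ) : Bool :=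
  st.all (fun q => (q.1 == v) || (((q.2.1 &&& s) == 0) && ((q.2.2 &&& t) == 0)))

def fin (k : ℕ) (nr : List ℕ) (st : List (ℕ × ℕ × ℕ)) : Bool :=
  (st.length == k) && nr.any (fun u => nr.any (fun v => !(u == v)))

def cnt (k : ℕ) : List ℕ → List ℕ → List (ℕ × ℕ × ℕ) → ℕ
  | [], nr, st => if fin k nr st then 1 else 0
  | x :: xs, nr, st =>
    if (Nat.ble st.length k && Nat.ble k (st.length + (xs.length + 1))) = true then
    cnt k xs nr (st ++ [(x, 0, 0)]) +
      (st.map (fun q =>
        if chk st q.1 (q.2.1 ||| (gT q.1 ^^^ gT x)) (q.2.2 ||| (gF q.1 ^^^ gF x)) then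
          cnt k xs (q.1 :: nr) (upd st q.1 x) else 0)).sum else 0

structure Rel (r : Setoid (Fin 17)) (m : ℕ) (w nr : List ℕ) (st : List (ℕ × ℕ × ℕ)) : Prop where
  hw : w = ((List.range m).map (rpn r)).reverse
  hnr : ∀ x < m, rpn r x ≠ x → rpn r x ∈ nr
  hst : st.map Prod.fst = (List.range m).filter (fun i => decide (rpn r i = i))
  hT : ∀ q ∈ st, ∀ e, q.2.1.testBit e = true →
    ∃ x < 17, rpn r x = q.1 ∧ (gT q.1 ^^^ gT x).testBit e = true
  hF : ∀ q ∈ st, ∀ e, q.2.2.testBit e = true →
    ∃ x < 17, rpn r x = q.1 ∧ (gF q.1 ^^^ gF x).testBit e = true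

def Good (k : ℕ) (r : Setoid (Fin 17)) : Prop :=
  r ∈ Conv T ∧ r ∈ Conv F ∧ Nat.card (Quotient r) = k ∧ Nontriv r

theorem critT {r : Setoid (Fin 17)} (hr : r ∈ Conv T) {u v x y e : ℕ} (hu : u < 17) (hv : v < 17)
    (hx : x < 17) (hy : y < 17) (hu' : rpn r u = u) (hv' : rpn r v = v)
    (hxu : rpn r x = u) (hyv : rpn r y = v)
    (b1 : (gT u ^^^ gT x).testBit e = true) (b2 : (gT v ^^^ gT y).testBit e = true) : u = v := by
  rw [rpn_lt hu] at hu'; rw [rpn_lt hv] at hv'; rw [rpn_lt hx] at hxu; rw [rpn_lt hy] at hyv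
  have h1 : r ⟨u, hu⟩ ⟨x, hx⟩ := rp_iff.2 (by rw [hu', hxu])
  have h2 : r ⟨v, hv⟩ ⟨y, hy⟩ := rp_iff.2 (by rw [hv', hyv])
  have := crit okT hr h1 h2 (e := e) (by rw [gT_eq, gT_eq]; exact b1) (by rw [gT_eq, gT_eq]; exact b2)
  have := rp_iff.1 this
  rw [hu', hv'] at this
  exact this

theorem critF {r : Setoid (Fin 17)} (hr : r ∈ Conv F) {u v x y e : ℕ} (hu : u < 17) (hv : v < 17)
    (hx : x < 17) (hy : y < 17) (hu' : rpn r u = u) (hv' : rpn r v = v)
    (hxu : rpn r x = u) (hyv : rpn r y = v)
    (b1 : (gF u ^^^ gF x).testBit e = true) (b2 : (gF v ^^^ gF y).testBit e = true) : u = v := by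
  rw [rpn_lt hu] at hu'; rw [rpn_lt hv] at hv'; rw [rpn_lt hx] at hxu; rw [rpn_lt hy] at hyv
  have h1 : r ⟨u, hu⟩ ⟨x, hx⟩ := rp_iff.2 (by rw [hu', hxu])
  have h2 : r ⟨v, hv⟩ ⟨y, hy⟩ := rp_iff.2 (by rw [hv', hyv])
  have := crit okF hr h1 h2 (e := e) (by rw [gF_eq, gF_eq]; exact b1) (by rw [gF_eq, gF_eq]; exact b2)
  have := rp_iff.1 this
  rw [hu', hv'] at this
  exact this

theorem list_cover {α β : Type} (st : List β) (B : β → Set α) (c : β → ℕ) :
    ∀ (S : Set α), (∀ q ∈ st, (B q).encard ≤ (c q : ℕ)) → (∀ x ∈ S, ∃ q ∈ st, x ∈ B q) →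
      S.encard ≤ (((st.map c).sum : ℕ) : ℕ∞) := by
  induction st with
  | nil =>
    intro S _ h
    have : S = ∅ := by
      rw [Set.eq_empty_iff_forall_notMem]
      intro x hx; obtain ⟨q, hq, -⟩ := h x hx; simp at hq
    rw [this]; simp
  | cons a l ih =>
    intro S hb h
    rw [List.map_cons, List.sum_cons, Nat.cast_add]
    have h1 : S ⊆ B a ∪ {x | x ∈ S ∧ ∃ q ∈ l, x ∈ B q} := by
      intro x hx
      obtain ⟨q, hq, hxq⟩ := h x hx
      rcases List.mem_cons.1 hq with hq | hq
      · left; rw [← hq]; exact hxq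
      · right; exact ⟨hx, q, hq, hxq⟩
    refine le_trans (Set.encard_le_encard h1) (le_trans (Set.encard_union_le _ _) ?_)
    refine add_le_add (hb a (by simp)) ?_
    exact ih {x | x ∈ S ∧ ∃ q ∈ l, x ∈ B q} (fun q hq => hb q (by simp [hq]))
      (fun x (hx : x ∈ S ∧ ∃ q ∈ l, x ∈ B q) => hx.2)

theorem exists_bit {a b : ℕ} (h : ¬ (a &&& b) = 0) : ∃ e, a.testBit e = true ∧ b.testBit e = true := by
  by_contra hcon
  push Not at hcon
  apply h
  apply Nat.eq_of_testBit_eq
  intro e
  rw [Nat.testBit_and]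
  have := hcon e
  cases h1 : a.testBit e <;> simp_all

theorem bound (k : ℕ) : ∀ (xs : List ℕ) (m : ℕ) (w nr : List ℕ) (st : List (ℕ × ℕ × ℕ)),
    m + xs.length = 17 → xs = List.range' m (17 - m) →
    {r : Setoid (Fin 17) | Good k r ∧ Rel r m w nr st}.encard ≤ (cnt k xs nr st : ℕ) := by
  intro xs
  induction xs with
  | nil =>
    intro m w nr st hm _
    have hm12 : m = 17 := by simpa using hm
    subst hm12
    by_cases hf : fin k nr st = true
    · have : cnt k [] nr st = 1 := by simp [cnt, hf]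
      rw [this]
      rw [Nat.cast_one, Set.encard_le_one_iff]
      rintro r r' ⟨-, h1⟩ ⟨-, h2⟩
      have h3 := h1.hw.symm.trans h2.hw
      have h4 := List.reverse_injective h3
      apply setoid_ext'
      intro i hi
      exact List.map_inj_left.1 h4 i (List.mem_range.2 hi)
    · have : {r : Setoid (Fin 17) | Good k r ∧ Rel r 17 w nr st} = ∅ := by
        rw [Set.eq_empty_iff_forall_notMem]
        rintro r ⟨⟨-, -, hk, i, i', j, j', hi, hii, hj, hjj, hij⟩, hrel⟩
        apply hf
        unfold fin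
        rw [Bool.and_eq_true]
        constructor
        · rw [beq_iff_eq, ← hk, card_quot, ← hrel.hst, List.length_map]
        · -- a non-representative in the class of `i`
          have aux : ∀ i i' : Fin 17, i ≠ i' → r i i' → rp r i ∈ nr := by
            intro i i' hne hr
            by_cases h : rp r i = i
            · have h' : rp r i' ≠ i' := by
                intro h''
                have := rp_iff.1 hr
                rw [h, h''] at this
                exact hne (Fin.ext this)
              have := hrel.hnr i' i'.isLt (by rw [rpn_lt i'.isLt]; exact h')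
              rw [rpn_lt i'.isLt] at this
              rw [rp_iff.1 hr]; exact this
            · have := hrel.hnr i i.isLt (by rw [rpn_lt i.isLt]; exact h)
              rw [rpn_lt i.isLt] at this
              exact this
          rw [List.any_eq_true]
          refine ⟨rp r i, aux i i' hi hii, ?_⟩
          rw [List.any_eq_true]
          refine ⟨rp r j, aux j j' hj hjj, ?_⟩
          have : rp r i ≠ rp r j := fun h => hij (rp_iff.2 h)
          simpa using this
      rw [this]; simp
  | cons x xs ih =>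
    intro m w nr st hm hxs
    have hm12 : m < 17 := by
      rw [List.length_cons] at hm; omega
    have h12 : 17 - m = (17 - (m + 1)) + 1 := by omega
    rw [h12, List.range'_succ] at hxs
    obtain ⟨hx, hxs'⟩ := List.cons.inj hxs
    subst hx
    have hlen : x + 1 + xs.length = 17 := by
      rw [List.length_cons] at hm; omega
    by_cases hlen2 : (Nat.ble st.length k && Nat.ble k (st.length + (xs.length + 1))) = true
    swap
    · have : {r : Setoid (Fin 17) | Good k r ∧ Rel r x w nr st} = ∅ := by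
        rw [Set.eq_empty_iff_forall_notMem]
        rintro r ⟨hg, hrel⟩
        apply hlen2
        have e1 : st.length = ((List.range x).filter (fun i => decide (rpn r i = i))).length := by
          rw [← hrel.hst, List.length_map]
        have e2 : k = ((List.range 17).filter (fun i => decide (rpn r i = i))).length := by
          rw [← card_quot]; exact hg.2.2.1.symm
        have e3 : List.range 17 = List.range x ++ List.range' x (17 - x) := by
          rw [List.range_eq_range', List.range_eq_range']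
          have := List.range'_append (s := 0) (m := x) (n := 17 - x) (step := 1)
          rw [Nat.zero_add, Nat.one_mul] at this
          rw [this]; congr 1; omega
        rw [e3, List.filter_append, List.length_append] at e2
        have e4 := List.length_filter_le (fun i => decide (rpn r i = i)) (List.range' x (17 - x))
        rw [List.length_range'] at e4
        rw [Bool.and_eq_true, Nat.ble_eq, Nat.ble_eq]
        omega
      rw [this]; simp
    have hcov : {r : Setoid (Fin 17) | Good k r ∧ Rel r x w nr st} ⊆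
        {r | Good k r ∧ Rel r (x + 1) (x :: w) nr (st ++ [(x, 0, 0)])} ∪
        {r | ∃ q ∈ st, r ∈ {r | (Good k r ∧ Rel r (x + 1) (q.1 :: w) (q.1 :: nr) (upd st q.1 x)) ∧
          chk st q.1 (q.2.1 ||| (gT q.1 ^^^ gT x)) (q.2.2 ||| (gF q.1 ^^^ gF x)) = true}} := by
      rintro r ⟨hg, hrel⟩
      by_cases hv : rpn r x = x
      · left
        refine ⟨hg, ⟨?_, ?_, ?_, ?_, ?_⟩⟩
        · rw [List.range_succ, List.map_append, List.reverse_append, hrel.hw]
          simp [hv]
        · intro y hy hne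
          have : y ≠ x := by intro hh; rw [hh] at hne; exact hne hv
          exact hrel.hnr y (by omega) hne
        · rw [List.map_append, hrel.hst, List.range_succ, List.filter_append]
          simp [hv]
        · intro q hq e he
          rcases List.mem_append.1 hq with hq | hq
          · exact hrel.hT q hq e he
          · rw [List.mem_singleton] at hq; subst hq; simp at he
        · intro q hq e he
          rcases List.mem_append.1 hq with hq | hq
          · exact hrel.hF q hq e he
          · rw [List.mem_singleton] at hq; subst hq; simp at he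
      · right
        have hvle := rpn_le (r := r) hm12
        have hvlt : rpn r x < x := by omega
        have hidem := rpn_idem (r := r) hm12
        have hmem : rpn r x ∈ st.map Prod.fst := by
          rw [hrel.hst, List.mem_filter]
          exact ⟨List.mem_range.2 hvlt, by simpa using hidem⟩
        obtain ⟨q, hq, hq1⟩ := List.mem_map.1 hmem
        have facts : ∀ q' ∈ st, q'.1 < x ∧ rpn r q'.1 = q'.1 := by
          intro q' hq'
          have : q'.1 ∈ st.map Prod.fst := List.mem_map.2 ⟨q', hq', rfl⟩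
          rw [hrel.hst, List.mem_filter] at this
          exact ⟨List.mem_range.1 this.1, by simpa using this.2⟩
        have sT' : ∀ e, (q.2.1 ||| (gT q.1 ^^^ gT x)).testBit e = true →
            ∃ y < 17, rpn r y = q.1 ∧ (gT q.1 ^^^ gT y).testBit e = true := by
          intro e he
          rw [Nat.testBit_or, Bool.or_eq_true] at he
          rcases he with he | he
          · exact hrel.hT q hq e he
          · exact ⟨x, hm12, hq1.symm, he⟩
        have sF' : ∀ e, (q.2.2 ||| (gF q.1 ^^^ gF x)).testBit e = true →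
            ∃ y < 17, rpn r y = q.1 ∧ (gF q.1 ^^^ gF y).testBit e = true := by
          intro e he
          rw [Nat.testBit_or, Bool.or_eq_true] at he
          rcases he with he | he
          · exact hrel.hF q hq e he
          · exact ⟨x, hm12, hq1.symm, he⟩
        refine ⟨q, hq, ⟨hg, ⟨?_, ?_, ?_, ?_, ?_⟩⟩, ?_⟩
        · rw [List.range_succ, List.map_append, List.reverse_append, hrel.hw]
          simp [hq1]
        · intro y hy hne
          by_cases hyx : y = x
          · rw [hyx, ← hq1]; simp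
          · exact List.mem_cons_of_mem _ (hrel.hnr y (by omega) hne)
        · have : (upd st q.1 x).map Prod.fst = st.map Prod.fst := by
            unfold upd
            rw [List.map_map]
            apply List.map_congr_left
            intro q' _
            by_cases h : q'.1 = q.1 <;> simp [h]
          rw [this, hrel.hst, List.range_succ, List.filter_append]
          simp [hv]
        · intro q' hq' e he
          unfold upd at hq'
          obtain ⟨q0, hq0, rfl⟩ := List.mem_map.1 hq'
          by_cases h : q0.1 = q.1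
          · rw [if_pos h] at he ⊢
            simp only at he ⊢
            rw [Nat.testBit_or, Bool.or_eq_true] at he
            rcases he with he | he
            · exact hrel.hT q0 hq0 e he
            · exact ⟨x, hm12, by rw [h, hq1], by rw [h]; exact he⟩
          · rw [if_neg h] at he ⊢
            exact hrel.hT q0 hq0 e he
        · intro q' hq' e he
          unfold upd at hq'
          obtain ⟨q0, hq0, rfl⟩ := List.mem_map.1 hq'
          by_cases h : q0.1 = q.1
          · rw [if_pos h] at he ⊢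
            simp only at he ⊢
            rw [Nat.testBit_or, Bool.or_eq_true] at he
            rcases he with he | he
            · exact hrel.hF q0 hq0 e he
            · exact ⟨x, hm12, by rw [h, hq1], by rw [h]; exact he⟩
          · rw [if_neg h] at he ⊢
            exact hrel.hF q0 hq0 e he
        · unfold chk
          rw [List.all_eq_true]
          intro q' hq'
          by_cases h : q'.1 = q.1
          · simp [h]
          · have f1 := facts q hq
            have f2 := facts q' hq'
            have g1 : (q'.2.1 &&& (q.2.1 ||| (gT q.1 ^^^ gT x))) = 0 := by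
              by_contra hne
              obtain ⟨e, he1, he2⟩ := exists_bit hne
              obtain ⟨y, hy, hy1, hy2⟩ := hrel.hT q' hq' e he1
              obtain ⟨z, hz, hz1, hz2⟩ := sT' e he2
              exact h (critT hg.1 (by omega) (by omega) hy hz f2.2 f1.2 hy1 hz1 hy2 hz2)
            have g2 : (q'.2.2 &&& (q.2.2 ||| (gF q.1 ^^^ gF x))) = 0 := by
              by_contra hne
              obtain ⟨e, he1, he2⟩ := exists_bit hne
              obtain ⟨y, hy, hy1, hy2⟩ := hrel.hF q' hq' e he1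
              obtain ⟨z, hz, hz1, hz2⟩ := sF' e he2
              exact h (critF hg.2.1 (by omega) (by omega) hy hz f2.2 f1.2 hy1 hz1 hy2 hz2)
            rw [g1, g2]
            simp
    refine le_trans (Set.encard_le_encard hcov) (le_trans (Set.encard_union_le _ _) ?_)
    have hcnt : cnt k (x :: xs) nr st = cnt k xs nr (st ++ [(x, 0, 0)]) +
      (st.map (fun q =>
        if chk st q.1 (q.2.1 ||| (gT q.1 ^^^ gT x)) (q.2.2 ||| (gF q.1 ^^^ gF x)) then
          cnt k xs (q.1 :: nr) (upd st q.1 x) else 0)).sum := by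
      show (if _ then _ else _) = _
      rw [if_pos hlen2]
    rw [hcnt, Nat.cast_add]
    refine add_le_add (ih (x + 1) _ _ _ hlen hxs') ?_
    refine list_cover st (fun q => {r | (Good k r ∧
      Rel r (x + 1) (q.1 :: w) (q.1 :: nr) (upd st q.1 x)) ∧
          chk st q.1 (q.2.1 ||| (gT q.1 ^^^ gT x)) (q.2.2 ||| (gF q.1 ^^^ gF x)) = true}) _ _ ?_
      (fun r hr => hr)
    intro q hq
    by_cases hc : chk st q.1 (q.2.1 ||| (gT q.1 ^^^ gT x)) (q.2.2 ||| (gF q.1 ^^^ gF x)) = true
    · rw [if_pos hc]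
      refine le_trans (Set.encard_le_encard ?_) (ih (x + 1) (q.1 :: w) (q.1 :: nr)
        (upd st q.1 x) hlen hxs')
      intro r hr
      exact hr.1
    · rw [if_neg hc]
      have : {r | (Good k r ∧ Rel r (x + 1) (q.1 :: w) (q.1 :: nr) (upd st q.1 x)) ∧
          chk st q.1 (q.2.1 ||| (gT q.1 ^^^ gT x)) (q.2.2 ||| (gF q.1 ^^^ gF x)) = true} = ∅ := by
        rw [Set.eq_empty_iff_forall_notMem]
        rintro r ⟨-, hr⟩
        exact hc hr
      rw [this]; simp

theorem finite_setoid : Finite (Setoid (Fin 17)) := by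
  apply Finite.of_injective (fun r : Setoid (Fin 17) => (fun i j => r i j : Fin 17 → Fin 17 → Prop))
  intro r r' h
  ext i j
  exact iff_of_eq (congrFun (congrFun h i) j)


theorem aN_le (k c : ℕ) (hc : cnt k (List.range' 0 17) [] [] = c) : a T F k ≤ c := by
  have h := bound k (List.range' 0 17) 0 [] [] [] (by decide) rfl
  rw [hc] at h
  have hs : {r : Setoid (Fin 17) | r ∈ Conv T ∧ r ∈ Conv F ∧ Nat.card (Quotient r) = k ∧
      Nontriv r} ⊆ {r | Good k r ∧ Rel r 0 [] [] []} := by
    intro r hr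
    refine ⟨hr, ⟨rfl, ?_, rfl, ?_, ?_⟩⟩
    · intro x hx; omega
    · intro q hq; simp at hq
    · intro q hq; simp at hq
  have h2 := le_trans (Set.encard_le_encard hs) h
  have := finite_setoid
  unfold a
  rw [← (Set.toFinite _).cast_ncard_eq] at h2
  exact_mod_cast h2

/-! ### Lower bounds from lists -/

def sd (l : List ℕ) : Setoid (Fin 17) := Setoid.ker (fun i : Fin 17 => l.getD i 0)

def canon (l : List ℕ) : Bool :=
  (l.length == 17) && (List.range 17).all (fun i =>
    Nat.ble (l.getD i 0) i && (l.getD (l.getD i 0) 0 == l.getD i 0))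

/-- the joined elements `x` with representative `u`, and the paths from `u` to `x` -/
def jn (l : List ℕ) : List (ℕ × ℕ × ℕ) :=
  ((List.range 17).filter (fun x => !(l.getD x 0 == x))).map
    (fun x => (l.getD x 0, gT (l.getD x 0) ^^^ gT x, gF (l.getD x 0) ^^^ gF x))

def crt (J : List (ℕ × ℕ × ℕ)) : Bool :=
  J.all (fun p => J.all (fun q => (p.1 == q.1) ||
    (((p.2.1 &&& q.2.1) == 0) && ((p.2.2 &&& q.2.2) == 0))))

def dec (c : ℕ) : List ℕ := (List.range 17).map (fun i => (c >>> (5 * i)) % 32)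

def enc : List ℕ → ℕ
  | [] => 0
  | a :: l => a + 32 * enc l

def good (k c : ℕ) : Bool :=
  canon (dec c) && crt (jn (dec c)) && (jn (dec c)).any (fun p => (jn (dec c)).any (fun q =>
    !(p.1 == q.1))) && ((jn (dec c)).length + k == 17) && (enc (dec c) == c)

theorem canon_props {l : List ℕ} (h : canon l = true) :
    l.length = 17 ∧ ∀ i < 17, l.getD i 0 ≤ i ∧ l.getD (l.getD i 0) 0 = l.getD i 0 := by
  unfold canon at h
  rw [Bool.and_eq_true, List.all_eq_true] at h
  refine ⟨by simpa using h.1, ?_⟩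
  intro i hi
  have := h.2 i (List.mem_range.2 hi)
  rw [Bool.and_eq_true, Nat.ble_eq] at this
  exact ⟨this.1, by simpa using this.2⟩

theorem sd_iff {l : List ℕ} {i j : Fin 17} : sd l i j ↔ l.getD i 0 = l.getD j 0 := Setoid.ker_def

theorem rpn_sd {l : List ℕ} (h : canon l = true) {i : ℕ} (hi : i < 17) :
    rpn (sd l) i = l.getD i 0 := by
  obtain ⟨h1, h2⟩ := canon_props h
  rw [rpn_lt hi]
  have a1 := h2 i hi
  have hlt : l.getD i 0 < 17 := by omega
  apply le_antisymm
  · have : sd l ⟨i, hi⟩ ⟨l.getD i 0, hlt⟩ := by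
      rw [sd_iff]; exact a1.2.symm
    exact rp_le this
  · obtain ⟨h3, h4⟩ := rp_spec (sd l) ⟨i, hi⟩
    rw [sd_iff] at h4
    have h5 : l.getD i 0 = l.getD (rp (sd l) ⟨i, hi⟩) 0 := h4
    rw [h5]
    exact (h2 _ h3).1

theorem mem_jn {l : List ℕ} {x : ℕ} (hx : x < 17) (hne : l.getD x 0 ≠ x) :
    (l.getD x 0, gT (l.getD x 0) ^^^ gT x, gF (l.getD x 0) ^^^ gF x) ∈ jn l := by
  unfold jn
  rw [List.mem_map]
  refine ⟨x, ?_, rfl⟩
  rw [List.mem_filter]
  exact ⟨List.mem_range.2 hx, by simpa using hne⟩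

theorem pick_bit (g : ℕ → ℕ) {u i i' e : ℕ} (h : (g i ^^^ g i').testBit e = true) :
    (g u ^^^ g i).testBit e = true ∨ (g u ^^^ g i').testBit e = true := by
  rw [Nat.testBit_xor] at h
  rw [Nat.testBit_xor, Nat.testBit_xor]
  cases h1 : (g u).testBit e <;> cases h2 : (g i).testBit e <;> cases h3 : (g i').testBit e <;>
    simp_all

theorem land_ne {a b e : ℕ} (h1 : a.testBit e = true) (h2 : b.testBit e = true) :
    ¬ (a &&& b) = 0 := by
  intro h
  have : (a &&& b).testBit e = true := by rw [Nat.testBit_and, h1, h2]; rfl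
  rw [h] at this
  simp at this

theorem sel {l : List ℕ} (h : canon l = true) (g : ℕ → ℕ) {i i' : Fin 17} {e : ℕ}
    (hr : sd l i i') (hb : (g i ^^^ g i').testBit e = true) :
    ∃ x, x < 17 ∧ l.getD x 0 = l.getD i 0 ∧ l.getD x 0 ≠ x ∧
      (g (l.getD i 0) ^^^ g x).testBit e = true := by
  have hr' := sd_iff.1 hr
  have aux : ∀ x : Fin 17, l.getD x 0 = l.getD i 0 → (g (l.getD i 0) ^^^ g x).testBit e = true →
      ∃ x, x < 17 ∧ l.getD x 0 = l.getD i 0 ∧ l.getD x 0 ≠ x ∧
        (g (l.getD i 0) ^^^ g x).testBit e = true := by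
    intro x hx hbx
    refine ⟨x, x.isLt, hx, ?_, hbx⟩
    intro hh
    rw [← hx, hh, Nat.xor_self] at hbx
    simp at hbx
  rcases pick_bit g (u := l.getD i 0) hb with h1 | h1
  · exact aux i rfl h1
  · exact aux i' hr'.symm h1

theorem crit_T {l : List ℕ} (h : canon l = true) (hc : crt (jn l) = true) : Crit sT (sd l) := by
  intro i i' j j' e hi hj b1 b2
  rw [gT_eq, gT_eq] at b1 b2
  obtain ⟨x, hx, hx1, hx2, hx3⟩ := sel h gT hi b1
  obtain ⟨y, hy, hy1, hy2, hy3⟩ := sel h gT hj b2
  unfold crt at hc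
  rw [List.all_eq_true] at hc
  have c1 := hc _ (mem_jn hx hx2)
  rw [List.all_eq_true] at c1
  have c2 := c1 _ (mem_jn hy hy2)
  simp only [Bool.or_eq_true, Bool.and_eq_true, beq_iff_eq] at c2
  rw [sd_iff]
  rcases c2 with c2 | c2
  · rw [← hx1, ← hy1]; exact c2
  · rw [hx1, hy1] at c2
    exact absurd c2.1 (land_ne hx3 hy3)

theorem crit_F {l : List ℕ} (h : canon l = true) (hc : crt (jn l) = true) : Crit sF (sd l) := by
  intro i i' j j' e hi hj b1 b2
  rw [gF_eq, gF_eq] at b1 b2
  obtain ⟨x, hx, hx1, hx2, hx3⟩ := sel h gF hi b1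
  obtain ⟨y, hy, hy1, hy2, hy3⟩ := sel h gF hj b2
  unfold crt at hc
  rw [List.all_eq_true] at hc
  have c1 := hc _ (mem_jn hx hx2)
  rw [List.all_eq_true] at c1
  have c2 := c1 _ (mem_jn hy hy2)
  simp only [Bool.or_eq_true, Bool.and_eq_true, beq_iff_eq] at c2
  rw [sd_iff]
  rcases c2 with c2 | c2
  · rw [← hx1, ← hy1]; exact c2
  · rw [hx1, hy1] at c2
    exact absurd c2.2 (land_ne hx3 hy3)

theorem good_props {k c : ℕ} (h : good k c = true) :
    canon (dec c) = true ∧ enc (dec c) = c ∧ Good k (sd (dec c)) := by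
  unfold good at h
  rw [Bool.and_eq_true, Bool.and_eq_true, Bool.and_eq_true, Bool.and_eq_true] at h
  obtain ⟨⟨⟨⟨h1, h2⟩, h3⟩, h4⟩, h5⟩ := h
  refine ⟨h1, by simpa using h5, conv_of_crit okT ok2T (crit_T h1 h2),
    conv_of_crit okF ok2F (crit_F h1 h2), ?_, ?_⟩
  · rw [card_quot]
    have e1 : (List.range 17).filter (fun i => decide (rpn (sd (dec c)) i = i)) =
        (List.range 17).filter (fun i => ((dec c).getD i 0 == i)) := by
      apply List.filter_congr
      intro i hi
      rw [rpn_sd h1 (List.mem_range.1 hi)]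
      rfl
    rw [e1]
    have h4' : (jn (dec c)).length + k = 17 := by simpa using h4
    unfold jn at h4'
    rw [List.length_map] at h4'
    have e2 := List.length_eq_length_filter_add (l := List.range 17)
      (fun i => ((dec c).getD i 0 == i))
    rw [List.length_range] at e2
    omega
  · rw [List.any_eq_true] at h3
    obtain ⟨p, hp, h3⟩ := h3
    rw [List.any_eq_true] at h3
    obtain ⟨q, hq, h3⟩ := h3
    unfold jn at hp hq
    rw [List.mem_map] at hp hq
    obtain ⟨i, hi, rfl⟩ := hp
    obtain ⟨j, hj, rfl⟩ := hq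
    rw [List.mem_filter, List.mem_range] at hi hj
    obtain ⟨-, hpp⟩ := canon_props h1
    have pi := hpp i hi.1
    have pj := hpp j hj.1
    have n1' : (dec c).getD i 0 ≠ i := by simpa using hi.2
    have n2' : (dec c).getD j 0 ≠ j := by simpa using hj.2
    have n3' : (dec c).getD i 0 ≠ (dec c).getD j 0 := by simpa using h3
    refine ⟨⟨i, hi.1⟩, ⟨(dec c).getD i 0, by omega⟩, ⟨j, hj.1⟩, ⟨(dec c).getD j 0, by omega⟩,
      ?_, ?_, ?_, ?_, ?_⟩
    · intro hh; exact n1' (congrArg Fin.val hh).symm
    · rw [sd_iff]; exact pi.2.symm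
    · intro hh; exact n2' (congrArg Fin.val hh).symm
    · rw [sd_iff]; exact pj.2.symm
    · rw [sd_iff]; exact n3'

def incr : ℕ → List ℕ → Bool
  | _, [] => true
  | a, b :: l => Nat.blt a b && incr b l

theorem incr_props : ∀ (l : List ℕ) (a : ℕ), incr a l = true → (∀ x ∈ l, a < x) ∧ l.Nodup := by
  intro l
  induction l with
  | nil => intro a _; simp
  | cons b l ih =>
    intro a h
    unfold incr at h
    rw [Bool.and_eq_true, Nat.blt_eq] at h
    obtain ⟨h1, h2⟩ := ih b h.2
    refine ⟨?_, ?_⟩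
    · intro x hx
      rcases List.mem_cons.1 hx with hx | hx
      · rw [hx]; exact h.1
      · exact lt_trans h.1 (h1 x hx)
    · rw [List.nodup_cons]
      refine ⟨?_, h2⟩
      intro hb
      exact lt_irrefl _ (h1 b hb)

theorem lower {k : ℕ} (D : List ℕ) (h : ∀ c ∈ D, good k c = true) (hi : incr 0 D = true) :
    D.length ≤ a T F k := by
  obtain ⟨-, hnd⟩ := incr_props D 0 hi
  have hinj : Set.InjOn (fun c => sd (dec c)) (D.toFinset : Set ℕ) := by
    intro c hc c' hc' he
    rw [Finset.mem_coe, List.mem_toFinset] at hc hc'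
    obtain ⟨c1, c2, -⟩ := good_props (h c hc)
    obtain ⟨c1', c2', -⟩ := good_props (h c' hc')
    suffices hd : dec c = dec c' by
      calc c = enc (dec c) := c2.symm
        _ = enc (dec c') := by rw [hd]
        _ = c' := c2'
    apply List.ext_getElem
    · rw [(canon_props c1).1, (canon_props c1').1]
    · intro i h1 h2
      have hi : i < 17 := by rw [(canon_props c1).1] at h1; exact h1
      have e1 := rpn_sd c1 hi
      have e2 := rpn_sd c1' hi
      have he' : sd (dec c) = sd (dec c') := he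
      rw [he', e2] at e1
      rw [List.getD_eq_getElem _ _ h2, List.getD_eq_getElem _ _ h1] at e1
      exact e1.symm
  have := finite_setoid
  rw [← List.toFinset_card_of_nodup hnd, ← Set.ncard_coe_finset, ← Set.InjOn.ncard_image hinj]
  unfold a
  apply Set.ncard_le_ncard _ (Set.toFinite _)
  rintro r ⟨c, hc, rfl⟩
  rw [Finset.mem_coe, List.mem_toFinset] at hc
  exact (good_props (h c hc)).2.2

end Pool.Agent.X36.Cv17
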