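import Mathlib

/-!
# The number of elements of `p`-power order

The number of elements of `p`-power order of a finite group is divisible by the `p`-part of the
order of the group (the case `n = |G|_p` of the theorem of Frobenius), and the consequence on
groups in which `|H|` divides the number of elements of order `d` for all `d > 1` and all subgroups
`H` with `gcd (|H|, d) = 1`.
-/

set_option autoImplicit false

universe u

namespace Pool.Agent.X36.Frob

open Finset

/-- Number of conjugates times the order of the centralizer. -/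
theorem card_conj {G : Type*} [Group G] [Finite G] (u : G) :
    Nat.card {v : G // IsConj u v} * Nat.card (Subgroup.centralizer {u}) = Nat.card G := by
  classical
  have e : {v : G // IsConj u v} ≃ G ⧸ Subgroup.centralizer {u} := by
    symm
    refine Equiv.ofBijective (fun x => Quotient.liftOn' x
      (fun g => (⟨g * u * g⁻¹, isConj_iff.2 ⟨g, rfl⟩⟩ : {v : G // IsConj u v})) ?_) ⟨?_, ?_⟩
    · intro g h hgh
      have h1 : g⁻¹ * h ∈ Subgroup.centralizer {u} := QuotientGroup.leftRel_apply.1 hgh
      rw [Subgroup.mem_centralizer_singleton_iff] at h1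
      apply Subtype.ext
      change g * u * g⁻¹ = h * u * h⁻¹
      have h2 : h = g * (g⁻¹ * h) := by group
      rw [h2]
      calc g * u * g⁻¹ = g * (u * (g⁻¹ * h)) * (g⁻¹ * h)⁻¹ * g⁻¹ := by group
        _ = g * ((g⁻¹ * h) * u) * (g⁻¹ * h)⁻¹ * g⁻¹ := by rw [h1]
        _ = g * (g⁻¹ * h) * u * (g * (g⁻¹ * h))⁻¹ := by group
    · rintro ⟨g⟩ ⟨h⟩ hgh
      have h1 : g * u * g⁻¹ = h * u * h⁻¹ := congrArg Subtype.val hgh
      apply Quotient.sound'
      rw [QuotientGroup.leftRel_apply, Subgroup.mem_centralizer_singleton_iff]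
      calc g⁻¹ * h * u = g⁻¹ * (h * u * h⁻¹) * h := by group
        _ = g⁻¹ * (g * u * g⁻¹) * h := by rw [h1]
        _ = u * (g⁻¹ * h) := by group
    · rintro ⟨v, hv⟩
      obtain ⟨c, hc⟩ := isConj_iff.1 hv
      exact ⟨Quotient.mk'' c, Subtype.ext hc⟩
  rw [Nat.card_congr e, mul_comm, Subgroup.card_mul_index (Subgroup.centralizer {u}) |>.symm]
  rfl

/-- `y` has `p`-power order. -/
def IsPel (p : ℕ) {G : Type*} [Group G] (y : G) : Prop := ∃ j, y ^ p ^ j = 1

theorem isPel_iff {G : Type*} [Group G] [Finite G] {p q m : ℕ} (hp : p.Prime) {k : ℕ}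
    (hq : q = p ^ k) (hG : Nat.card G = q * m) (hpm : ¬ p ∣ m) (y : G) :
    IsPel p y ↔ y ^ q = 1 := by
  constructor
  · rintro ⟨j, hj⟩
    have h1 : orderOf y ∣ p ^ j := orderOf_dvd_of_pow_eq_one hj
    have h2 : orderOf y ∣ q * m := hG ▸ orderOf_dvd_natCard y
    have h3 : Nat.Coprime (orderOf y) m :=
      Nat.Coprime.coprime_dvd_left h1 (Nat.Coprime.pow_left _ ((Nat.Prime.coprime_iff_not_dvd hp).2 hpm))
    exact orderOf_dvd_iff_pow_eq_one.1 (h3.dvd_of_dvd_mul_right h2)
  · intro h
    exact ⟨k, hq ▸ h⟩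

/-- Each element is uniquely the product of commuting elements of orders dividing `m` and `q`. -/
theorem card_eq_sum {G : Type*} [Group G] [Fintype G] [DecidableEq G] {q m : ℕ}
    (hqm : Nat.Coprime q m)
    (hG : Nat.card G = q * m) :
    Nat.card G = ∑ z ∈ univ.filter (fun z : G => z ^ m = 1),
      Nat.card {y : G // y ^ q = 1 ∧ Commute z y} := by
  obtain ⟨u, hu1, hu2⟩ := Nat.chineseRemainder hqm 1 0
  obtain ⟨v, hv1, hv2⟩ := Nat.chineseRemainder hqm 0 1
  have hqv : q ∣ v := (Nat.modEq_zero_iff_dvd).1 hv1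
  have hmu : m ∣ u := (Nat.modEq_zero_iff_dvd).1 hu2
  have hx : ∀ x : G, x ^ (q * m) = 1 := fun x => by rw [← hG]; exact pow_card_eq_one'
  have hcong : v + u ≡ 1 [MOD q * m] := by
    rw [← Nat.modEq_and_modEq_iff_modEq_mul hqm]
    constructor
    · simpa using hv1.add hu1
    · simpa using hv2.add hu2
  have hsplit : ∀ x : G, x ^ v * x ^ u = x := by
    intro x
    rw [← pow_add]
    conv_rhs => rw [← pow_one x]
    rw [pow_eq_pow_iff_modEq]
    exact hcong.of_dvd (orderOf_dvd_of_pow_eq_one (hx x))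
  have hzv : ∀ z : G, z ^ m = 1 → z ^ v = z := by
    intro z hz
    conv_rhs => rw [← pow_one z]
    rw [pow_eq_pow_iff_modEq]
    exact hv2.of_dvd (orderOf_dvd_of_pow_eq_one hz)
  have hyv : ∀ y : G, y ^ q = 1 → y ^ v = 1 := by
    intro y hy
    obtain ⟨c, hc⟩ := hqv
    rw [hc, pow_mul, hy, one_pow]
  have h1 : ((univ : Finset G)).card = ∑ z ∈ univ.filter (fun z : G => z ^ m = 1),
      ((univ : Finset G).filter (fun x => x ^ v = z)).card := by
    apply Finset.card_eq_sum_card_fiberwise
    intro x _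
    simp only [Finset.coe_filter, Set.mem_ofPred_eq, Finset.mem_univ, true_and]
    obtain ⟨c, hc⟩ := hqv
    rw [← pow_mul, hc, show q * c * m = q * m * c by ring, pow_mul, hx, one_pow]
  rw [Nat.card_eq_fintype_card, ← Finset.card_univ, h1]
  refine Finset.sum_congr rfl fun z hz => ?_
  rw [Finset.mem_filter] at hz
  rw [← Fintype.card_subtype, ← Nat.card_eq_fintype_card]
  refine Nat.card_congr (Equiv.ofBijective
    (fun x : {x : G // x ^ v = z} => (⟨x.1 ^ u, ?_, ?_⟩ : {y : G // y ^ q = 1 ∧ Commute z y}))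
    ⟨?_, ?_⟩)
  · obtain ⟨c, hc⟩ := hmu
    rw [← pow_mul, hc, show m * c * q = q * m * c by ring, pow_mul, hx, one_pow]
  · have h5 : Commute (x.1 ^ v) (x.1 ^ u) := (Commute.refl x.1).pow_pow v u
    rwa [x.2] at h5
  · rintro ⟨x, hx1⟩ ⟨x', hx1'⟩ h
    have h2 : x ^ u = x' ^ u := congrArg Subtype.val h
    apply Subtype.ext
    change x = x'
    rw [← hsplit x, ← hsplit x', hx1, hx1', h2]
  · rintro ⟨y, hy1, hy2⟩
    have h3 : (z * y) ^ v = z := by
      rw [hy2.mul_pow, hzv z hz.2, hyv y hy1, mul_one]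
    refine ⟨⟨z * y, h3⟩, Subtype.ext ?_⟩
    change (z * y) ^ u = y
    have h4 := hsplit (z * y)
    rw [h3] at h4
    exact mul_left_cancel h4

theorem dvd_pel {p : ℕ} (hp : p.Prime) : ∀ (n : ℕ) (G : Type u) [Group G] [Finite G],
    Nat.card G = n → p ^ n.factorization p ∣ Nat.card {y : G // IsPel p y} := by
  intro n
  induction n using Nat.strong_induction_on with
  | _ n ih =>
  intro G _ _ hn
  classical
  have := Fintype.ofFinite G
  have hn0 : n ≠ 0 := by rw [← hn]; exact Nat.card_pos.ne'
  set q := p ^ n.factorization p with hq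
  set m := n / q with hm
  have hnqm : Nat.card G = q * m := by rw [hn]; exact (Nat.ordProj_mul_ordCompl_eq_self n p).symm
  have hpm : ¬ p ∣ m := Nat.not_dvd_ordCompl hp hn0
  have hqm : Nat.Coprime q m := Nat.Coprime.pow_left _ ((Nat.Prime.coprime_iff_not_dvd hp).2 hpm)
  have hpel : ∀ y : G, IsPel p y ↔ y ^ q = 1 := isPel_iff hp hq hnqm hpm
  have hsum := card_eq_sum hqm hnqm
  set w : G → ℕ := fun z => Nat.card {y : G // y ^ q = 1 ∧ Commute z y} with hw
  have hwC : ∀ z : G, w z = Nat.card {y : Subgroup.centralizer {z} // IsPel p y} := by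
    intro z
    refine Nat.card_congr (Equiv.ofBijective (fun y : {y : G // y ^ q = 1 ∧ Commute z y} =>
      (⟨⟨y.1, ?_⟩, ?_⟩ : {y : Subgroup.centralizer {z} // IsPel p y})) ⟨?_, ?_⟩)
    · rw [Subgroup.mem_centralizer_singleton_iff]
      exact y.2.2.symm
    · obtain ⟨j, hj⟩ := (hpel y.1).2 y.2.1
      exact ⟨j, Subtype.ext hj⟩
    · intro a b hab
      apply Subtype.ext
      exact congrArg (fun t : {y : Subgroup.centralizer {z} // IsPel p y} => (t.1 : G)) hab
    · rintro ⟨⟨y, hy⟩, j, hj⟩
      rw [Subgroup.mem_centralizer_singleton_iff] at hy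
      have h5 : y ^ p ^ j = 1 := congrArg Subtype.val hj
      exact ⟨⟨y, (hpel y).1 ⟨j, h5⟩, hy.symm⟩, rfl⟩
  -- conjugate elements have the same weight
  have hwconj : ∀ z z' : G, IsConj z z' → w z = w z' := by
    intro z z' h
    obtain ⟨c, rfl⟩ := isConj_iff.1 h
    refine Nat.card_congr (Equiv.ofBijective (fun y : {y : G // y ^ q = 1 ∧ Commute z y} =>
      (⟨c * y.1 * c⁻¹, ?_, ?_⟩ : {y : G // y ^ q = 1 ∧ Commute (c * z * c⁻¹) y})) ⟨?_, ?_⟩)
    · rw [conj_pow, y.2.1, mul_one, mul_inv_cancel]
    · have := y.2.2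
      unfold Commute SemiconjBy at this ⊢
      calc c * z * c⁻¹ * (c * y.1 * c⁻¹) = c * (z * y.1) * c⁻¹ := by group
        _ = c * (y.1 * z) * c⁻¹ := by rw [this]
        _ = c * y.1 * c⁻¹ * (c * z * c⁻¹) := by group
    · intro a b hab
      have : c * a.1 * c⁻¹ = c * b.1 * c⁻¹ := congrArg Subtype.val hab
      exact Subtype.ext (mul_left_cancel (mul_right_cancel this))
    · rintro ⟨y, hy1, hy2⟩
      refine ⟨⟨c⁻¹ * y * c, ?_, ?_⟩, ?_⟩
      · have h6 : c⁻¹ * y * c = c⁻¹ * y * c⁻¹⁻¹ := by rw [inv_inv]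
        rw [h6, conj_pow, hy1]; group
      · unfold Commute SemiconjBy at hy2 ⊢
        calc z * (c⁻¹ * y * c) = c⁻¹ * (c * z * c⁻¹ * y) * c := by group
          _ = c⁻¹ * (y * (c * z * c⁻¹)) * c := by rw [hy2]
          _ = c⁻¹ * y * c * z := by group
      · apply Subtype.ext
        change c * (c⁻¹ * y * c) * c⁻¹ = y
        group
  set S := univ.filter (fun z : G => z ^ m = 1) with hS
  set Sc := S.filter (fun z => z ∈ Subgroup.center G) with hSc
  set Sn := S.filter (fun z => z ∉ Subgroup.center G) with hSn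
  have hsplit : ∑ z ∈ S, w z = ∑ z ∈ Sc, w z + ∑ z ∈ Sn, w z :=
    (Finset.sum_filter_add_sum_filter_not S _ _).symm
  -- central elements
  have hcentral : ∑ z ∈ Sc, w z = Sc.card * Nat.card {y : G // IsPel p y} := by
    rw [Finset.sum_const_nat]
    intro z hz
    rw [hSc, Finset.mem_filter] at hz
    refine Nat.card_congr (Equiv.subtypeEquivRight fun y => ?_)
    rw [hpel]
    constructor
    · exact fun h => h.1
    · exact fun h => ⟨h, (Subgroup.mem_center_iff.1 hz.2 y).symm⟩
  have hScp : ¬ p ∣ Sc.card := by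
    intro hdvd
    let Z : Subgroup G :=
      { carrier := {z | z ^ m = 1 ∧ z ∈ Subgroup.center G}
        one_mem' := ⟨one_pow m, Subgroup.one_mem _⟩
        mul_mem' := fun {a b} ha hb => by
          have hab : Commute a b := (Subgroup.mem_center_iff.1 hb.2 a)
          exact ⟨by rw [hab.mul_pow, ha.1, hb.1, one_mul], Subgroup.mul_mem _ ha.2 hb.2⟩
        inv_mem' := fun {a} ha => ⟨by rw [inv_pow, ha.1, inv_one], Subgroup.inv_mem _ ha.2⟩ }
    have hZ : Nat.card Z = Sc.card := by
      have : (Z : Set G) = (Sc : Set G) := by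
        ext z
        simp [Z, hSc, hS]
      rw [← SetLike.coe_sort_coe, this]
      exact Nat.card_eq_card_toFinset _ |>.trans (by simp)
    rw [← hZ] at hdvd
    have : Fact p.Prime := ⟨hp⟩
    obtain ⟨z, hz⟩ := exists_prime_orderOf_dvd_card' p hdvd
    have h7 : orderOf (z : G) = p := by rw [Subgroup.orderOf_coe, hz]
    have h8 : orderOf (z : G) ∣ m := orderOf_dvd_of_pow_eq_one z.2.1
    exact hpm (h7 ▸ h8)
  -- noncentral elements
  have hnon : q ∣ ∑ z ∈ Sn, w z := by
    rw [← Finset.sum_fiberwise_of_maps_to (g := fun z => ConjClasses.mk z)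
      (t := Sn.image (fun z => ConjClasses.mk z)) (fun z hz => Finset.mem_image_of_mem _ hz)]
    refine Finset.dvd_sum fun c hc => ?_
    obtain ⟨z0, hz0, rfl⟩ := Finset.mem_image.1 hc
    have hz0' := hz0
    rw [hSn, Finset.mem_filter, hS, Finset.mem_filter] at hz0'
    have h9 : Sn.filter (fun z => ConjClasses.mk z = ConjClasses.mk z0) =
        univ.filter (fun z => IsConj z0 z) := by
      ext z
      simp only [Finset.mem_filter, Finset.mem_univ, true_and, ConjClasses.mk_eq_mk_iff_isConj]
      constructor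
      · exact fun h => h.2.symm
      · intro h
        refine ⟨?_, h.symm⟩
        rw [hSn, Finset.mem_filter, hS, Finset.mem_filter]
        obtain ⟨c, hc⟩ := isConj_iff.1 h
        refine ⟨⟨Finset.mem_univ _, ?_⟩, ?_⟩
        · rw [← hc, conj_pow, hz0'.1.2]; group
        · intro hcen
          apply hz0'.2
          have h10 : z0 = c⁻¹ * z * c := by rw [← hc]; group
          have h11 : c⁻¹ * z = z * c⁻¹ := Subgroup.mem_center_iff.1 hcen c⁻¹
          rw [h10, h11]
          simpa using hcen
    rw [h9, Finset.sum_congr rfl (fun z hz => (hwconj z0 z (Finset.mem_filter.1 hz).2).symm),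
      Finset.sum_const, smul_eq_mul, ← Fintype.card_subtype, ← Nat.card_eq_fintype_card]
    set C := Subgroup.centralizer {z0} with hC
    have h12 := card_conj z0
    rw [← hC] at h12
    have hClt : Nat.card C < n := by
      rw [← hn]
      have h13 : C ≠ ⊤ := by
        intro htop
        apply hz0'.2
        rw [Subgroup.mem_center_iff]
        intro g
        have : g ∈ C := htop ▸ Subgroup.mem_top g
        rw [hC, Subgroup.mem_centralizer_singleton_iff] at this
        exact this
      have h14 : Nat.card C ≤ Nat.card G := Subgroup.card_le_card_group C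
      refine lt_of_le_of_ne h14 fun h => h13 (Subgroup.eq_top_of_card_eq C h)
    have h15 := ih (Nat.card C) hClt C rfl
    rw [← hwC z0] at h15
    obtain ⟨t, ht⟩ := h15
    set a := Nat.card {v : G // IsConj z0 v} with ha
    have hCpos : Nat.card C ≠ 0 := Nat.card_pos.ne'
    have h16 : p ^ (Nat.card C).factorization p * (Nat.card C / p ^ (Nat.card C).factorization p) =
      Nat.card C := Nat.ordProj_mul_ordCompl_eq_self _ p
    have h17 : ¬ p ∣ (Nat.card C / p ^ (Nat.card C).factorization p) :=
      Nat.not_dvd_ordCompl hp hCpos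
    have h18 : q ∣ (a * p ^ (Nat.card C).factorization p) *
        (Nat.card C / p ^ (Nat.card C).factorization p) := by
      rw [mul_assoc, h16, h12, hnqm]
      exact Dvd.intro _ rfl
    have h19 : q ∣ a * p ^ (Nat.card C).factorization p :=
      (Nat.Coprime.pow_left _ ((Nat.Prime.coprime_iff_not_dvd hp).2 h17)).dvd_of_dvd_mul_right h18
    rw [ht, ← mul_assoc]
    exact h19.mul_right t
  have hfin : q ∣ Sc.card * Nat.card {y : G // IsPel p y} := by
    have h20 : q ∣ ∑ z ∈ S, w z := by
      rw [← hsum, hnqm]; exact Dvd.intro _ rfl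
    rw [hsplit, hcentral] at h20
    exact (Nat.dvd_add_left hnon).1 h20
  exact (Nat.Coprime.pow_left _ ((Nat.Prime.coprime_iff_not_dvd hp).2 hScp)).dvd_of_dvd_mul_left hfin


/-- The number of elements of `p`-power order is divisible by the order of a Sylow `p`-subgroup. -/
theorem dvd_card_pel {p : ℕ} (hp : p.Prime) (G : Type u) [Group G] [Finite G] :
    p ^ (Nat.card G).factorization p ∣ Nat.card {y : G // IsPel p y} :=
  dvd_pel hp _ G rfl

/-- The main theorem. -/
theorem main (G : Type u) [Group G] [Finite G]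
    (h : ∀ d : ℕ, 1 < d → d ∣ Nat.card G → ∀ H : Subgroup G, Nat.Coprime (Nat.card H) d →
      Nat.card H ∣ Nat.card {g : G // orderOf g = d}) (g : G) :
    ∃ p k : ℕ, p.Prime ∧ orderOf g = p ^ k := by
  classical
  have := Fintype.ofFinite G
  set n := Nat.card G with hn
  have hn0 : n ≠ 0 := Nat.card_pos.ne'
  set T := univ.filter (fun g : G => ∃ p k : ℕ, p.Prime ∧ orderOf g = p ^ k) with hT
  have hdvd : ∀ p : ℕ, p.Prime → p ^ n.factorization p ∣ T.card := by
    intro p hp
    set A := univ.filter (fun g : G => IsPel p g) with hA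
    have hAT : A ⊆ T := by
      intro x hx
      rw [hA, Finset.mem_filter] at hx
      obtain ⟨j, hj⟩ := hx.2
      obtain ⟨k, -, hk⟩ := (Nat.dvd_prime_pow hp).1 (orderOf_dvd_of_pow_eq_one hj)
      rw [hT, Finset.mem_filter]
      exact ⟨Finset.mem_univ _, p, k, hp, hk⟩
    have h1 : p ^ n.factorization p ∣ A.card := by
      have h0 := dvd_card_pel hp G
      have h00 : Nat.card {y : G // IsPel p y} = A.card := by
        rw [Nat.card_eq_fintype_card, Fintype.card_subtype]
      rwa [h00] at h0
    have h2 : p ^ n.factorization p ∣ (T \ A).card := by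
      have h3 : ∀ x ∈ T \ A, orderOf x ∈ n.divisors.filter (fun d => 1 < d ∧ ¬ p ∣ d) := by
        intro x hx
        rw [Finset.mem_sdiff, hT, hA, Finset.mem_filter, Finset.mem_filter] at hx
        obtain ⟨⟨-, l, k, hl, hk⟩, hx2⟩ := hx
        have hx2' : ¬ IsPel p x := fun h' => hx2 ⟨Finset.mem_univ _, h'⟩
        have hk0 : k ≠ 0 := by
          rintro rfl
          apply hx2'
          exact ⟨0, by rw [pow_zero, pow_one]; exact orderOf_eq_one_iff.1 (by simpa using hk)⟩
        have hlp : l ≠ p := by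
          rintro rfl
          exact hx2' ⟨k, by rw [← hk]; exact pow_orderOf_eq_one x⟩
        rw [Finset.mem_filter, Nat.mem_divisors]
        refine ⟨⟨orderOf_dvd_natCard x, hn0⟩, ?_, ?_⟩
        · rw [hk]; exact Nat.one_lt_pow hk0 hl.one_lt
        · rw [hk]
          intro h'
          exact hlp ((Nat.prime_dvd_prime_iff_eq hp hl).1 (hp.dvd_of_dvd_pow h')).symm
      rw [Finset.card_eq_sum_card_fiberwise h3]
      refine Finset.dvd_sum fun d hd => ?_
      rw [Finset.mem_filter, Nat.mem_divisors] at hd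
      obtain ⟨⟨hd1, -⟩, hd2, hd3⟩ := hd
      -- all or nothing
      by_cases hpp : ∃ l k : ℕ, l.Prime ∧ d = l ^ k
      · have h4 : (T \ A).filter (fun x => orderOf x = d) = univ.filter (fun x => orderOf x = d) := by
          ext x
          rw [Finset.mem_filter, Finset.mem_filter, Finset.mem_sdiff, hT, hA, Finset.mem_filter,
            Finset.mem_filter]
          constructor
          · exact fun h' => ⟨Finset.mem_univ _, h'.2⟩
          · intro h'
            have h6 := h'.2
            refine ⟨⟨⟨Finset.mem_univ _, ?_⟩, ?_⟩, h6⟩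
            · obtain ⟨l, k, hl, hlk⟩ := hpp
              exact ⟨l, k, hl, h6.trans hlk⟩
            · rintro ⟨-, j, hj⟩
              have h7 : d ∣ p ^ j := h6 ▸ orderOf_dvd_of_pow_eq_one hj
              obtain ⟨i, -, hi⟩ := (Nat.dvd_prime_pow hp).1 h7
              have hi0 : i ≠ 0 := by
                rintro rfl
                rw [hi, pow_zero] at hd2
                exact lt_irrefl _ hd2
              exact hd3 (hi ▸ dvd_pow_self p hi0)
        rw [h4, ← Fintype.card_subtype, ← Nat.card_eq_fintype_card]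
        have : Fact p.Prime := ⟨hp⟩
        have P : Sylow p G := default
        have h8 : Nat.card P = p ^ n.factorization p := P.card_eq_multiplicity
        rw [← h8]
        refine h d hd2 hd1 P ?_
        have h9 : Nat.card (P : Subgroup G) = p ^ n.factorization p := h8
        rw [h9]
        exact Nat.Coprime.pow_left _ ((Nat.Prime.coprime_iff_not_dvd hp).2 hd3)
      · have h4 : (T \ A).filter (fun x => orderOf x = d) = ∅ := by
          rw [Finset.filter_eq_empty_iff]
          intro x hx hxd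
          rw [Finset.mem_sdiff, hT, Finset.mem_filter] at hx
          obtain ⟨⟨-, l, k, hl, hk⟩, -⟩ := hx
          exact hpp ⟨l, k, hl, hxd ▸ hk⟩
        rw [h4, Finset.card_empty]
        exact dvd_zero _
    rw [← Finset.card_sdiff_add_card_eq_card hAT]
    exact dvd_add h2 h1
  have hnT : n ∣ T.card := by
    rcases Nat.eq_zero_or_pos T.card with h0 | h0
    · rw [h0]; exact dvd_zero _
    · rw [← Nat.factorization_le_iff_dvd hn0 h0.ne']
      intro p
      by_cases hp : p.Prime
      · exact (hp.pow_dvd_iff_le_factorization h0.ne').1 (hdvd p hp)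
      · rw [Nat.factorization_eq_zero_of_not_prime _ hp]
        exact Nat.zero_le _
  have h1T : (1 : G) ∈ T := by
    rw [hT, Finset.mem_filter]
    exact ⟨Finset.mem_univ _, 2, 0, Nat.prime_two, by simp⟩
  have hTpos : 0 < T.card := Finset.card_pos.2 ⟨1, h1T⟩
  have hle : n ≤ T.card := Nat.le_of_dvd hTpos hnT
  have hTuniv : T = univ := by
    apply Finset.eq_univ_of_card
    apply le_antisymm (Finset.card_le_univ _)
    rw [← Nat.card_eq_fintype_card]
    exact hle
  have hg : g ∈ T := hTuniv ▸ Finset.mem_univ g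
  rw [hT, Finset.mem_filter] at hg
  exact hg.2

end Pool.Agent.X36.Frob
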