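import Mathlib

/-!
# The tail ratio `R(z)` of MP_966169_pr: definitions and the main estimates

For the law with density `(7 + 3x)/10 · e^{-x}` on `[0, ∞)` we show `R(z) ≤ 1.465 z` and that every
median is at most `0.946`.  For every admissible law and every median `m` we show that there is
`z > 0` with `R(z) ≥ (1/12) z / m`.
-/

set_option autoImplicit false

open MeasureTheory Set Filter Topology

namespace Pool.Agent.X36.TailRatio

/-- The admissible laws: absolutely continuous probability measures on the nonnegative reals that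
are not compactly supported. -/
structure IsLaw (μ : Measure ℝ) : Prop where
  prob : IsProbabilityMeasure μ
  nonneg : μ (Iio 0) = 0
  ac : μ ≪ volume
  tail : ∀ t : ℝ, 0 < μ (Ioi t)

/-- The ratio `R(z)` for `X, Y` independent with law `μ`, i.e. `(X, Y)` has law `μ ⊗ μ`. -/
noncomputable def R (μ : Measure ℝ) (z : ℝ) : ℝ :=
  ((μ.prod μ) {p : ℝ × ℝ | 2 * z ≤ p.1 + p.2 ∧ min p.1 p.2 ≤ z}).toReal /
    ((μ.prod μ) {p : ℝ × ℝ | 2 * z ≤ p.1 + p.2 ∧ z ≤ min p.1 p.2}).toReal

/-- `m` is a median. -/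
def IsMedian (μ : Measure ℝ) (m : ℝ) : Prop := 0 ≤ m ∧ μ (Iic m) = 1 / 2

/-! ### The denominator -/

theorem denom_eq (μ : Measure ℝ) [IsProbabilityMeasure μ] (z : ℝ) :
    (μ.prod μ) {p : ℝ × ℝ | 2 * z ≤ p.1 + p.2 ∧ z ≤ min p.1 p.2} = μ (Ici z) * μ (Ici z) := by
  rw [← Measure.prod_prod]
  congr 1
  ext p
  simp only [mem_prod, mem_Ici, le_min_iff, mem_ofPred_eq]
  constructor
  · rintro ⟨-, h⟩
    exact h
  · rintro ⟨h1, h2⟩
    exact ⟨by linarith, h1, h2⟩

/-! ### Part (b) -/

section General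

variable {μ : Measure ℝ}

/-- The tail function. -/
noncomputable def G (μ : Measure ℝ) (t : ℝ) : ℝ := (μ (Ici t)).toReal

theorem G_nonneg (t : ℝ) : 0 ≤ G μ t := ENNReal.toReal_nonneg

theorem G_anti [IsProbabilityMeasure μ] {s t : ℝ} (h : s ≤ t) : G μ t ≤ G μ s :=
  ENNReal.toReal_mono (measure_ne_top _ _) (measure_mono (Ici_subset_Ici.mpr h))

theorem G_pos (h : IsLaw μ) (t : ℝ) : 0 < G μ t := by
  have := h.prob
  apply ENNReal.toReal_pos _ (measure_ne_top _ _)
  exact (lt_of_lt_of_le (h.tail t) (measure_mono Ioi_subset_Ici_self)).ne'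

theorem measure_Ico [IsProbabilityMeasure μ] {s t : ℝ} (h : s ≤ t) :
    (μ (Ico s t)).toReal = G μ s - G μ t := by
  have h1 : Ici s = Ico s t ∪ Ici t := (Ico_union_Ici_eq_Ici h).symm
  have h2 : μ (Ici s) = μ (Ico s t) + μ (Ici t) := by
    rw [h1]
    apply measure_union _ measurableSet_Ici
    rw [Set.disjoint_left]
    intro x hx hx'
    exact absurd hx.2 (not_lt.mpr hx')
  unfold G
  rw [h2, ENNReal.toReal_add (measure_ne_top _ _) (measure_ne_top _ _)]
  ring

/-- The basic lower bound for `R`. -/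
theorem R_lower (h : IsLaw μ) {z a : ℝ} (ha : 0 < a) :
    (G μ (z - a) - G μ z) * G μ (z + a) ≤ R μ z * (G μ z * G μ z) := by
  have := h.prob
  have hd : ((μ.prod μ) {p : ℝ × ℝ | 2 * z ≤ p.1 + p.2 ∧ z ≤ min p.1 p.2}).toReal
      = G μ z * G μ z := by
    rw [denom_eq, ENNReal.toReal_mul]
    rfl
  have hG := G_pos h z
  have h1 : R μ z * (G μ z * G μ z) =
      ((μ.prod μ) {p : ℝ × ℝ | 2 * z ≤ p.1 + p.2 ∧ min p.1 p.2 ≤ z}).toReal := by
    unfold R
    rw [hd]
    field_simp
  rw [h1, ← measure_Ico (by linarith)]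
  unfold G
  rw [← ENNReal.toReal_mul, ← Measure.prod_prod]
  apply ENNReal.toReal_mono (measure_ne_top _ _)
  apply measure_mono
  rintro p ⟨hp1, hp2⟩
  rw [mem_Ico] at hp1
  rw [mem_Ici] at hp2
  exact ⟨by linarith [hp1.1], (min_le_left _ _).trans hp1.2.le⟩

/-- If `R(z) < z / (12 m)` for all `z`, one can pass from `(z, a)` to `(z', a / 2)`. -/
theorem step (h : IsLaw μ) {m : ℝ} (hm : 0 < m)
    (hR : ∀ z : ℝ, 0 < z → R μ z < 1 / 12 * z / m) {z a : ℝ} (ha : 0 < a) (hz : m ≤ z)
    (hza : z + 2 * a ≤ 3 * m) (hG : 2 * G μ z ≤ G μ (z - a)) :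
    ∃ z', z ≤ z' ∧ z' ≤ z + a ∧ 2 * G μ z' ≤ G μ (z' - a / 2) := by
  have hz0 : 0 < z := by linarith
  have h1 := R_lower h (z := z) ha
  have h2 := hR z hz0
  have hGz := G_pos h z
  have hGa := G_pos h (z + a)
  have hGh := G_pos h (z + a / 2)
  have h3 : R μ z ≤ 1 / 4 := by
    apply h2.le.trans
    rw [div_le_iff₀ hm]
    linarith
  have h4 : G μ z * G μ (z + a) ≤ 1 / 4 * (G μ z * G μ z) := by
    calc G μ z * G μ (z + a) ≤ (G μ (z - a) - G μ z) * G μ (z + a) := by
          apply mul_le_mul_of_nonneg_right _ hGa.le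
          linarith
      _ ≤ R μ z * (G μ z * G μ z) := h1
      _ ≤ 1 / 4 * (G μ z * G μ z) := by
          apply mul_le_mul_of_nonneg_right h3
          positivity
  have h5 : 4 * G μ (z + a) ≤ G μ z := by
    by_contra hlt
    push Not at hlt
    have := mul_lt_mul_of_pos_left hlt hGz
    linarith
  by_cases h6 : 2 * G μ (z + a / 2) ≤ G μ z
  · refine ⟨z + a / 2, by linarith, by linarith, ?_⟩
    rw [show z + a / 2 - a / 2 = z by ring]
    exact h6
  · push Not at h6
    refine ⟨z + a, by linarith, le_rfl, ?_⟩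
    rw [show z + a - a / 2 = z + a / 2 by ring]
    linarith

theorem measure_Iic_zero (h : IsLaw μ) : μ (Iic (0 : ℝ)) = 0 := by
  rw [← Iio_union_right, measure_union_null_iff]
  exact ⟨h.nonneg, h.ac (by simp)⟩

theorem median_pos (h : IsLaw μ) {m : ℝ} (hm : IsMedian μ m) : 0 < m := by
  rcases hm.1.lt_or_eq with h1 | h1
  · exact h1
  · exfalso
    have h2 := hm.2
    rw [← h1, measure_Iic_zero h] at h2
    simp only [one_div] at h2
    exact ENNReal.inv_ne_zero.mpr ENNReal.ofNat_ne_top h2.symm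

theorem G_compl (h : IsLaw μ) (t : ℝ) : G μ t = 1 - (μ (Iic t)).toReal := by
  have := h.prob
  have : NullSingletonClass μ := ⟨fun x => h.ac (by simp)⟩
  have h1 : μ (Ici t) = μ (Ioi t) := (measure_congr Ioi_ae_eq_Ici).symm
  have h2 : μ (Ioi t) = 1 - μ (Iic t) := by
    rw [← compl_Iic, prob_compl_eq_one_sub measurableSet_Iic]
  unfold G
  rw [h1, h2, ENNReal.toReal_sub_of_le prob_le_one ENNReal.one_ne_top]
  simp

theorem G_zero (h : IsLaw μ) : G μ 0 = 1 := by
  rw [G_compl h, measure_Iic_zero h]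
  simp

theorem G_median (h : IsLaw μ) {m : ℝ} (hm : IsMedian μ m) : G μ m = 1 / 2 := by
  rw [G_compl h, hm.2]
  norm_num

theorem G_continuous (h : IsLaw μ) : Continuous (G μ) := by
  have := h.prob
  have : NullSingletonClass μ := ⟨fun x => h.ac (by simp)⟩
  have hIic0 := measure_Iic_zero h
  have h1 : Continuous fun b : ℝ => ∫ _x in (0 : ℝ)..b, (1 : ℝ) ∂μ := by
    apply intervalIntegral.continuous_primitive
    intro a b
    exact intervalIntegrable_const
  have h2 : ∀ b : ℝ, G μ b = G μ 0 - ∫ _x in (0 : ℝ)..b, (1 : ℝ) ∂μ := by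
    intro b
    rw [G_compl h, G_compl h 0, hIic0]
    rcases le_total 0 b with hb | hb
    · rw [intervalIntegral.integral_of_le hb]
      have h3 : μ (Iic b) = μ (Ioc 0 b) := by
        rw [← Iic_union_Ioc_eq_Iic hb, measure_union _ measurableSet_Ioc, hIic0, zero_add]
        rw [Set.disjoint_left]
        intro x hx hx'
        exact absurd hx'.1 (not_lt.mpr hx)
      rw [h3]
      simp [Measure.real]
    · rw [intervalIntegral.integral_of_ge hb]
      have h3 : μ (Iic b) = 0 := measure_mono_null (Iic_subset_Iic.mpr hb) hIic0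
      have h4 : μ (Ioc b 0) = 0 := measure_mono_null (fun x hx => hx.2) hIic0
      rw [h3]
      simp [Measure.real, h4]
  rw [show G μ = fun b => G μ 0 - ∫ _x in (0 : ℝ)..b, (1 : ℝ) ∂μ from funext h2]
  exact continuous_const.sub h1

theorem part_b (h : IsLaw μ) {m : ℝ} (hm : IsMedian μ m) :
    ∃ z : ℝ, 0 < z ∧ 1 / 12 * z / m ≤ R μ z := by
  have := h.prob
  have hm0 : 0 < m := median_pos h hm
  by_contra hcon
  push Not at hcon
  have hG0 : G μ 0 = 1 := G_zero h
  have hGm : G μ m = 1 / 2 := G_median h hm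
  -- states
  let St := {s : ℝ × ℝ // 0 < s.2 ∧ m ≤ s.1 ∧ s.1 + 2 * s.2 ≤ 3 * m ∧
    2 * G μ s.1 ≤ G μ (s.1 - s.2)}
  have hstep : ∀ s : St, ∃ s' : St, s'.1.2 = s.1.2 / 2 ∧ s.1.1 ≤ s'.1.1 := by
    rintro ⟨⟨z, a⟩, h1, h2, h3, h4⟩
    obtain ⟨z', h5, h6, h7⟩ := step h hm0 (fun z hz => hcon z hz) h1 h2 h3 h4
    exact ⟨⟨(z', a / 2), half_pos h1, by simp only at h2 h5 ⊢; linarith,
      by simp only at h3 h6 ⊢; linarith, h7⟩, rfl, h5⟩
  choose nxt hn1 hn2 using hstep
  let s0 : St := ⟨(m, m), hm0, le_rfl, by simp only; linarith, by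
    simp only [sub_self]
    rw [hG0, hGm]
    norm_num⟩
  let s : ℕ → St := fun n => Nat.rec s0 (fun _ t => nxt t) n
  have hs1 : ∀ n, (s n).1.2 = m / 2 ^ n := by
    intro n
    induction n with
    | zero => simp [s, s0]
    | succ n ih =>
      change (nxt (s n)).1.2 = _
      rw [hn1, ih, pow_succ]
      ring
  have hmono : Monotone fun n => (s n).1.1 := monotone_nat_of_le_succ fun n => hn2 (s n)
  have hbdd : BddAbove (range fun n => (s n).1.1) := by
    refine ⟨3 * m, ?_⟩
    rintro _ ⟨n, rfl⟩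
    have h1 := (s n).2.2.2.1
    have h2 := (s n).2.1
    simp only
    linarith
  have hlim := tendsto_atTop_ciSup hmono hbdd
  set zs := ⨆ n, (s n).1.1 with hzs
  have ha0 : Tendsto (fun n => (s n).1.2) atTop (𝓝 0) := by
    simp only [hs1]
    have h1 : Tendsto (fun n : ℕ => m * (1 / 2 : ℝ) ^ n) atTop (𝓝 (m * 0)) :=
      (tendsto_pow_atTop_nhds_zero_of_lt_one (by norm_num) (by norm_num)).const_mul m
    rw [mul_zero] at h1
    refine h1.congr fun n => ?_
    rw [one_div, inv_pow]
    rfl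
  have hlim2 : Tendsto (fun n => (s n).1.1 - (s n).1.2) atTop (𝓝 zs) := by
    have := hlim.sub ha0
    rwa [sub_zero] at this
  have hGcont : Continuous (G μ) := G_continuous h
  have hl1 : Tendsto (fun n => 2 * G μ (s n).1.1) atTop (𝓝 (2 * G μ zs)) :=
    ((hGcont.tendsto zs).comp hlim).const_mul 2
  have hl2 : Tendsto (fun n => G μ ((s n).1.1 - (s n).1.2)) atTop (𝓝 (G μ zs)) :=
    (hGcont.tendsto zs).comp hlim2
  have hle := le_of_tendsto_of_tendsto' hl1 hl2 fun n => (s n).2.2.2.2
  have := G_pos h zs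
  linarith

end General

/-! ### Part (a): the explicit law -/

/-- The density `(7 + 3x)/10 · e^{-x}` on `[0, ∞)`. -/
noncomputable def dens (x : ℝ) : ℝ := (7 / 10 + 3 / 10 * x) * Real.exp (-x)

/-- The law with density `(7 + 3x)/10 · e^{-x}` on `[0, ∞)`. -/
noncomputable def law : Measure ℝ :=
  (volume.restrict (Ici 0)).withDensity fun x => ENNReal.ofReal (dens x)

theorem dens_nonneg {x : ℝ} (hx : 0 ≤ x) : 0 ≤ dens x := by
  unfold dens
  positivity

theorem continuous_dens : Continuous dens := by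
  unfold dens
  fun_prop

theorem measurable_dens : Measurable fun x => ENNReal.ofReal (dens x) :=
  continuous_dens.measurable.ennreal_ofReal

/-- `∫_z^∞ dens = (1 + 3z/10) e^{-z}`. -/
theorem tail_integral {z : ℝ} (hz : 0 ≤ z) :
    IntegrableOn dens (Ioi z) ∧ ∫ x in Ioi z, dens x = (1 + 3 / 10 * z) * Real.exp (-z) := by
  have hderiv : ∀ x ∈ Ici z, HasDerivAt (fun x : ℝ => -((1 + 3 / 10 * x) * Real.exp (-x)))
      (dens x) x := by
    intro x _
    have h1 : HasDerivAt (fun x : ℝ => 1 + 3 / 10 * x) (3 / 10) x := by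
      have := ((hasDerivAt_id x).const_mul (3 / 10 : ℝ)).const_add 1
      simpa using this
    have h2 : HasDerivAt (fun x : ℝ => Real.exp (-x)) (-Real.exp (-x)) x := by
      have := (hasDerivAt_id x).neg.exp
      simpa using this
    have h3 : HasDerivAt (fun x : ℝ => -((1 + 3 / 10 * x) * Real.exp (-x)))
        (-(3 / 10 * Real.exp (-x) + (1 + 3 / 10 * x) * -Real.exp (-x))) x := (h1.mul h2).neg
    refine h3.congr_deriv ?_
    unfold dens
    ring
  have hpos : ∀ x ∈ Ioi z, 0 ≤ dens x := fun x hx => dens_nonneg (hz.trans (le_of_lt hx))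
  have hlim : Tendsto (fun x : ℝ => -((1 + 3 / 10 * x) * Real.exp (-x))) atTop (𝓝 0) := by
    have h1 := Real.tendsto_pow_mul_exp_neg_atTop_nhds_zero 0
    have h2 := Real.tendsto_pow_mul_exp_neg_atTop_nhds_zero 1
    have h3 := (h1.add (h2.const_mul (3 / 10 : ℝ))).neg
    simp only [mul_zero, add_zero, neg_zero] at h3
    refine h3.congr fun x => ?_
    ring
  refine ⟨integrableOn_Ioi_deriv_of_nonneg' hderiv hpos hlim, ?_⟩
  rw [integral_Ioi_of_hasDerivAt_of_nonneg' hderiv hpos hlim]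
  ring

theorem law_apply {s : Set ℝ} (hs : MeasurableSet s) :
    law s = ∫⁻ x in s ∩ Ici 0, ENNReal.ofReal (dens x) := by
  rw [law, withDensity_apply _ hs, Measure.restrict_restrict hs]

theorem law_Ici {z : ℝ} (hz : 0 ≤ z) :
    law (Ici z) = ENNReal.ofReal ((1 + 3 / 10 * z) * Real.exp (-z)) := by
  obtain ⟨h1, h2⟩ := tail_integral hz
  rw [law_apply measurableSet_Ici, inter_eq_left.mpr (Ici_subset_Ici.mpr hz), ← h2,
    ofReal_integral_eq_lintegral_ofReal h1]
  · exact setLIntegral_congr Ioi_ae_eq_Ici.symm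
  · rw [Filter.EventuallyLE, ae_restrict_iff' measurableSet_Ioi]
    exact Eventually.of_forall fun x hx => dens_nonneg (hz.trans (le_of_lt hx))

theorem law_ac : law ≪ volume :=
  (withDensity_absolutelyContinuous _ _).trans Measure.restrict_le_self.absolutelyContinuous

theorem law_Iio : law (Iio 0) = 0 := by
  rw [law_apply measurableSet_Iio]
  have h : Iio (0 : ℝ) ∩ Ici 0 = ∅ := by
    ext x
    simp
  rw [h]
  simp

theorem law_isLaw : IsLaw law where
  prob := by
    constructor
    have h1 : (univ : Set ℝ) = Iio 0 ∪ Ici 0 := Iio_union_Ici.symm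
    rw [h1, measure_union _ measurableSet_Ici, law_Iio, law_Ici le_rfl]
    · simp
    · rw [Set.disjoint_left]
      intro x hx hx'
      exact absurd (show x < 0 from hx) (not_lt.mpr hx')
  nonneg := law_Iio
  ac := law_ac
  tail := fun t => by
    have h1 : Ici (max t 0 + 1) ⊆ Ioi t := by
      intro x hx
      have h2 : max t 0 + 1 ≤ x := hx
      have h3 := le_max_left t 0
      exact lt_of_lt_of_le (by linarith) h2
    refine lt_of_lt_of_le ?_ (measure_mono h1)
    have h2 : 0 ≤ max t 0 + 1 := by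
      have := le_max_right t 0
      linarith
    rw [law_Ici h2, ENNReal.ofReal_pos]
    positivity

/-- The polynomial `∫_0^z (7/10 + 3x/10)(1 + 3(2z - x)/10) dx`. -/
noncomputable def poly (z : ℝ) : ℝ := 7 / 10 * z + 93 / 200 * z ^ 2 + 3 / 50 * z ^ 3

theorem lintegral_law {z : ℝ} {F : ℝ → ENNReal} (hF : Measurable F) :
    ∫⁻ x in Iic z, F x ∂law = ∫⁻ x in Icc 0 z, ENNReal.ofReal (dens x) * F x := by
  rw [law, restrict_withDensity measurableSet_Iic, Measure.restrict_restrict measurableSet_Iic,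
    lintegral_withDensity_eq_lintegral_mul _ measurable_dens hF]
  have h2 : Iic z ∩ Ici (0 : ℝ) = Icc 0 z := by
    rw [inter_comm]
    rfl
  rw [h2]
  rfl

theorem half_integral {z : ℝ} (hz : 0 ≤ z) :
    ∫⁻ x in Iic z, law (Ici (2 * z - x)) ∂law ≤ ENNReal.ofReal (Real.exp (-(2 * z)) * poly z) := by
  have h1 : ∫⁻ x in Iic z, law (Ici (2 * z - x)) ∂law =
      ∫⁻ x in Icc 0 z, ENNReal.ofReal (dens x) *
        ENNReal.ofReal ((1 + 3 / 10 * (2 * z - x)) * Real.exp (-(2 * z - x))) := by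
    have hmeas : Measurable fun x => law (Ici (2 * z - x)) := by
      have : Antitone fun y : ℝ => law (Ici y) := fun a b h =>
        measure_mono (Ici_subset_Ici.mpr h)
      exact this.measurable.comp (measurable_const.sub measurable_id)
    rw [lintegral_law hmeas]
    apply setLIntegral_congr_fun measurableSet_Icc
    intro x hx
    have h3 : 0 ≤ 2 * z - x := by
      have := hx.2
      have := hx.1
      linarith
    simp only
    rw [law_Ici h3]
  rw [h1]
  have h4 : ∀ x ∈ Icc 0 z, ENNReal.ofReal (dens x) *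
        ENNReal.ofReal ((1 + 3 / 10 * (2 * z - x)) * Real.exp (-(2 * z - x))) =
      ENNReal.ofReal (Real.exp (-(2 * z)) *
        ((7 / 10 + 3 / 10 * x) * (1 + 3 / 10 * (2 * z - x)))) := by
    intro x hx
    rw [← ENNReal.ofReal_mul (dens_nonneg hx.1)]
    congr 1
    unfold dens
    have h5 : Real.exp (-(2 * z)) = Real.exp (-x) * Real.exp (-(2 * z - x)) := by
      rw [← Real.exp_add]
      congr 1
      ring
    rw [h5]
    ring
  rw [setLIntegral_congr_fun measurableSet_Icc h4, ← ofReal_integral_eq_lintegral_ofReal]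
  · apply ENNReal.ofReal_le_ofReal
    rw [integral_const_mul]
    apply mul_le_mul_of_nonneg_left _ (Real.exp_pos _).le
    rw [integral_Icc_eq_integral_Ioc, ← intervalIntegral.integral_of_le hz]
    apply le_of_eq
    have h6 : ∀ x ∈ uIcc 0 z, HasDerivAt
        (fun x : ℝ => 7 / 10 * (1 + 3 / 5 * z) * x + (3 / 10 * (1 + 3 / 5 * z) - 21 / 100) / 2 * x ^ 2
          - 3 / 100 * x ^ 3)
        ((7 / 10 + 3 / 10 * x) * (1 + 3 / 10 * (2 * z - x))) x := by
      intro x _
      have e1 : HasDerivAt (fun x : ℝ => 7 / 10 * (1 + 3 / 5 * z) * x) (7 / 10 * (1 + 3 / 5 * z))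
          x := by
        simpa using (hasDerivAt_id x).const_mul (7 / 10 * (1 + 3 / 5 * z))
      have e2 : HasDerivAt (fun x : ℝ => (3 / 10 * (1 + 3 / 5 * z) - 21 / 100) / 2 * x ^ 2)
          ((3 / 10 * (1 + 3 / 5 * z) - 21 / 100) / 2 * (2 * x)) x := by
        simpa using (hasDerivAt_pow 2 x).const_mul ((3 / 10 * (1 + 3 / 5 * z) - 21 / 100) / 2)
      have e3 : HasDerivAt (fun x : ℝ => 3 / 100 * x ^ 3) (3 / 100 * (3 * x ^ 2)) x := by
        simpa using (hasDerivAt_pow 3 x).const_mul (3 / 100 : ℝ)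
      exact ((e1.add e2).sub e3).congr_deriv (by ring)
    rw [intervalIntegral.integral_eq_sub_of_hasDerivAt h6]
    · unfold poly
      ring
    · apply Continuous.intervalIntegrable
      fun_prop
  · apply Continuous.integrableOn_Icc
    fun_prop
  · rw [Filter.EventuallyLE, ae_restrict_iff' measurableSet_Icc]
    refine Eventually.of_forall fun x hx => ?_
    have h7 : 0 ≤ 2 * z - x := by
      have := hx.2
      linarith
    have h8 : 0 ≤ x := hx.1
    simp only [Pi.zero_apply]
    positivity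

/-- The numerator is at most `2 e^{-2z} poly z`. -/
theorem numer_le {z : ℝ} (hz : 0 ≤ z) :
    (law.prod law) {p : ℝ × ℝ | 2 * z ≤ p.1 + p.2 ∧ min p.1 p.2 ≤ z} ≤
      ENNReal.ofReal (2 * (Real.exp (-(2 * z)) * poly z)) := by
  have := law_isLaw.prob
  set A : Set (ℝ × ℝ) := {p | p.1 ≤ z ∧ 2 * z - p.1 ≤ p.2} with hA
  have hAm : MeasurableSet A :=
    (measurableSet_le measurable_fst measurable_const).inter
      (measurableSet_le (measurable_const.sub measurable_fst) measurable_snd)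
  have hsub : {p : ℝ × ℝ | 2 * z ≤ p.1 + p.2 ∧ min p.1 p.2 ≤ z} ⊆ A ∪ Prod.swap ⁻¹' A := by
    rintro p ⟨h1, h2⟩
    rcases min_le_iff.mp h2 with h3 | h3
    · exact Or.inl ⟨h3, by linarith⟩
    · refine Or.inr ⟨h3, ?_⟩
      simp only [Prod.fst_swap, Prod.snd_swap]
      linarith
  have hAle : (law.prod law) A ≤ ENNReal.ofReal (Real.exp (-(2 * z)) * poly z) := by
    refine le_trans (le_of_eq ?_) (half_integral hz)
    rw [Measure.prod_apply hAm, ← lintegral_indicator measurableSet_Iic]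
    congr 1
    funext x
    by_cases hx : x ≤ z
    · rw [indicator_of_mem (by exact hx)]
      congr 1
      ext y
      simp only [hA, mem_preimage, mem_Ici, mem_ofPred_eq]
      exact ⟨fun h => h.2, fun h => ⟨hx, h⟩⟩
    · rw [indicator_of_notMem (by exact hx)]
      have : Prod.mk x ⁻¹' A = ∅ := by
        ext y
        simp only [hA, mem_preimage, mem_ofPred_eq, mem_empty_iff_false, iff_false]
        exact fun h => hx h.1
      rw [this, measure_empty]
  have hswap : (law.prod law) (Prod.swap ⁻¹' A) = (law.prod law) A := by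
    have h := Measure.prod_swap (μ := law) (ν := law)
    conv_rhs => rw [← h]
    rw [Measure.map_apply measurable_swap hAm]
  calc _ ≤ (law.prod law) (A ∪ Prod.swap ⁻¹' A) := measure_mono hsub
    _ ≤ (law.prod law) A + (law.prod law) (Prod.swap ⁻¹' A) := measure_union_le _ _
    _ ≤ ENNReal.ofReal (Real.exp (-(2 * z)) * poly z)
        + ENNReal.ofReal (Real.exp (-(2 * z)) * poly z) := by
        rw [hswap]
        exact add_le_add hAle hAle
    _ = ENNReal.ofReal (2 * (Real.exp (-(2 * z)) * poly z)) := by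
        have hp : 0 ≤ Real.exp (-(2 * z)) * poly z := by
          unfold poly
          positivity
        rw [← ENNReal.ofReal_add hp hp]
        congr 1
        ring

/-- `R(z) ≤ 1.465 z`. -/
theorem R_le {z : ℝ} (hz : 0 < z) : R law z ≤ 293 / 200 * z := by
  have := law_isLaw.prob
  have hE : 0 < Real.exp (-(2 * z)) := Real.exp_pos _
  have hden : ((law.prod law) {p : ℝ × ℝ | 2 * z ≤ p.1 + p.2 ∧ z ≤ min p.1 p.2}).toReal
      = Real.exp (-(2 * z)) * (1 + 3 / 10 * z) ^ 2 := by
    rw [denom_eq, law_Ici hz.le, ENNReal.toReal_mul, ENNReal.toReal_ofReal (by positivity)]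
    have h5 : Real.exp (-(2 * z)) = Real.exp (-z) * Real.exp (-z) := by
      rw [← Real.exp_add]
      congr 1
      ring
    rw [h5]
    ring
  have hnum : ((law.prod law) {p : ℝ × ℝ | 2 * z ≤ p.1 + p.2 ∧ min p.1 p.2 ≤ z}).toReal
      ≤ 2 * (Real.exp (-(2 * z)) * poly z) := by
    apply ENNReal.toReal_le_of_le_ofReal
    · unfold poly
      positivity
    · exact numer_le hz.le
  unfold R
  rw [hden, div_le_iff₀ (by positivity)]
  refine hnum.trans ?_
  have h1 : 2 * poly z ≤ 293 / 200 * z * (1 + 3 / 10 * z) ^ 2 := by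
    unfold poly
    have h2 : 293 / 200 * z * (1 + 3 / 10 * z) ^ 2
        - 2 * (7 / 10 * z + 93 / 200 * z ^ 2 + 3 / 50 * z ^ 3)
        = z * (13 / 200 - 51 / 1000 * z + 237 / 20000 * z ^ 2) := by ring
    have h3 : 0 ≤ 13 / 200 - 51 / 1000 * z + 237 / 20000 * z ^ 2 := by
      nlinarith [sq_nonneg (z - 510 / 237)]
    have h4 := mul_nonneg hz.le h3
    linarith
  nlinarith [mul_le_mul_of_nonneg_left h1 hE.le]

/-- Every median of the law is at most `0.946`. -/
theorem median_le {m : ℝ} (hm : IsMedian law m) : m ≤ 473 / 500 := by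
  have := law_isLaw.prob
  have hna : NullSingletonClass law := ⟨fun x => law_ac (by simp)⟩
  have h1 : law (Ici m) = 1 / 2 := by
    rw [measure_congr Ioi_ae_eq_Ici.symm, ← compl_Iic, prob_compl_eq_one_sub measurableSet_Iic,
      hm.2]
    exact ENNReal.sub_half ENNReal.one_ne_top
  rw [law_Ici hm.1] at h1
  have h2 : (1 + 3 / 10 * m) * Real.exp (-m) = 1 / 2 := by
    have h3 := congrArg ENNReal.toReal h1
    rw [ENNReal.toReal_ofReal (by have := hm.1; positivity)] at h3
    rw [h3]
    simp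
  have h4 : Real.exp m = 2 * (1 + 3 / 10 * m) := by
    have h5 : Real.exp m * Real.exp (-m) = 1 := by rw [← Real.exp_add]; simp
    have h6 : Real.exp m * ((1 + 3 / 10 * m) * Real.exp (-m)) = Real.exp m * (1 / 2) := by rw [h2]
    have h7 : Real.exp m * ((1 + 3 / 10 * m) * Real.exp (-m)) = 1 + 3 / 10 * m := by
      rw [show Real.exp m * ((1 + 3 / 10 * m) * Real.exp (-m))
        = (1 + 3 / 10 * m) * (Real.exp m * Real.exp (-m)) by ring, h5, mul_one]
    linarith
  by_contra hlt
  push Not at hlt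
  have hlog := Real.log_two_lt_d9
  have hlog' := Real.log_two_gt_d9
  have h8 : Real.exp m = 2 * Real.exp (m - Real.log 2) := by
    rw [Real.exp_sub, Real.exp_log (by norm_num)]
    ring
  have h9 := Real.quadratic_le_exp_of_nonneg (x := m - Real.log 2) (by linarith)
  rw [h8] at h4
  have h10 : 1 + 3 / 10 * m < 1 + (m - Real.log 2) + (m - Real.log 2) ^ 2 / 2 := by
    have h11 : 0.2528 < m - Real.log 2 := by linarith
    nlinarith
  linarith

/-- The law has a median. -/
theorem exists_median : ∃ m, IsMedian law m := by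
  have := law_isLaw.prob
  have hna : NullSingletonClass law := ⟨fun x => law_ac (by simp)⟩
  have hcont : ContinuousOn (fun m : ℝ => (1 + 3 / 10 * m) * Real.exp (-m)) (Icc 0 2) := by
    fun_prop
  have h2 : (1 + 3 / 10 * (2 : ℝ)) * Real.exp (-2) ≤ 1 / 2 := by
    have h3 : (4 : ℝ) ≤ Real.exp 2 := by
      have := Real.quadratic_le_exp_of_nonneg (x := 2) (by norm_num)
      linarith
    rw [Real.exp_neg]
    have h4 : (Real.exp 2)⁻¹ ≤ 1 / 4 := by
      rw [one_div]
      exact inv_anti₀ (by norm_num) h3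
    linarith
  have h0 : (1 / 2 : ℝ) ≤ (1 + 3 / 10 * (0 : ℝ)) * Real.exp (-0) := by
    simp
    norm_num
  obtain ⟨m, hm, hm2⟩ := intermediate_value_Icc' (by norm_num : (0 : ℝ) ≤ 2) hcont ⟨h2, h0⟩
  refine ⟨m, hm.1, ?_⟩
  have h5 : law (Ici m) = 1 / 2 := by
    rw [law_Ici hm.1]
    simp only at hm2
    rw [hm2, ENNReal.ofReal_div_of_pos (by norm_num)]
    simp
  have h6 : law (Iic m) = 1 - law (Ici m) := by
    rw [measure_congr Ioi_ae_eq_Ici.symm, ← prob_compl_eq_one_sub measurableSet_Ioi, compl_Ioi]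
  rw [h6, h5]
  exact ENNReal.sub_half ENNReal.one_ne_top

end Pool.Agent.X36.TailRatio
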